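import Pool.Agent.SC25.Flip

set_option autoImplicit false

/-!
# SC25/Det: windows without descents
-/

namespace Pool.SC25

open Pool.HB45 Pool.HM63 Pool.PH43

/-- an incomparable pair without descents at `p - 1`, `p`, `p + 1` is up -/
theorem des_of_Up {N : ℕ} {Q : Rel (N + 1)} {lab : Fin (N + 1) → ℕ} (hn : Nat' Q lab)
    {g : Equiv.Perm (Fin (N + 1))} {p : Fin N} (hp : p ∈ Up Q lab g) :
    des lab (sw g p) = des lab g + 1 := by
  have h5 : p ∉ DS lab g := (mem_Up.1 hp).2 p (Or.inl rfl)
  rw [← card_DS, DS_sw hn hp, Finset.card_insert_of_notMem h5, card_DS]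

theorem mid_inj {N m : ℕ} (hm : m * (3 + 2) ≤ N + 1) : Function.Injective (mid hm) := by
  intro k l h
  have h1 := congrArg Fin.val h
  simp only [mid] at h1
  exact Fin.ext (by omega)

/-- PROOF. A good window (antichain) whose middle is not up contains a descent among its three inner neighbour pairs (if
`a < b < c < d` the swap of `b`, `c` adds a descent, `DS_sw`); the windows are disjoint. -/
theorem det_up {N m : ℕ} (hm : m * (3 + 2) ≤ N + 1) {Q : Rel (N + 1)} {lab : Fin (N + 1) → ℕ}
    (hn : Nat' Q lab) {g : Equiv.Perm (Fin (N + 1))} (hg : g ∈ LE Q) :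
    m ≤ (upT Q lab (Tw hm) g).card + nbad hm Q g + des lab g := by
  classical
  have hcov : (Finset.univ : Finset (Fin m)) ⊆
      ((Finset.univ.filter fun k : Fin m => mid hm k ∈ upT Q lab (Tw hm) g) ∪
        (Finset.univ.filter fun k : Fin m => Bad (winRel (win_le hm k) Q g))) ∪
      Finset.univ.filter fun k : Fin m => ∃ q ∈ DS lab g,
        k.val * (3 + 2) ≤ q.val ∧ q.val ≤ k.val * (3 + 2) + 2 := by
    intro k _
    by_cases hb : Bad (winRel (win_le hm k) Q g)
    · exact Finset.mem_union_left _ (Finset.mem_union_right _ (by simp [hb]))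
    · by_cases hd : ∃ q ∈ DS lab g, k.val * (3 + 2) ≤ q.val ∧ q.val ≤ k.val * (3 + 2) + 2
      · exact Finset.mem_union_right _ (by simp only [Finset.mem_filter, Finset.mem_univ, true_and]; exact hd)
      · refine Finset.mem_union_left _ (Finset.mem_union_left _ ?_)
        rw [Finset.mem_filter, mem_upT]
        have hinc : ¬ Q (g (mid hm k).castSucc) (g (mid hm k).succ) := fun h => hb ⟨1, 2, h⟩
        have hup : mid hm k ∈ Up Q lab g := by
          rw [mem_Up]
          refine ⟨hinc, fun q hq hqd => hd ⟨q, hqd, ?_⟩⟩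
          have hmv : (mid hm k).val = k.val * (3 + 2) + 1 := rfl
          rw [hmv] at hq
          omega
        exact ⟨Finset.mem_univ _, Finset.mem_image_of_mem _ (Finset.mem_univ _), hinc,
          des_of_Up hn hup⟩
  have h0 := Finset.card_le_card hcov
  rw [Finset.card_univ, Fintype.card_fin] at h0
  have hA : (Finset.univ.filter fun k : Fin m => mid hm k ∈ upT Q lab (Tw hm) g).card ≤
      (upT Q lab (Tw hm) g).card := by
    refine Finset.card_le_card_of_injOn (mid hm) (fun k hk => ?_) (mid_inj hm).injOn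
    exact (Finset.mem_filter.1 (Finset.mem_coe.1 hk)).2
  have hC : (Finset.univ.filter fun k : Fin m => ∃ q ∈ DS lab g,
        k.val * (3 + 2) ≤ q.val ∧ q.val ≤ k.val * (3 + 2) + 2).card ≤ des lab g := by
    rw [← card_DS]
    have hex : ∀ k ∈ (Finset.univ.filter fun k : Fin m => ∃ q ∈ DS lab g,
        k.val * (3 + 2) ≤ q.val ∧ q.val ≤ k.val * (3 + 2) + 2), ∃ q ∈ DS lab g,
        k.val * (3 + 2) ≤ q.val ∧ q.val ≤ k.val * (3 + 2) + 2 := fun k hk =>
      (Finset.mem_filter.1 hk).2
    have hN : ∀ k : Fin m, Nonempty (Fin N) := fun k => ⟨mid hm k⟩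
    rcases Nat.eq_zero_or_pos m with hm0 | hm0
    · subst hm0
      simp
    · have : Nonempty (Fin N) := hN ⟨0, hm0⟩
      choose! f hf1 hf2 hf3 using hex
      refine Finset.card_le_card_of_injOn f (fun k hk => hf1 k hk) ?_
      intro a ha b hb hab
      have h1 := hf2 a (Finset.mem_coe.1 ha)
      have h2 := hf2 b (Finset.mem_coe.1 hb)
      have h3 := hf3 a (Finset.mem_coe.1 ha)
      have h4 := hf3 b (Finset.mem_coe.1 hb)
      rw [hab] at h1 h3
      exact Fin.ext (by omega)
  have hB : (Finset.univ.filter fun k : Fin m => Bad (winRel (win_le hm k) Q g)).card =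
      nbad hm Q g := by
    unfold nbad
    congr
  have h1 := Finset.card_union_le ((Finset.univ.filter fun k : Fin m =>
      mid hm k ∈ upT Q lab (Tw hm) g) ∪
        (Finset.univ.filter fun k : Fin m => Bad (winRel (win_le hm k) Q g)))
      (Finset.univ.filter fun k : Fin m => ∃ q ∈ DS lab g,
        k.val * (3 + 2) ≤ q.val ∧ q.val ≤ k.val * (3 + 2) + 2)
  have h2 := Finset.card_union_le (Finset.univ.filter fun k : Fin m =>
      mid hm k ∈ upT Q lab (Tw hm) g)
        (Finset.univ.filter fun k : Fin m => Bad (winRel (win_le hm k) Q g))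
  omega

/-- PROOF. If the middle of a window is down then the window contains a descent among its three inner neighbour pairs
(in an ascending window `a < b < c < d` the swap of `b`, `c` cannot remove a descent). -/
theorem det_down {N m : ℕ} (hm : m * (3 + 2) ≤ N + 1) {Q : Rel (N + 1)} {lab : Fin (N + 1) → ℕ}
    (hn : Nat' Q lab) {g : Equiv.Perm (Fin (N + 1))} (hg : g ∈ LE Q) :
    (dnT Q lab (Tw hm) g).card ≤ des lab g := by
  classical
  rw [← card_DS]
  have hex : ∀ p ∈ dnT Q lab (Tw hm) g, ∃ q ∈ DS lab g, p.val ≤ q.val + 1 ∧ q.val ≤ p.val + 1 := by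
    intro p hp
    obtain ⟨-, hinc, hdes⟩ := mem_dnT.1 hp
    by_contra hcon
    push Not at hcon
    have hup : p ∈ Up Q lab g := by
      rw [mem_Up]
      refine ⟨hinc, fun q hq hqd => ?_⟩
      have := hcon q hqd
      omega
    have := des_of_Up hn hup
    omega
  choose! f hf1 hf2 hf3 using hex
  refine Finset.card_le_card_of_injOn f (fun k hk => hf1 k hk) ?_
  intro a ha b hb hab
  have h1 := hf2 a (Finset.mem_coe.1 ha)
  have h2 := hf2 b (Finset.mem_coe.1 hb)
  have h3 := hf3 a (Finset.mem_coe.1 ha)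
  have h4 := hf3 b (Finset.mem_coe.1 hb)
  rw [hab] at h1 h3
  obtain ⟨k, -, hk⟩ := Finset.mem_image.1 (mem_dnT.1 (Finset.mem_coe.1 ha)).1
  obtain ⟨l, -, hl⟩ := Finset.mem_image.1 (mem_dnT.1 (Finset.mem_coe.1 hb)).1
  have hkv : a.val = k.val * (3 + 2) + 1 := by rw [← hk]; rfl
  have hlv : b.val = l.val * (3 + 2) + 1 := by rw [← hl]; rfl
  exact Fin.ext (by omega)

end Pool.SC25
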