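import Pool.Agent.SC25.FlipA
import Pool.Agent.PH43.Flip

set_option autoImplicit false

/-!
# SC25/Flip: double counting of the flips (from PH43/Flip)
-/

namespace Pool.SC25

open Pool.HB45 Pool.HM63 Pool.PH43

theorem upT_eq_FU {N : ℕ} (Q : Rel (N + 1)) (lab : Fin (N + 1) → ℕ) (T : Finset (Fin N))
    (g : Equiv.Perm (Fin (N + 1))) : upT Q lab T g = FU Q lab T g := by
  ext p
  rw [mem_upT, mem_FU]

theorem dnT_eq_FD {N : ℕ} (Q : Rel (N + 1)) (lab : Fin (N + 1) → ℕ) (T : Finset (Fin N))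
    (g : Equiv.Perm (Fin (N + 1))) : dnT Q lab T g = FD Q lab T g := by
  ext p
  rw [mem_dnT, mem_FD]

open Classical in
/-- DOUBLE COUNTING. Pairs `(g, p)`, `des g = j`, `p ∈ upT g`, against pairs `(g', p)`, `des g' = j + 1`,
`p ∈ dnT g'`, by `g' = sw g p`; `#dnT g' = #dnT g + 1`. -/
theorem flip_ineq {N : ℕ} {Q : Rel (N + 1)} {lab : Fin (N + 1) → ℕ} (_hn : Nat' Q lab)
    {T : Finset (Fin N)} (hT : Sep T) (j : ℕ) :
    ∑ g ∈ (LE Q).filter (fun g => des lab g = j),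
        ((upT Q lab T g).card : ℝ) / ((dnT Q lab T g).card + 1) ≤ w Q lab (j + 1) := by
  have h := flip Q lab (T := T) hT j
  have e : (LE Q).filter (fun g => des lab g = j) = Lj Q lab j := by
    ext g
    rw [Finset.mem_filter, mem_Lj]
  rw [e]
  simpa only [upT_eq_FU, dnT_eq_FD] using h

open Classical in
/-- STEP. If `#up ≥ #down + 2` then `#up/(#down + 1) ≥ 1 + 1/(#down + 1) ≥ 1 + 1/(N + 1)`. So
`w_(j+1) ≥ (w_j - b)(1 + 1/(N+1)) ≥ w_j`. -/
theorem step {N : ℕ} {Q : Rel (N + 1)} {lab : Fin (N + 1) → ℕ} (_hn : Nat' Q lab)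
    {T : Finset (Fin N)} (hT : Sep T) (j : ℕ)
    (hb : (N + 2) * ((LE Q).filter fun g => des lab g = j ∧
      (upT Q lab T g).card ≤ (dnT Q lab T g).card + 1).card ≤ w Q lab j) :
    w Q lab j ≤ w Q lab (j + 1) := by
  refine w_le_of_flip Q lab (T := T) hT j ?_
  have e : (Lj Q lab j).filter (fun g => (FU Q lab T g).card ≤ (FD Q lab T g).card + 1) =
      (LE Q).filter fun g => des lab g = j ∧ (upT Q lab T g).card ≤ (dnT Q lab T g).card + 1 := by
    ext g
    rw [Finset.mem_filter, Finset.mem_filter, mem_Lj, upT_eq_FU, dnT_eq_FD]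
    tauto
  rw [e]
  exact hb

end Pool.SC25
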