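import Pool.Agent.SC25.FlipE1
import Pool.Agent.HB45.Win
import Pool.Agent.HB45.Avg

set_option autoImplicit false

/-!
# SC25/FlipE2A: one good window contains a flip with positive probability
-/

namespace Pool.SC25

open Pool.HB45 Pool.HM63 Pool.PH43

/-- the sorted arrangement of a window has at most two more descents than any other one -/
theorem FlipE2_des_le {N m : ℕ} (hm : m * (3 + 2) ≤ N + 1) (lab : Fin (N + 1) → ℕ) (k : Fin m)
    (π : Equiv.Perm (Fin (N + 1))) (τ0 τ : Equiv.Perm (Fin (3 + 1)))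
    (hs : ∀ p : Fin N, k.val * (3 + 2) ≤ p.val → p.val < k.val * (3 + 2) + 3 →
      p ∉ DS lab (π * emb (win_le hm k) τ0)) :
    des lab (π * emb (win_le hm k) τ0) ≤ des lab (π * emb (win_le hm k) τ) + 2 := by
  classical
  rw [← card_DS, ← card_DS]
  have h1 : DS lab (π * emb (win_le hm k) τ0) ⊆ DS lab (π * emb (win_le hm k) τ) ∪
      ((Finset.univ.filter fun p : Fin N => p.val + 1 = k.val * (3 + 2)) ∪
        (Finset.univ.filter fun p : Fin N => p.val = k.val * (3 + 2) + 3)) := by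
    intro p hp
    rw [Finset.mem_union, Finset.mem_union, Finset.mem_filter, Finset.mem_filter]
    by_cases h2 : p.val + 1 = k.val * (3 + 2)
    · exact Or.inr (Or.inl ⟨Finset.mem_univ _, h2⟩)
    · by_cases h3 : p.val = k.val * (3 + 2) + 3
      · exact Or.inr (Or.inr ⟨Finset.mem_univ _, h3⟩)
      · left
        have h4 : ¬ (k.val * (3 + 2) ≤ p.val ∧ p.val < k.val * (3 + 2) + 3) := fun h =>
          hs p h.1 h.2 hp
        have hc : p.castSucc.val = p.val := rfl
        have hv : p.succ.val = p.val + 1 := rfl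
        rw [mem_DS] at hp ⊢
        rw [Equiv.Perm.mul_apply, Equiv.Perm.mul_apply] at hp ⊢
        rw [emb_of_not (win_le hm k) τ0 p.succ (by rw [hv]; omega),
          emb_of_not (win_le hm k) τ0 p.castSucc (by rw [hc]; omega)] at hp
        rw [emb_of_not (win_le hm k) τ p.succ (by rw [hv]; omega),
          emb_of_not (win_le hm k) τ p.castSucc (by rw [hc]; omega)]
        exact hp
  have h2 : (Finset.univ.filter fun p : Fin N => p.val + 1 = k.val * (3 + 2)).card ≤ 1 := by
    rw [Finset.card_le_one]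
    intro a ha b hb
    rw [Finset.mem_filter] at ha hb
    exact Fin.ext (by omega)
  have h3 : (Finset.univ.filter fun p : Fin N => p.val = k.val * (3 + 2) + 3).card ≤ 1 := by
    rw [Finset.card_le_one]
    intro a ha b hb
    rw [Finset.mem_filter] at ha hb
    exact Fin.ext (by omega)
  refine (Finset.card_le_card h1).trans ((Finset.card_union_le _ _).trans ?_)
  have h4 := Finset.card_union_le (Finset.univ.filter fun p : Fin N => p.val + 1 = k.val * (3 + 2))
    (Finset.univ.filter fun p : Fin N => p.val = k.val * (3 + 2) + 3)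
  omega

/-- the sorted arrangement of a good window: the middle is up -/
theorem FlipE2_sorted {N m : ℕ} (hm : m * (3 + 2) ≤ N + 1) {Q : Rel (N + 1)}
    {lab : Fin (N + 1) → ℕ} (hn : Nat' Q lab) (k : Fin m) (π : Equiv.Perm (Fin (N + 1)))
    (hg : ¬ Bad (winRel (win_le hm k) Q π)) :
    ∃ τ0 : Equiv.Perm (Fin (3 + 1)),
      (∀ p : Fin N, k.val * (3 + 2) ≤ p.val → p.val < k.val * (3 + 2) + 3 →
        p ∉ DS lab (π * emb (win_le hm k) τ0)) ∧
      mid hm k ∈ upT Q lab {mid hm k} (π * emb (win_le hm k) τ0) := by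
  classical
  let e : Fin (3 + 1) → ℕ := fun i => lab (π (wpos (win_le hm k) i))
  have hw : ∀ i : Fin (3 + 1), (wpos (win_le hm k) i).val = k.val * (3 + 2) + i.val := fun i => rfl
  have hmono : Monotone (e ∘ Tuple.sort e) := Tuple.monotone_sort e
  set g := π * emb (win_le hm k) (Tuple.sort e) with hgdef
  have hval : ∀ i : Fin (3 + 1), lab (g (wpos (win_le hm k) i)) = e (Tuple.sort e i) := by
    intro i
    rw [hgdef, Equiv.Perm.mul_apply, emb_wpos]
  have hDS : ∀ p : Fin N, k.val * (3 + 2) ≤ p.val → p.val < k.val * (3 + 2) + 3 → p ∉ DS lab g := by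
    intro p h1 h2
    rw [mem_DS, not_lt]
    have hc : p.castSucc = wpos (win_le hm k) ⟨p.val - k.val * (3 + 2), by omega⟩ :=
      Fin.ext (by rw [hw]; simp only [Fin.val_castSucc]; omega)
    have hv : p.succ = wpos (win_le hm k) ⟨p.val - k.val * (3 + 2) + 1, by omega⟩ :=
      Fin.ext (by rw [hw]; simp only [Fin.val_succ]; omega)
    rw [hc, hv, hval, hval]
    apply hmono
    rw [Fin.le_def]
    simp
  refine ⟨Tuple.sort e, hDS, ?_⟩
  have hup : mid hm k ∈ Up Q lab g := by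
    rw [mem_Up]
    have hmv : (mid hm k).val = k.val * (3 + 2) + 1 := rfl
    refine ⟨?_, fun q hq => ?_⟩
    · have hc : (mid hm k).castSucc = wpos (win_le hm k) ⟨1, by norm_num⟩ :=
        Fin.ext (by rw [hw]; simp only [Fin.val_castSucc]; omega)
      have hv : (mid hm k).succ = wpos (win_le hm k) ⟨2, by norm_num⟩ :=
        Fin.ext (by rw [hw]; simp only [Fin.val_succ]; omega)
      rw [hc, hv, hgdef, Equiv.Perm.mul_apply, Equiv.Perm.mul_apply, emb_wpos, emb_wpos]
      exact fun h => hg ⟨_, _, h⟩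
    · apply hDS q
      · omega
      · omega
  rw [mem_upT]
  refine ⟨Finset.mem_singleton_self _, (mem_Up.1 hup).1, ?_⟩
  rw [← card_DS, ← card_DS, DS_sw hn hup, Finset.card_insert_of_notMem]
  exact (mem_Up.1 hup).2 _ (Or.inl rfl)

theorem FlipE2_tw_le_one {N : ℕ} (Q : Rel (N + 1)) (lab : Fin (N + 1) → ℕ) {c : ℝ} (hc1 : c ≤ 1)
    (p : Fin N) (g : Equiv.Perm (Fin (N + 1))) : tw Q lab c c p g ≤ 1 := by
  unfold tw
  split_ifs
  · exact hc1
  · exact hc1
  · exact le_refl _

/-- ONE WINDOW, the inner sum -/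
theorem FlipE2_inner {N m : ℕ} (hm : m * (3 + 2) ≤ N + 1) {Q : Rel (N + 1)}
    {lab : Fin (N + 1) → ℕ} (hn : Nat' Q lab) (k : Fin m) (r c : ℝ) (hr : 0 < r) (hr1 : r ≤ 1)
    (hc1 : c ≤ 1) (π : Equiv.Perm (Fin (N + 1))) (hπ : π ∈ LE Q)
    (hg : ¬ Bad (winRel (win_le hm k) Q π)) :
    ∑ τ ∈ LE (winRel (win_le hm k) Q π), r ^ des lab (π * emb (win_le hm k) τ) *
        tw Q lab c c (mid hm k) (π * emb (win_le hm k) τ) ≤
      (1 - (1 - c) * r ^ 2 / 24) *
        ∑ τ ∈ LE (winRel (win_le hm k) Q π), r ^ des lab (π * emb (win_le hm k) τ) := by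
  classical
  have hall : LE (winRel (win_le hm k) Q π) = Finset.univ := by
    ext τ
    rw [mem_LE]
    exact ⟨fun _ => Finset.mem_univ _, fun _ i j h => absurd ⟨_, _, h⟩ hg⟩
  rw [hall]
  obtain ⟨τ0, h1, h2⟩ := FlipE2_sorted hm hn k π hg
  have h3 : tw Q lab c c (mid hm k) (π * emb (win_le hm k) τ0) = c := by
    unfold tw
    rw [if_pos h2]
  have h4 : ∀ τ : Equiv.Perm (Fin (3 + 1)), r ^ 2 * r ^ des lab (π * emb (win_le hm k) τ) ≤
      r ^ des lab (π * emb (win_le hm k) τ0) := by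
    intro τ
    rw [← pow_add]
    apply pow_le_pow_of_le_one hr.le hr1
    have := FlipE2_des_le hm lab k π τ0 τ h1
    omega
  have h5 : r ^ 2 * ∑ τ : Equiv.Perm (Fin (3 + 1)), r ^ des lab (π * emb (win_le hm k) τ) ≤
      24 * r ^ des lab (π * emb (win_le hm k) τ0) := by
    rw [Finset.mul_sum]
    refine (Finset.sum_le_sum fun τ _ => h4 τ).trans ?_
    rw [Finset.sum_const, Finset.card_univ, Fintype.card_perm, Fintype.card_fin, nsmul_eq_mul]
    norm_num [Nat.factorial]
  have h6 : (1 - c) * r ^ des lab (π * emb (win_le hm k) τ0) ≤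
      ∑ τ : Equiv.Perm (Fin (3 + 1)), r ^ des lab (π * emb (win_le hm k) τ) *
        (1 - tw Q lab c c (mid hm k) (π * emb (win_le hm k) τ)) := by
    refine le_trans ?_ (Finset.single_le_sum (f := fun τ : Equiv.Perm (Fin (3 + 1)) =>
      r ^ des lab (π * emb (win_le hm k) τ) *
        (1 - tw Q lab c c (mid hm k) (π * emb (win_le hm k) τ))) (fun τ _ => ?_)
      (Finset.mem_univ τ0))
    · simp only [h3]
      rw [mul_comm]
    · exact mul_nonneg (pow_nonneg hr.le _) (sub_nonneg.2 (FlipE2_tw_le_one Q lab hc1 _ _))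
  have h7 : ∑ τ : Equiv.Perm (Fin (3 + 1)), r ^ des lab (π * emb (win_le hm k) τ) *
        (1 - tw Q lab c c (mid hm k) (π * emb (win_le hm k) τ)) =
      ∑ τ : Equiv.Perm (Fin (3 + 1)), r ^ des lab (π * emb (win_le hm k) τ) -
      ∑ τ : Equiv.Perm (Fin (3 + 1)), r ^ des lab (π * emb (win_le hm k) τ) *
        tw Q lab c c (mid hm k) (π * emb (win_le hm k) τ) := by
    rw [← Finset.sum_sub_distrib]
    exact Finset.sum_congr rfl fun τ _ => by ring
  rw [h7] at h6
  have h8 : 0 ≤ 1 - c := by linarith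
  have h9 := mul_le_mul_of_nonneg_left h5 h8
  nlinarith

/-- ONE WINDOW -/
theorem FlipE2_one_win {N m : ℕ} (hm : m * (3 + 2) ≤ N + 1) {Q : Rel (N + 1)}
    {lab : Fin (N + 1) → ℕ} (hn : Nat' Q lab) (k : Fin m) (r c : ℝ) (hr : 0 < r) (hr1 : r ≤ 1)
    (hc1 : c ≤ 1) (F : Equiv.Perm (Fin (N + 1)) → ℝ) (hF0 : ∀ g, 0 ≤ F g)
    (hF : ∀ π ∈ LE Q, ∀ g, π * emb (win_le hm k) g ∈ LE Q → F (π * emb (win_le hm k) g) = F π)
    (hb : ∀ π ∈ LE Q, Bad (winRel (win_le hm k) Q π) → F π = 0) :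
    ∑ g ∈ LE Q, r ^ des lab g * (tw Q lab c c (mid hm k) g * F g) ≤
      (1 - (1 - c) * r ^ 2 / 24) * ∑ g ∈ LE Q, r ^ des lab g * F g := by
  classical
  rw [avg (win_le hm k) fun g => r ^ des lab g * (tw Q lab c c (mid hm k) g * F g),
    avg (win_le hm k) fun g => r ^ des lab g * F g, Finset.mul_sum]
  refine Finset.sum_le_sum fun π hπ => ?_
  rw [smul_eq_mul, smul_eq_mul]
  have h1 : ∑ g ∈ LE (winRel (win_le hm k) Q π), r ^ des lab (π * emb (win_le hm k) g) *
      (tw Q lab c c (mid hm k) (π * emb (win_le hm k) g) * F (π * emb (win_le hm k) g)) =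
      (∑ g ∈ LE (winRel (win_le hm k) Q π), r ^ des lab (π * emb (win_le hm k) g) *
        tw Q lab c c (mid hm k) (π * emb (win_le hm k) g)) * F π := by
    rw [Finset.sum_mul]
    refine Finset.sum_congr rfl fun g hg => ?_
    rw [hF π hπ g ((mul_emb_mem (win_le hm k) π hπ g).2 hg)]
    ring
  have h2 : ∑ g ∈ LE (winRel (win_le hm k) Q π), r ^ des lab (π * emb (win_le hm k) g) *
      F (π * emb (win_le hm k) g) =
      (∑ g ∈ LE (winRel (win_le hm k) Q π), r ^ des lab (π * emb (win_le hm k) g)) * F π := by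
    rw [Finset.sum_mul]
    refine Finset.sum_congr rfl fun g hg => ?_
    rw [hF π hπ g ((mul_emb_mem (win_le hm k) π hπ g).2 hg)]
  rw [h1, h2]
  have hcard : 0 ≤ ((LE (winRel (win_le hm k) Q π)).card : ℝ)⁻¹ := by positivity
  by_cases hbad : Bad (winRel (win_le hm k) Q π)
  · rw [hb π hπ hbad]
    simp
  · have h3 := FlipE2_inner hm hn k r c hr hr1 hc1 π hπ hbad
    have h4 := mul_le_mul_of_nonneg_right h3 (hF0 π)
    have h5 := mul_le_mul_of_nonneg_left h4 hcard
    calc _ ≤ _ := h5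
      _ = _ := by ring

end Pool.SC25
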