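import Pool.Agent.SC25.FlipE1
import Pool.Agent.SC25.FlipE2A
import Pool.Agent.HB45.Win
import Pool.Agent.HB45.Avg

set_option autoImplicit false

/-!
# SC25/FlipE2: good windows contain a flip with positive probability (STUB)
-/

namespace Pool.SC25

open Pool.HB45 Pool.HM63 Pool.PH43

theorem sep_Tw {N m : ℕ} (hm : m * (3 + 2) ≤ N + 1) : Sep (Tw hm) := by
  intro p hp p' hp' hlt
  unfold Tw at hp hp'
  rw [Finset.mem_image] at hp hp'
  obtain ⟨k, _, rfl⟩ := hp
  obtain ⟨l, _, rfl⟩ := hp'
  simp only [mid] at hlt ⊢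
  have h1 : k.val < l.val := by
    by_contra h
    have : l.val * (3 + 2) ≤ k.val * (3 + 2) := Nat.mul_le_mul_right _ (by omega)
    omega
  have h2 : (k.val + 1) * (3 + 2) ≤ l.val * (3 + 2) := Nat.mul_le_mul_right _ h1
  omega

/-- ONE WINDOW. `F ≥ 0` invariant under the rearrangements of the window `k` (inside `LE Q`). For a good window (antichain) all
24 orders occur (`avg` with `f = 4`); at least one of them (the sorted one) has the middle up (`a < b < c < d`: no neighbour
between `b` and `c`), its weight `r^des` is `≥ r^2 *` the weight of any other order (the sorted order has at most 2 descents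
among the 5 neighbour pairs touching the window). So the sum of `r^des γ^[middle up or down]` over the 24 orders is at
most `(1 - (1 - γ) r²/24) *` the sum of `r^des`. -/
theorem one_win {N m : ℕ} (hm : m * (3 + 2) ≤ N + 1) {Q : Rel (N + 1)} {lab : Fin (N + 1) → ℕ}
    (hn : Nat' Q lab) (k : Fin m) (r c : ℝ) (hr : 0 < r) (hr1 : r ≤ 1) (hc : 0 ≤ c) (hc1 : c ≤ 1)
    (F : Equiv.Perm (Fin (N + 1)) → ℝ) (hF0 : ∀ g, 0 ≤ F g)
    (hF : ∀ π ∈ LE Q, ∀ g, π * emb (win_le hm k) g ∈ LE Q → F (π * emb (win_le hm k) g) = F π)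
    (hb : ∀ π ∈ LE Q, Bad (winRel (win_le hm k) Q π) → F π = 0) :
    ∑ g ∈ LE Q, r ^ des lab g * (tw Q lab c c (mid hm k) g * F g) ≤
      (1 - (1 - c) * r ^ 2 / 24) * ∑ g ∈ LE Q, r ^ des lab g * F g := by
  exact FlipE2_one_win hm hn k r c hr hr1 hc1 F hF0 hF hb

/-- the change of `des` by a swap depends only on four letters -/
theorem des_sw_congr {N : ℕ} (lab : Fin (N + 1) → ℕ) (g g' : Equiv.Perm (Fin (N + 1))) (p : Fin N)
    (h : ∀ q : Fin (N + 1), p.val ≤ q.val + 1 → q.val ≤ p.val + 2 → g q = g' q) :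
    des lab (sw g p) + des lab g' = des lab (sw g' p) + des lab g := by
  unfold des
  rw [Finset.card_filter, Finset.card_filter, Finset.card_filter, Finset.card_filter,
    ← Finset.sum_add_distrib, ← Finset.sum_add_distrib]
  refine Finset.sum_congr rfl fun i _ => ?_
  have hc : (i.castSucc : Fin (N + 1)).val = i.val := rfl
  have hs : (i.succ : Fin (N + 1)).val = i.val + 1 := rfl
  by_cases hi : p.val ≤ i.val + 1 ∧ i.val ≤ p.val + 1
  · have h1 : ∀ q : Fin (N + 1), p.val ≤ q.val + 1 → q.val ≤ p.val + 2 → sw g p q = sw g' p q := by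
      intro q hq1 hq2
      rw [sw, sw, Equiv.Perm.mul_apply, Equiv.Perm.mul_apply]
      apply h
      · rw [Equiv.swap_apply_def]
        split_ifs
        · simp; omega
        · simp
        · exact hq1
      · rw [Equiv.swap_apply_def]
        split_ifs
        · simp
        · simp
        · exact hq2
    rw [h1 i.succ (by omega) (by omega), h1 i.castSucc (by omega) (by omega),
      h i.succ (by omega) (by omega), h i.castSucc (by omega) (by omega)]
  · rw [sw_other (i := i.succ) g (by omega) (by omega),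
      sw_other (i := i.castSucc) g (by omega) (by omega),
      sw_other (i := i.succ) g' (by omega) (by omega),
      sw_other (i := i.castSucc) g' (by omega) (by omega)]
    exact Nat.add_comm _ _

theorem tw_congr {N : ℕ} (Q : Rel (N + 1)) (lab : Fin (N + 1) → ℕ) (x y : ℝ)
    (g g' : Equiv.Perm (Fin (N + 1))) (p : Fin N)
    (h : ∀ q : Fin (N + 1), p.val ≤ q.val + 1 → q.val ≤ p.val + 2 → g q = g' q) :
    tw Q lab x y p g = tw Q lab x y p g' := by
  have h1 := des_sw_congr lab g g' p h
  have h2 : g p.castSucc = g' p.castSucc := h _ (by simp) (by simp)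
  have h3 : g p.succ = g' p.succ := h _ (by simp; omega) (by simp)
  have e1 : (p ∈ upT Q lab {p} g) = (p ∈ upT Q lab {p} g') := by
    rw [mem_upT, mem_upT, h2, h3]
    apply propext
    constructor
    · rintro ⟨a, b, c⟩
      exact ⟨a, b, by omega⟩
    · rintro ⟨a, b, c⟩
      exact ⟨a, b, by omega⟩
  have e2 : (p ∈ dnT Q lab {p} g) = (p ∈ dnT Q lab {p} g') := by
    rw [mem_dnT, mem_dnT, h2, h3]
    apply propext
    constructor
    · rintro ⟨a, b, c⟩
      exact ⟨a, b, by omega⟩
    · rintro ⟨a, b, c⟩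
      exact ⟨a, b, by omega⟩
  unfold tw
  simp only [e1, e2]

theorem tw_emb {N m : ℕ} (hm : m * (3 + 2) ≤ N + 1) (Q : Rel (N + 1)) (lab : Fin (N + 1) → ℕ)
    (x y : ℝ) (k l : Fin m) (hkl : l ≠ k) (π : Equiv.Perm (Fin (N + 1)))
    (g : Equiv.Perm (Fin (3 + 1))) :
    tw Q lab x y (mid hm l) (π * emb (win_le hm k) g) = tw Q lab x y (mid hm l) π := by
  apply tw_congr
  intro q hq1 hq2
  rw [Equiv.Perm.mul_apply, emb_of_not]
  simp only [mid] at hq1 hq2
  intro h
  have hne : k.val ≠ l.val := fun h => hkl (Fin.ext h.symm)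
  rcases Nat.lt_or_gt_of_ne hne with h1 | h1
  · have h2 : (k.val + 1) * (3 + 2) ≤ l.val * (3 + 2) := Nat.mul_le_mul_right _ h1
    omega
  · have h2 : (l.val + 1) * (3 + 2) ≤ k.val * (3 + 2) := Nat.mul_le_mul_right _ h1
    omega

theorem tw_nonneg {N : ℕ} (Q : Rel (N + 1)) (lab : Fin (N + 1) → ℕ) {c : ℝ} (hc : 0 ≤ c)
    (p : Fin N) (g : Equiv.Perm (Fin (N + 1))) : 0 ≤ tw Q lab c c p g := by
  unfold tw
  split_ifs
  · exact hc
  · exact hc
  · exact zero_le_one

theorem tw_le_one {N : ℕ} (Q : Rel (N + 1)) (lab : Fin (N + 1) → ℕ) {c : ℝ} (hc : c ≤ 1)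
    (p : Fin N) (g : Equiv.Perm (Fin (N + 1))) : tw Q lab c c p g ≤ 1 := by
  unfold tw
  split_ifs
  · exact hc
  · exact hc
  · exact le_rfl

theorem mid_inj {N m : ℕ} (hm : m * (3 + 2) ≤ N + 1) : Function.Injective (mid hm) := by
  intro k l h
  have h1 : k.val * (3 + 2) + 1 = l.val * (3 + 2) + 1 := congrArg Fin.val h
  exact Fin.ext (by omega)

theorem pow_eq_prod_tw {N m : ℕ} (hm : m * (3 + 2) ≤ N + 1) (Q : Rel (N + 1))
    (lab : Fin (N + 1) → ℕ) (c : ℝ) (g : Equiv.Perm (Fin (N + 1))) :
    c ^ ((upT Q lab (Tw hm) g).card + (dnT Q lab (Tw hm) g).card) =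
      ∏ k : Fin m, tw Q lab c c (mid hm k) g := by
  classical
  have h1 : ∏ k : Fin m, tw Q lab c c (mid hm k) g = ∏ p ∈ Tw hm, tw Q lab c c p g := by
    unfold Tw
    rw [Finset.prod_image (fun x _ y _ h => mid_inj hm h)]
  have h2 : ∀ p ∈ Tw hm, tw Q lab c c p g =
      if p ∈ upT Q lab (Tw hm) g ∪ dnT Q lab (Tw hm) g then c else 1 := by
    intro p hp
    unfold tw
    have e1 : p ∈ upT Q lab {p} g ↔ p ∈ upT Q lab (Tw hm) g := by
      rw [mem_upT, mem_upT]; simp [hp]
    have e2 : p ∈ dnT Q lab {p} g ↔ p ∈ dnT Q lab (Tw hm) g := by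
      rw [mem_dnT, mem_dnT]; simp [hp]
    by_cases h1 : p ∈ upT Q lab (Tw hm) g
    · rw [if_pos (e1.2 h1), if_pos (Finset.mem_union_left _ h1)]
    · rw [if_neg (fun h => h1 (e1.1 h))]
      by_cases h2 : p ∈ dnT Q lab (Tw hm) g
      · rw [if_pos (e2.2 h2), if_pos (Finset.mem_union_right _ h2)]
      · rw [if_neg (fun h => h2 (e2.1 h)), if_neg (fun h => (Finset.mem_union.1 h).elim h1 h2)]
  rw [h1, Finset.prod_congr rfl h2, Finset.prod_ite, Finset.prod_const_one, mul_one,
    Finset.prod_const, ← Finset.card_union_of_disjoint]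
  · congr 2
    ext p
    rw [Finset.mem_filter]
    constructor
    · intro h
      refine ⟨?_, h⟩
      rcases Finset.mem_union.1 h with h | h
      · exact (mem_upT.1 h).1
      · exact (mem_dnT.1 h).1
    · intro h
      exact h.2
  · rw [Finset.disjoint_left]
    intro p h1 h2
    have h3 := (mem_upT.1 h1).2.2
    have h4 := (mem_dnT.1 h2).2.2
    omega

theorem bad_emb_self {N m : ℕ} (hm : m * (3 + 2) ≤ N + 1) (Q : Rel (N + 1)) (k : Fin m)
    (π : Equiv.Perm (Fin (N + 1))) (g : Equiv.Perm (Fin (3 + 1))) :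
    Bad (winRel (win_le hm k) Q (π * emb (win_le hm k) g)) ↔ Bad (winRel (win_le hm k) Q π) := by
  constructor
  · rintro ⟨i, j, h⟩
    rw [winRel_mul_emb] at h
    exact ⟨_, _, h⟩
  · rintro ⟨i, j, h⟩
    refine ⟨g.symm i, g.symm j, ?_⟩
    rw [winRel_mul_emb, Equiv.apply_symm_apply, Equiv.apply_symm_apply]
    exact h

theorem winRel_emb_ne {N m : ℕ} (hm : m * (3 + 2) ≤ N + 1) (Q : Rel (N + 1)) (k l : Fin m)
    (hkl : l ≠ k) (π : Equiv.Perm (Fin (N + 1))) (g : Equiv.Perm (Fin (3 + 1))) :
    winRel (win_le hm l) Q (π * emb (win_le hm k) g) = winRel (win_le hm l) Q π := by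
  apply winRel_mul_emb_of_disj
  have hne : k.val ≠ l.val := fun h => hkl (Fin.ext h.symm)
  rcases Nat.lt_or_gt_of_ne hne with h1 | h1
  · have h2 : (k.val + 1) * (3 + 2) ≤ l.val * (3 + 2) := Nat.mul_le_mul_right _ h1
    right
    omega
  · have h2 : (l.val + 1) * (3 + 2) ≤ k.val * (3 + 2) := Nat.mul_le_mul_right _ h1
    left
    omega

/-- ALL WINDOWS. PROOF. Induction over the windows already averaged (as `win_decomp`): for a set `K` of windows
`∑ r^des ∏_{k ∉ K} tw_k ∏_{k ∈ K} (η if good, 1 if bad)` increases with `K` (split the words into window `k` good / bad,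
`one_win` for the good ones with `F` = the product over the other windows, times the indicator 'good'). -/
theorem all_win {N m : ℕ} (hm : m * (3 + 2) ≤ N + 1) {Q : Rel (N + 1)} {lab : Fin (N + 1) → ℕ}
    (hn : Nat' Q lab) (r c : ℝ) (hr : 0 < r) (hr1 : r ≤ 1) (hc : 0 ≤ c) (hc1 : c ≤ 1) :
    ∑ g ∈ LE Q, r ^ des lab g *
        c ^ ((upT Q lab (Tw hm) g).card + (dnT Q lab (Tw hm) g).card) ≤
      ∑ g ∈ LE Q, r ^ des lab g * (1 - (1 - c) * r ^ 2 / 24) ^ (m - nbad hm Q g) := by
  classical
  set η : ℝ := 1 - (1 - c) * r ^ 2 / 24 with hη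
  have hη0 : 0 ≤ η := by
    have h1 : r ^ 2 ≤ 1 := pow_le_one₀ hr.le hr1
    have h2 : (1 - c) * r ^ 2 ≤ 1 * 1 :=
      mul_le_mul (by linarith) h1 (by positivity) zero_le_one
    rw [hη]
    linarith
  let bw : Fin m → Equiv.Perm (Fin (N + 1)) → ℝ := fun k g =>
    if Bad (winRel (win_le hm k) Q g) then 1 else η
  have hbw0 : ∀ k g, 0 ≤ bw k g := fun k g => by
    simp only [bw]; split_ifs
    · exact zero_le_one
    · exact hη0
  have key : ∀ K : Finset (Fin m),
      ∑ g ∈ LE Q, r ^ des lab g * ∏ k : Fin m, tw Q lab c c (mid hm k) g ≤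
        ∑ g ∈ LE Q, r ^ des lab g * ((∏ k ∈ K, bw k g) * ∏ k ∈ Kᶜ, tw Q lab c c (mid hm k) g) := by
    intro K
    induction K using Finset.induction_on with
    | empty => simp
    | insert k K hk ih =>
      refine ih.trans ?_
      have hKc : Kᶜ = insert k (insert k K)ᶜ := by
        ext l
        simp only [Finset.mem_compl, Finset.mem_insert, not_or]
        constructor
        · intro h
          by_cases hlk : l = k
          · exact Or.inl hlk
          · exact Or.inr ⟨hlk, h⟩
        · rintro (h | h)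
          · rw [h]; exact hk
          · exact h.2
      have hkn : k ∉ (insert k K)ᶜ := by simp
      rw [hKc]
      let G : Equiv.Perm (Fin (N + 1)) → ℝ := fun g =>
        (∏ l ∈ K, bw l g) * ∏ l ∈ (insert k K)ᶜ, tw Q lab c c (mid hm l) g
      have hG0 : ∀ g, 0 ≤ G g := fun g =>
        mul_nonneg (Finset.prod_nonneg fun l _ => hbw0 l g)
          (Finset.prod_nonneg fun l _ => tw_nonneg Q lab hc _ g)
      let F : Equiv.Perm (Fin (N + 1)) → ℝ := fun g =>
        if Bad (winRel (win_le hm k) Q g) then 0 else G g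
      have hF0 : ∀ g, 0 ≤ F g := fun g => by
        simp only [F]; split_ifs
        · exact le_rfl
        · exact hG0 g
      have hGemb : ∀ π g, G (π * emb (win_le hm k) g) = G π := by
        intro π g
        simp only [G]
        congr 1
        · refine Finset.prod_congr rfl fun l hl => ?_
          simp only [bw]
          rw [winRel_emb_ne hm Q k l (fun h => hk (h ▸ hl))]
        · refine Finset.prod_congr rfl fun l hl => ?_
          exact tw_emb hm Q lab c c k l (fun h => hkn (h ▸ hl)) π g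
      have hF : ∀ π ∈ LE Q, ∀ g, π * emb (win_le hm k) g ∈ LE Q →
          F (π * emb (win_le hm k) g) = F π := by
        intro π _ g _
        simp only [F]
        rw [hGemb]
        simp only [bad_emb_self hm Q k π g]
      have h1 := one_win hm hn k r c hr hr1 hc hc1 F hF0 hF
        (fun π _ hb => by simp only [F]; rw [if_pos hb])
      have h2 : ∀ g, (∏ k ∈ K, bw k g) * ∏ l ∈ insert k (insert k K)ᶜ, tw Q lab c c (mid hm l) g =
          tw Q lab c c (mid hm k) g * G g := by
        intro g
        rw [Finset.prod_insert hkn]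
        simp only [G]
        ring
      have h3 : ∀ g, (∏ k ∈ insert k K, bw k g) * ∏ l ∈ (insert k K)ᶜ, tw Q lab c c (mid hm l) g =
          bw k g * G g := by
        intro g
        rw [Finset.prod_insert hk]
        simp only [G]
        ring
      simp_rw [h2, h3]
      have h4 : ∀ g, G g = F g + (if Bad (winRel (win_le hm k) Q g) then G g else 0) := by
        intro g
        simp only [F]
        split_ifs <;> simp
      calc ∑ g ∈ LE Q, r ^ des lab g * (tw Q lab c c (mid hm k) g * G g)
          = ∑ g ∈ LE Q, r ^ des lab g * (tw Q lab c c (mid hm k) g * F g) +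
            ∑ g ∈ LE Q, r ^ des lab g * (tw Q lab c c (mid hm k) g *
              (if Bad (winRel (win_le hm k) Q g) then G g else 0)) := by
            rw [← Finset.sum_add_distrib]
            refine Finset.sum_congr rfl fun g _ => ?_
            conv_lhs => rw [h4 g]
            ring
        _ ≤ η * ∑ g ∈ LE Q, r ^ des lab g * F g +
            ∑ g ∈ LE Q, r ^ des lab g * (1 *
              (if Bad (winRel (win_le hm k) Q g) then G g else 0)) := by
            refine add_le_add h1 (Finset.sum_le_sum fun g _ => ?_)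
            refine mul_le_mul_of_nonneg_left (mul_le_mul_of_nonneg_right (tw_le_one Q lab hc1 _ g) ?_)
              (pow_nonneg hr.le _)
            split_ifs
            · exact hG0 g
            · exact le_rfl
        _ = ∑ g ∈ LE Q, r ^ des lab g * (bw k g * G g) := by
            rw [Finset.mul_sum, ← Finset.sum_add_distrib]
            refine Finset.sum_congr rfl fun g _ => ?_
            simp only [F, bw]
            split_ifs <;> ring
  have h1 := key Finset.univ
  refine le_trans (le_of_eq ?_) (h1.trans (le_of_eq ?_))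
  · refine Finset.sum_congr rfl fun g _ => ?_
    rw [pow_eq_prod_tw]
  · refine Finset.sum_congr rfl fun g _ => ?_
    congr 1
    rw [Finset.compl_univ, Finset.prod_empty, mul_one]
    simp only [bw]
    rw [Finset.prod_ite, Finset.prod_const_one, one_mul, Finset.prod_const]
    congr 1
    unfold nbad
    have h2 := Finset.card_filter_add_card_filter_not (s := (Finset.univ : Finset (Fin m)))
      (fun k : Fin m => Bad (winRel (win_le hm k) Q g))
    rw [Finset.card_univ, Fintype.card_fin] at h2
    omega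

end Pool.SC25
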