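import Pool.Agent.SC25.Fund

set_option autoImplicit false

/-!
# SC25/Om: bounds for the number of order-preserving maps
-/

namespace Pool.SC25

open Pool.HB45 Pool.HM63 Pool.PH43

theorem om_des_le {N : ℕ} (lab : Fin (N + 1) → ℕ) (g : Equiv.Perm (Fin (N + 1))) :
    des lab g ≤ N := by
  unfold des
  refine (Finset.card_filter_le _ _).trans ?_
  rw [Finset.card_univ, Fintype.card_fin]

theorem om_card {N : ℕ} {Q : Rel (N + 1)} {lab : Fin (N + 1) → ℕ} (hn : Nat' Q lab) (M : ℕ) :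
    (Mp Q M).card = ∑ g ∈ LE Q, Nat.choose (M + N - des lab g) (N + 1) := by
  classical
  have h := fund hn (fun _ => True) M
  simpa using h

/-- from `fund` and `des ≤ N` -/
theorem om_ge {N : ℕ} {Q : Rel (N + 1)} {lab : Fin (N + 1) → ℕ} (hn : Nat' Q lab) (M : ℕ) :
    (LE Q).card * Nat.choose M (N + 1) ≤ (Mp Q M).card := by
  rw [om_card hn M, ← smul_eq_mul, ← Finset.sum_const]
  refine Finset.sum_le_sum fun g _ => Nat.choose_le_choose _ ?_
  have := om_des_le lab g
  omega

/-- from `fund` -/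
theorem om_le {N : ℕ} {Q : Rel (N + 1)} {lab : Fin (N + 1) → ℕ} (hn : Nat' Q lab) (M : ℕ) :
    (Mp Q M).card ≤ (LE Q).card * Nat.choose (M + N) (N + 1) := by
  rw [om_card hn M, ← smul_eq_mul, ← Finset.sum_const]
  exact Finset.sum_le_sum fun g _ => Nat.choose_le_choose _ (Nat.sub_le _ _)

/-- `f ↦ f / k` has at most `k^n` preimages -/
theorem om_mul {n : ℕ} (Q : Rel n) (k m : ℕ) : (Mp Q (k * m)).card ≤ k ^ n * (Mp Q m).card := by
  classical
  have hk : ∀ x : Fin (k * m), 0 < k := fun x => by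
    have h2 : 0 < k * m := lt_of_le_of_lt (Nat.zero_le _) x.isLt
    refine Nat.pos_of_ne_zero fun h => ?_
    rw [h, zero_mul] at h2
    exact lt_irrefl _ h2
  have hcard : k ^ n * (Mp Q m).card =
      ((Finset.univ : Finset (Fin n → Fin k)) ×ˢ Mp Q m).card := by
    rw [Finset.card_product, Finset.card_univ, Fintype.card_fun, Fintype.card_fin, Fintype.card_fin]
  rw [hcard]
  refine Finset.card_le_card_of_injOn
    (fun f => (fun i => ⟨(f i).val % k, Nat.mod_lt _ (hk (f i))⟩,
      fun i => ⟨(f i).val / k, Nat.div_lt_of_lt_mul (f i).isLt⟩)) ?_ ?_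
  · intro f hf
    rw [Finset.mem_coe, mem_Mp] at hf
    rw [Finset.mem_coe, Finset.mem_product]
    refine ⟨Finset.mem_univ _, mem_Mp.2 fun a b hab => ?_⟩
    exact Nat.div_le_div_right (hf a b hab)
  · intro f _ f' _ hff
    funext i
    have h1 : (f i).val % k = (f' i).val % k :=
      congrArg (fun p : (Fin n → Fin k) × (Fin n → Fin m) => (p.1 i).val) hff
    have h2 : (f i).val / k = (f' i).val / k :=
      congrArg (fun p : (Fin n → Fin k) × (Fin n → Fin m) => (p.2 i).val) hff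
    apply Fin.ext
    rw [← Nat.div_add_mod (f i).val k, ← Nat.div_add_mod (f' i).val k, h1, h2]

theorem om_aux {k m a b : ℕ} (ha : a < m) (hb : b < k) : k * a + b < k * m := by
  have h1 : k * (a + 1) ≤ k * m := Nat.mul_le_mul_left k ha
  rw [mul_add, mul_one] at h1
  omega

/-- `(f, ρ) ↦ k f + ρ` is injective from strict maps and all `ρ : Fin n → Fin k` -/
theorem ms_mul {n : ℕ} (Q : Rel n) (k m : ℕ) : k ^ n * (Ms Q m).card ≤ (Mp Q (k * m)).card := by
  classical
  have hcard : k ^ n * (Ms Q m).card =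
      ((Finset.univ : Finset (Fin n → Fin k)) ×ˢ Ms Q m).card := by
    rw [Finset.card_product, Finset.card_univ, Fintype.card_fun, Fintype.card_fin, Fintype.card_fin]
  rw [hcard]
  refine Finset.card_le_card_of_injOn
    (fun p i => ⟨k * (p.2 i).val + (p.1 i).val, om_aux (p.2 i).isLt (p.1 i).isLt⟩) ?_ ?_
  · intro p hp
    rw [Finset.mem_coe, Finset.mem_product] at hp
    have hp2 := mem_Ms.1 hp.2
    rw [Finset.mem_coe, mem_Mp]
    intro a b hab
    have h1 : (p.2 a).val < (p.2 b).val := hp2 a b hab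
    have h2 := (p.1 a).isLt
    have h3 : k * ((p.2 a).val + 1) ≤ k * (p.2 b).val := Nat.mul_le_mul_left k h1
    rw [mul_add, mul_one] at h3
    change k * (p.2 a).val + (p.1 a).val ≤ k * (p.2 b).val + (p.1 b).val
    omega
  · intro p _ p' _ hpp
    have key : ∀ i, (p.2 i).val = (p'.2 i).val ∧ (p.1 i).val = (p'.1 i).val := by
      intro i
      have h1 : k * (p.2 i).val + (p.1 i).val = k * (p'.2 i).val + (p'.1 i).val :=
        congrArg (fun f : Fin n → Fin (k * m) => (f i).val) hpp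
      have hk : 0 < k := lt_of_le_of_lt (Nat.zero_le _) (p.1 i).isLt
      have h2 : (p.2 i).val = (p'.2 i).val := by
        have h3 : (k * (p.2 i).val + (p.1 i).val) / k = (k * (p'.2 i).val + (p'.1 i).val) / k :=
          congrArg (fun x => x / k) h1
        rwa [Nat.mul_add_div hk, Nat.mul_add_div hk, Nat.div_eq_of_lt (p.1 i).isLt,
          Nat.div_eq_of_lt (p'.1 i).isLt, add_zero, add_zero] at h3
      refine ⟨h2, ?_⟩
      rw [h2] at h1
      omega
    refine Prod.ext ?_ ?_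
    · funext i
      exact Fin.ext (key i).2
    · funext i
      exact Fin.ext (key i).1

/-- `f ↦ f + κ` -/
theorem mp_le_ms {n h : ℕ} {Q : Rel n} {κ : Fin n → ℕ} (hκ : Lev h Q κ) (m : ℕ) :
    (Mp Q m).card ≤ (Ms Q (m + h)).card := by
  classical
  refine Finset.card_le_card_of_injOn
    (fun f i => ⟨(f i).val + κ i, Nat.add_lt_add (f i).isLt (hκ.lt i)⟩) ?_ ?_
  · intro f hf
    rw [Finset.mem_coe, mem_Mp] at hf
    rw [Finset.mem_coe, mem_Ms]
    intro a b hab
    exact Nat.add_lt_add_of_le_of_lt (hf a b hab) (hκ.mono a b hab)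
  · intro f _ f' _ hff
    funext i
    have h1 : (f i).val + κ i = (f' i).val + κ i :=
      congrArg (fun f : Fin n → Fin (m + h) => (f i).val) hff
    exact Fin.ext (by omega)

open Filter Topology in
/-- LOWER BOUND. -/
theorem om_lower {N : ℕ} {Q : Rel (N + 1)} {lab : Fin (N + 1) → ℕ} (hn : Nat' Q lab) (m : ℕ) :
    (LE Q).card * m ^ (N + 1) ≤ (N + 1).factorial * (Mp Q m).card := by
  rcases Nat.eq_zero_or_pos m with rfl | hm
  · simp
  have key : ∀ k : ℕ, (LE Q).card * (k * m - N) ^ (N + 1) ≤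
      (N + 1).factorial * (Mp Q m).card * k ^ (N + 1) := by
    intro k
    have h1 : (k * m - N) ^ (N + 1) ≤ (N + 1).factorial * Nat.choose (k * m) (N + 1) := by
      rw [← Nat.descFactorial_eq_factorial_mul_choose]
      have h2 := Nat.pow_sub_le_descFactorial (k * m) (N + 1)
      have h3 : k * m + 1 - (N + 1) = k * m - N := by omega
      rwa [h3] at h2
    calc (LE Q).card * (k * m - N) ^ (N + 1)
        ≤ (LE Q).card * ((N + 1).factorial * Nat.choose (k * m) (N + 1)) :=
          Nat.mul_le_mul_left _ h1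
      _ = (N + 1).factorial * ((LE Q).card * Nat.choose (k * m) (N + 1)) := by ring
      _ ≤ (N + 1).factorial * (k ^ (N + 1) * (Mp Q m).card) :=
          Nat.mul_le_mul_left _ ((om_ge hn (k * m)).trans (om_mul Q k m))
      _ = (N + 1).factorial * (Mp Q m).card * k ^ (N + 1) := by ring
  have hlim : Tendsto (fun k : ℕ => ((LE Q).card : ℝ) * ((m : ℝ) - (N : ℝ) / (k : ℝ)) ^ (N + 1))
      atTop (𝓝 (((LE Q).card : ℝ) * ((m : ℝ) - 0) ^ (N + 1))) :=
    ((tendsto_const_nhds.sub (tendsto_const_div_atTop_nhds_zero_nat (N : ℝ))).pow _).const_mul _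
  rw [sub_zero] at hlim
  have hev : ∀ᶠ k : ℕ in atTop, ((LE Q).card : ℝ) * ((m : ℝ) - (N : ℝ) / (k : ℝ)) ^ (N + 1) ≤
      ((N + 1).factorial : ℝ) * ((Mp Q m).card : ℝ) := by
    filter_upwards [eventually_ge_atTop (N + 1)] with k hk
    have hk0 : (0 : ℝ) < (k : ℝ) := by
      have : 0 < k := by omega
      exact_mod_cast this
    have hle : N ≤ k * m := by
      have : k * 1 ≤ k * m := Nat.mul_le_mul_left k hm
      omega
    have h1 : (((LE Q).card * (k * m - N) ^ (N + 1) : ℕ) : ℝ) ≤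
        (((N + 1).factorial * (Mp Q m).card * k ^ (N + 1) : ℕ) : ℝ) := by
      exact_mod_cast key k
    push_cast [Nat.cast_sub hle] at h1
    have h2 : (k : ℝ) * (m : ℝ) - (N : ℝ) = ((m : ℝ) - (N : ℝ) / (k : ℝ)) * (k : ℝ) := by
      field_simp
    rw [h2, mul_pow, ← mul_assoc] at h1
    exact le_of_mul_le_mul_right h1 (pow_pos hk0 _)
  have hfin := le_of_tendsto hlim hev
  exact_mod_cast hfin

open Filter Topology in
/-- UPPER BOUND. -/
theorem om_upper {N h : ℕ} {Q : Rel (N + 1)} {κ lab : Fin (N + 1) → ℕ} (hκ : Lev h Q κ)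
    (hn : Nat' Q lab) (m : ℕ) :
    (N + 1).factorial * (Mp Q m).card ≤ (LE Q).card * (m + h) ^ (N + 1) := by
  have key : ∀ k : ℕ, (N + 1).factorial * (Mp Q m).card * k ^ (N + 1) ≤
      (LE Q).card * (k * (m + h) + N) ^ (N + 1) := by
    intro k
    have h1 : (N + 1).factorial * Nat.choose (k * (m + h) + N) (N + 1) ≤
        (k * (m + h) + N) ^ (N + 1) := by
      rw [← Nat.descFactorial_eq_factorial_mul_choose]
      exact Nat.descFactorial_le_pow _ _
    calc (N + 1).factorial * (Mp Q m).card * k ^ (N + 1)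
        = (N + 1).factorial * (k ^ (N + 1) * (Mp Q m).card) := by ring
      _ ≤ (N + 1).factorial * (k ^ (N + 1) * (Ms Q (m + h)).card) :=
          Nat.mul_le_mul_left _ (Nat.mul_le_mul_left _ (mp_le_ms hκ m))
      _ ≤ (N + 1).factorial * (Mp Q (k * (m + h))).card :=
          Nat.mul_le_mul_left _ (ms_mul Q k (m + h))
      _ ≤ (N + 1).factorial * ((LE Q).card * Nat.choose (k * (m + h) + N) (N + 1)) :=
          Nat.mul_le_mul_left _ (om_le hn _)
      _ = (LE Q).card * ((N + 1).factorial * Nat.choose (k * (m + h) + N) (N + 1)) := by ring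
      _ ≤ (LE Q).card * (k * (m + h) + N) ^ (N + 1) := Nat.mul_le_mul_left _ h1
  have hlim : Tendsto
      (fun k : ℕ => ((LE Q).card : ℝ) * (((m : ℝ) + (h : ℝ)) + (N : ℝ) / (k : ℝ)) ^ (N + 1))
      atTop (𝓝 (((LE Q).card : ℝ) * (((m : ℝ) + (h : ℝ)) + 0) ^ (N + 1))) :=
    ((tendsto_const_nhds.add (tendsto_const_div_atTop_nhds_zero_nat (N : ℝ))).pow _).const_mul _
  rw [add_zero] at hlim
  have hev : ∀ᶠ k : ℕ in atTop, ((N + 1).factorial : ℝ) * ((Mp Q m).card : ℝ) ≤
      ((LE Q).card : ℝ) * (((m : ℝ) + (h : ℝ)) + (N : ℝ) / (k : ℝ)) ^ (N + 1) := by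
    filter_upwards [eventually_ge_atTop 1] with k hk
    have hk0 : (0 : ℝ) < (k : ℝ) := by exact_mod_cast hk
    have h1 : (((N + 1).factorial * (Mp Q m).card * k ^ (N + 1) : ℕ) : ℝ) ≤
        (((LE Q).card * (k * (m + h) + N) ^ (N + 1) : ℕ) : ℝ) := by
      exact_mod_cast key k
    push_cast at h1
    have h2 : (k : ℝ) * ((m : ℝ) + (h : ℝ)) + (N : ℝ) =
        (((m : ℝ) + (h : ℝ)) + (N : ℝ) / (k : ℝ)) * (k : ℝ) := by
      field_simp
    rw [h2, mul_pow, ← mul_assoc] at h1
    exact le_of_mul_le_mul_right h1 (pow_pos hk0 _)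
  have hfin := ge_of_tendsto hlim hev
  exact_mod_cast hfin

end Pool.SC25
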