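import Pool.Agent.PH43.Small
import Pool.Agent.HM63.Bad
import Pool.Agent.HB45.Defs2

set_option autoImplicit false

/-!
# SC25/Defs: definitions for the short chains theorem (MP_dcdbc5_co)

THEOREM. There is `c > 0` such that every poset with `n ≥ 3` elements without a chain of more than
`c * sqrt (n / log n)` elements has a unimodal descent sequence for every natural labelling.

`n = N + 1` letters, `e = (LE Q).card`, `r = exp (-σ)`, `σ > 0`.
-/

open Polynomial

namespace Pool.SC25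

open Pool.HB45 Pool.HM63 Pool.PH43

/-- order-preserving maps `P → {0, …, M - 1}` -/
noncomputable def Mp {n : ℕ} (Q : Rel n) (M : ℕ) : Finset (Fin n → Fin M) := by
  classical
  exact Finset.univ.filter fun f => ∀ a b, Q a b → f a ≤ f b

theorem mem_Mp {n M : ℕ} {Q : Rel n} {f : Fin n → Fin M} :
    f ∈ Mp Q M ↔ ∀ a b, Q a b → f a ≤ f b := by
  classical
  simp [Mp]

/-- strictly order-preserving maps -/
noncomputable def Ms {n : ℕ} (Q : Rel n) (M : ℕ) : Finset (Fin n → Fin M) := by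
  classical
  exact Finset.univ.filter fun f => ∀ a b, Q a b → f a < f b

theorem mem_Ms {n M : ℕ} {Q : Rel n} {f : Fin n → Fin M} :
    f ∈ Ms Q M ↔ ∀ a b, Q a b → f a < f b := by
  classical
  simp [Ms]

/-- the word of a map: the letters sorted by value, ties by label -/
def wd {n : ℕ} (lab : Fin n → ℕ) (f : Fin n → ℕ) : Equiv.Perm (Fin n) :=
  Tuple.sort fun i => toLex (f i, lab i)

/-- `P` is a matching of comparable pairs inside the fibres of `F` -/
structure IsMt {n : ℕ} (Q : Rel n) (F : Fin n → ℕ) (P : Finset (Fin n × Fin n)) : Prop where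
  rel : ∀ p ∈ P, Q p.1 p.2 ∧ F p.1 = F p.2
  disj : ∀ p ∈ P, ∀ p' ∈ P, p ≠ p' → p.1 ≠ p'.1 ∧ p.1 ≠ p'.2 ∧ p.2 ≠ p'.1 ∧ p.2 ≠ p'.2

theorem exists_Mt {n : ℕ} (Q : Rel n) (F : Fin n → ℕ) :
    ∃ P : Finset (Fin n × Fin n), IsMt Q F P ∧ ∀ P', IsMt Q F P' → P'.card ≤ P.card := by
  classical
  have hne : (Finset.univ.filter fun P : Finset (Fin n × Fin n) => IsMt Q F P).Nonempty :=
    ⟨∅, by
      rw [Finset.mem_filter]
      exact ⟨Finset.mem_univ _, ⟨fun p hp => absurd hp (Finset.notMem_empty _),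
        fun p hp => absurd hp (Finset.notMem_empty _)⟩⟩⟩
  obtain ⟨P, hP, hmax⟩ := Finset.exists_max_image _ Finset.card hne
  rw [Finset.mem_filter] at hP
  exact ⟨P, hP.2, fun P' hP' => hmax P' (by rw [Finset.mem_filter]; exact ⟨Finset.mem_univ _, hP'⟩)⟩

/-- a maximum matching of comparable pairs inside the fibres of `F` -/
noncomputable def Mt {n : ℕ} (Q : Rel n) (F : Fin n → ℕ) : Finset (Fin n × Fin n) :=
  Classical.choose (exists_Mt Q F)

theorem isMt {n : ℕ} (Q : Rel n) (F : Fin n → ℕ) : IsMt Q F (Mt Q F) :=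
  (Classical.choose_spec (exists_Mt Q F)).1

/-- every comparable pair inside a fibre meets the matching -/
theorem Mt_max {n : ℕ} (Q : Rel n) (F : Fin n → ℕ) (a b : Fin n) (hab : Q a b)
    (hF : F a = F b) : ∃ p ∈ Mt Q F, a = p.1 ∨ a = p.2 ∨ b = p.1 ∨ b = p.2 := by
  classical
  by_contra hcon
  push Not at hcon
  have h1 : (a, b) ∉ Mt Q F := fun h => (hcon _ h).1 rfl
  have h2 : IsMt Q F (insert (a, b) (Mt Q F)) := by
    refine ⟨fun p hp => ?_, fun p hp p' hp' hne => ?_⟩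
    · rw [Finset.mem_insert] at hp
      rcases hp with rfl | hp
      · exact ⟨hab, hF⟩
      · exact (isMt Q F).rel p hp
    · rw [Finset.mem_insert] at hp hp'
      rcases hp with rfl | hp
      · rcases hp' with rfl | hp'
        · exact absurd rfl hne
        · obtain ⟨h3, h4, h5, h6⟩ := hcon _ hp'
          exact ⟨h3, h4, h5, h6⟩
      · rcases hp' with rfl | hp'
        · obtain ⟨h3, h4, h5, h6⟩ := hcon _ hp
          exact ⟨h3.symm, h5.symm, h4.symm, h6.symm⟩
        · exact (isMt Q F).disj p hp p' hp' hne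
  have h3 := (Classical.choose_spec (exists_Mt Q F)).2 _ h2
  change (insert (a, b) (Mt Q F)).card ≤ (Mt Q F).card at h3
  rw [Finset.card_insert_of_notMem h1] at h3
  omega

/-- swap positions of `T` whose swap adds a descent -/
noncomputable def upT {N : ℕ} (Q : Rel (N + 1)) (lab : Fin (N + 1) → ℕ) (T : Finset (Fin N))
    (g : Equiv.Perm (Fin (N + 1))) : Finset (Fin N) := by
  classical
  exact T.filter fun p => ¬ Q (g p.castSucc) (g p.succ) ∧ des lab (sw g p) = des lab g + 1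

/-- swap positions of `T` whose swap removes a descent -/
noncomputable def dnT {N : ℕ} (Q : Rel (N + 1)) (lab : Fin (N + 1) → ℕ) (T : Finset (Fin N))
    (g : Equiv.Perm (Fin (N + 1))) : Finset (Fin N) := by
  classical
  exact T.filter fun p => ¬ Q (g p.castSucc) (g p.succ) ∧ des lab (sw g p) + 1 = des lab g

theorem mem_upT {N : ℕ} {Q : Rel (N + 1)} {lab : Fin (N + 1) → ℕ} {T : Finset (Fin N)}
    {g : Equiv.Perm (Fin (N + 1))} {p : Fin N} : p ∈ upT Q lab T g ↔
      p ∈ T ∧ ¬ Q (g p.castSucc) (g p.succ) ∧ des lab (sw g p) = des lab g + 1 := by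
  classical
  simp [upT]

theorem mem_dnT {N : ℕ} {Q : Rel (N + 1)} {lab : Fin (N + 1) → ℕ} {T : Finset (Fin N)}
    {g : Equiv.Perm (Fin (N + 1))} {p : Fin N} : p ∈ dnT Q lab T g ↔
      p ∈ T ∧ ¬ Q (g p.castSucc) (g p.succ) ∧ des lab (sw g p) + 1 = des lab g := by
  classical
  simp [dnT]

/-- swap positions far from each other -/
def Sep {N : ℕ} (T : Finset (Fin N)) : Prop :=
  ∀ p ∈ T, ∀ p' ∈ T, p.val < p'.val → p.val + 3 ≤ p'.val

theorem mid_lt {N m : ℕ} (hm : m * (3 + 2) ≤ N + 1) (k : Fin m) : k.val * (3 + 2) + 1 < N := by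
  have h1 : (k.val + 1) * (3 + 2) ≤ m * (3 + 2) := Nat.mul_le_mul_right _ k.isLt
  omega

/-- the middle of window `k` (positions `5k, …, 5k + 3`): swap of positions `5k + 1`, `5k + 2` -/
def mid {N m : ℕ} (hm : m * (3 + 2) ≤ N + 1) (k : Fin m) : Fin N :=
  ⟨k.val * (3 + 2) + 1, mid_lt hm k⟩

/-- all the middles -/
def Tw {N m : ℕ} (hm : m * (3 + 2) ≤ N + 1) : Finset (Fin N) := Finset.univ.image (mid hm)

/-- `ψ(σ) = ∫_0^1 e^(-σx) dx` -/
noncomputable def ps (σ : ℝ) : ℝ := (1 - Real.exp (-σ)) / σ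

/-- mean of the density `e^(-σx)/ψ(σ)` on `[0, 1]` -/
noncomputable def mn (σ : ℝ) : ℝ := 1 / σ - 1 / (Real.exp σ - 1)

/-- scale -/
noncomputable def sc (σ : ℝ) : ℝ := max 1 σ

theorem one_le_sc (σ : ℝ) : 1 ≤ sc σ := le_max_left _ _

theorem le_sc (σ : ℝ) : σ ≤ sc σ := le_max_right _ _

end Pool.SC25
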