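import Pool.Agent.SC25.Flip

set_option autoImplicit false

/-!
# SC25/FlipE1: independent flips
-/

namespace Pool.SC25

open Pool.HB45 Pool.HM63 Pool.PH43

/-- weight of a swap position: `x` if up, `y` if down, `1` otherwise -/
noncomputable def tw {N : ℕ} (Q : Rel (N + 1)) (lab : Fin (N + 1) → ℕ) (x y : ℝ) (p : Fin N)
    (g : Equiv.Perm (Fin (N + 1))) : ℝ := by
  classical
  exact if p ∈ upT Q lab {p} g then x else if p ∈ dnT Q lab {p} g then y else 1

private theorem not_Q_rev {N : ℕ} {Q : Rel (N + 1)} {p : Fin N} {g : Equiv.Perm (Fin (N + 1))}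
    (hg : g ∈ LE Q) : ¬ Q (g p.succ) (g p.castSucc) := by
  intro h
  have h1 := mem_LE.1 hg _ _ h
  have h2 : p.succ.val < p.castSucc.val := h1
  have hc : p.castSucc.val = p.val := rfl
  have hs : p.succ.val = p.val + 1 := rfl
  omega

private theorem up_swap {N : ℕ} {Q : Rel (N + 1)} {lab : Fin (N + 1) → ℕ} {p : Fin N}
    {g : Equiv.Perm (Fin (N + 1))} (hg : g ∈ LE Q) (hQ : ¬ Q (g p.castSucc) (g p.succ)) :
    p ∈ upT Q lab {p} (sw g p) ↔ p ∈ dnT Q lab {p} g := by
  rw [mem_upT, mem_dnT, sw_left, sw_right, sw_sw]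
  constructor
  · rintro ⟨h1, _, h3⟩
    exact ⟨h1, hQ, h3.symm⟩
  · rintro ⟨h1, _, h3⟩
    exact ⟨h1, not_Q_rev hg, h3.symm⟩

private theorem dn_swap {N : ℕ} {Q : Rel (N + 1)} {lab : Fin (N + 1) → ℕ} {p : Fin N}
    {g : Equiv.Perm (Fin (N + 1))} (hg : g ∈ LE Q) (hQ : ¬ Q (g p.castSucc) (g p.succ)) :
    p ∈ dnT Q lab {p} (sw g p) ↔ p ∈ upT Q lab {p} g := by
  rw [mem_upT, mem_dnT, sw_left, sw_right, sw_sw]
  constructor
  · rintro ⟨h1, _, h3⟩
    exact ⟨h1, hQ, h3.symm⟩
  · rintro ⟨h1, _, h3⟩
    exact ⟨h1, not_Q_rev hg, h3.symm⟩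

private theorem not_up_and_dn {N : ℕ} {Q : Rel (N + 1)} {lab : Fin (N + 1) → ℕ}
    {T T' : Finset (Fin N)} {p : Fin N} {g : Equiv.Perm (Fin (N + 1))} (h : p ∈ upT Q lab T g) :
    p ∉ dnT Q lab T' g := by
  intro h'
  rw [mem_upT] at h
  rw [mem_dnT] at h'
  omega

private theorem up_single {N : ℕ} {Q : Rel (N + 1)} {lab : Fin (N + 1) → ℕ} {T : Finset (Fin N)}
    {p : Fin N} (hp : p ∈ T) {g : Equiv.Perm (Fin (N + 1))} :
    p ∈ upT Q lab {p} g ↔ p ∈ upT Q lab T g := by
  rw [mem_upT, mem_upT]
  simp [hp]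

private theorem dn_single {N : ℕ} {Q : Rel (N + 1)} {lab : Fin (N + 1) → ℕ} {T : Finset (Fin N)}
    {p : Fin N} (hp : p ∈ T) {g : Equiv.Perm (Fin (N + 1))} :
    p ∈ dnT Q lab {p} g ↔ p ∈ dnT Q lab T g := by
  rw [mem_dnT, mem_dnT]
  simp [hp]

/-- ONE POSITION. `F` any function with `F (sw g p) = F g` on `LE Q`: the words with `p` up and down are exchanged by `sw · p`
and `r^des` is multiplied by `r`. -/
theorem one_pos {N : ℕ} {Q : Rel (N + 1)} {lab : Fin (N + 1) → ℕ} (p : Fin N) (r x y : ℝ)
    (hr : 0 < r) (F : Equiv.Perm (Fin (N + 1)) → ℝ)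
    (hF : ∀ g ∈ LE Q, ¬ Q (g p.castSucc) (g p.succ) → F (sw g p) = F g) :
    ∑ g ∈ LE Q, r ^ des lab g * (tw Q lab x y p g * F g) =
      ∑ g ∈ LE Q, r ^ des lab g *
        (tw Q lab ((x + r * y) / (1 + r)) ((x + r * y) / (1 + r)) p g * F g) := by
  classical
  set z : ℝ := (x + r * y) / (1 + r) with hz
  have hz' : z * (1 + r) = x + r * y := by
    rw [hz]; field_simp
  rw [← sub_eq_zero, ← Finset.sum_sub_distrib]
  refine Finset.sum_involution
    (fun g _ => if Q (g p.castSucc) (g p.succ) then g else sw g p) ?_ ?_ ?_ ?_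
  · intro g hg
    by_cases hQ : Q (g p.castSucc) (g p.succ)
    · have hu : p ∉ upT Q lab {p} g := fun h => (mem_upT.1 h).2.1 hQ
      have hd : p ∉ dnT Q lab {p} g := fun h => (mem_dnT.1 h).2.1 hQ
      simp only [hQ, if_true]
      simp only [tw, hu, hd, if_false]
      ring
    · simp only [hQ, if_false]
      have hFg := hF g hg hQ
      have h1 := up_swap (lab := lab) hg hQ
      have h2 := dn_swap (lab := lab) hg hQ
      rw [hFg]
      by_cases hu : p ∈ upT Q lab {p} g
      · have hd : p ∉ dnT Q lab {p} g := not_up_and_dn hu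
        have hu' : p ∉ upT Q lab {p} (sw g p) := fun h => hd (h1.1 h)
        have hd' : p ∈ dnT Q lab {p} (sw g p) := h2.2 hu
        have hdes : des lab (sw g p) = des lab g + 1 := (mem_upT.1 hu).2.2
        simp only [tw, hu, hu', hd', if_true, if_false]
        rw [hdes, pow_succ]
        have : r ^ des lab g * (x * F g) - r ^ des lab g * (z * F g) +
            (r ^ des lab g * r * (y * F g) - r ^ des lab g * r * (z * F g)) =
            r ^ des lab g * F g * ((x + r * y) - z * (1 + r)) := by ring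
        rw [this, hz']
        ring
      · by_cases hd : p ∈ dnT Q lab {p} g
        · have hu' : p ∈ upT Q lab {p} (sw g p) := h1.2 hd
          have hdes : des lab (sw g p) + 1 = des lab g := (mem_dnT.1 hd).2.2
          simp only [tw, hu, hd, hu', if_true, if_false]
          rw [← hdes, pow_succ]
          have : r ^ des lab (sw g p) * r * (y * F g) - r ^ des lab (sw g p) * r * (z * F g) +
              (r ^ des lab (sw g p) * (x * F g) - r ^ des lab (sw g p) * (z * F g)) =
              r ^ des lab (sw g p) * F g * ((x + r * y) - z * (1 + r)) := by ring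
          rw [this, hz']
          ring
        · have hu' : p ∉ upT Q lab {p} (sw g p) := fun h => hd (h1.1 h)
          have hd' : p ∉ dnT Q lab {p} (sw g p) := fun h => hu (h2.1 h)
          simp only [tw, hu, hd, hu', hd', if_false]
          ring
  · intro g hg hne heq
    by_cases hQ : Q (g p.castSucc) (g p.succ)
    · have hu : p ∉ upT Q lab {p} g := fun h => (mem_upT.1 h).2.1 hQ
      have hd : p ∉ dnT Q lab {p} g := fun h => (mem_dnT.1 h).2.1 hQ
      apply hne
      simp only [tw, hu, hd, if_false]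
      ring
    · simp only [hQ, if_false] at heq
      have h1 : (sw g p) p.castSucc = g p.castSucc := by rw [heq]
      rw [sw_left] at h1
      have h2 := g.injective h1
      have h3 : p.succ.val = p.castSucc.val := by rw [h2]
      have hc : p.castSucc.val = p.val := rfl
      have hs : p.succ.val = p.val + 1 := rfl
      omega
  · intro g hg
    by_cases hQ : Q (g p.castSucc) (g p.succ)
    · simp only [hQ, if_true]
      exact hg
    · simp only [hQ, if_false]
      exact sw_mem hg hQ
  · intro g hg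
    by_cases hQ : Q (g p.castSucc) (g p.succ)
    · simp only [hQ, if_true]
    · simp only [hQ, if_false, sw_left, sw_right, not_Q_rev hg, sw_sw]

private theorem tw_sw {N : ℕ} {Q : Rel (N + 1)} {lab : Fin (N + 1) → ℕ} {T : Finset (Fin N)}
    (hT : Sep T) (x y : ℝ) (g : Equiv.Perm (Fin (N + 1))) (p : Fin N) (hp : p ∈ T) (p' : Fin N)
    (hp' : p' ∈ T) (hne : p' ≠ p) : tw Q lab x y p' (sw g p) = tw Q lab x y p' g := by
  classical
  obtain ⟨h1, h2⟩ := upT_sw (Q := Q) (lab := lab) hT g p hp p' hp' hne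
  rw [← up_single hp', ← up_single hp'] at h1
  rw [← dn_single hp', ← dn_single hp'] at h2
  simp only [tw, h1, h2]

private theorem prod_tw {N : ℕ} (Q : Rel (N + 1)) (lab : Fin (N + 1) → ℕ) (T : Finset (Fin N))
    (x y : ℝ) (g : Equiv.Perm (Fin (N + 1))) :
    ∏ p ∈ T, tw Q lab x y p g = x ^ (upT Q lab T g).card * y ^ (dnT Q lab T g).card := by
  classical
  simp only [tw]
  rw [Finset.prod_ite, Finset.prod_ite, Finset.prod_const, Finset.prod_const, Finset.prod_const_one,
    mul_one]
  have h1 : T.filter (fun p => p ∈ upT Q lab {p} g) = upT Q lab T g := by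
    ext p
    rw [Finset.mem_filter]
    constructor
    · rintro ⟨h1, h2⟩
      exact (up_single h1).1 h2
    · intro h
      have h1 := (mem_upT.1 h).1
      exact ⟨h1, (up_single h1).2 h⟩
  have h2 : (T.filter (fun p => ¬ p ∈ upT Q lab {p} g)).filter (fun p => p ∈ dnT Q lab {p} g) =
      dnT Q lab T g := by
    ext p
    rw [Finset.mem_filter, Finset.mem_filter]
    constructor
    · rintro ⟨⟨h1, _⟩, h2⟩
      exact (dn_single h1).1 h2
    · intro h
      have h1 := (mem_dnT.1 h).1
      exact ⟨⟨h1, fun h2 => not_up_and_dn h2 h⟩, (dn_single h1).2 h⟩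
  rw [h1, h2]

/-- ALL POSITIONS. PROOF. Induction over the positions already treated (`Finset.induction_on`), `upT_sw`. -/
theorem all_pos {N : ℕ} {Q : Rel (N + 1)} {lab : Fin (N + 1) → ℕ} {T : Finset (Fin N)} (hT : Sep T)
    (r x y : ℝ) (hr : 0 < r) :
    ∑ g ∈ LE Q, r ^ des lab g * (x ^ (upT Q lab T g).card * y ^ (dnT Q lab T g).card) =
      ∑ g ∈ LE Q, r ^ des lab g *
        ((x + r * y) / (1 + r)) ^ ((upT Q lab T g).card + (dnT Q lab T g).card) := by
  classical
  set z : ℝ := (x + r * y) / (1 + r) with hz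
  have key : ∀ S : Finset (Fin N), S ⊆ T →
      ∑ g ∈ LE Q, r ^ des lab g * ∏ p ∈ T,
        tw Q lab (if p ∈ S then z else x) (if p ∈ S then z else y) p g =
      ∑ g ∈ LE Q, r ^ des lab g * ∏ p ∈ T, tw Q lab x y p g := by
    intro S
    induction S using Finset.induction_on with
    | empty =>
      intro _
      simp
    | insert a S ha ih =>
      intro hS
      have haT : a ∈ T := hS (Finset.mem_insert_self a S)
      have hST : S ⊆ T := fun p hp => hS (Finset.mem_insert_of_mem hp)
      rw [← ih hST]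
      have e1 : ∀ (S' : Finset (Fin N)) (g : Equiv.Perm (Fin (N + 1))),
          ∏ p ∈ T, tw Q lab (if p ∈ S' then z else x) (if p ∈ S' then z else y) p g =
          tw Q lab (if a ∈ S' then z else x) (if a ∈ S' then z else y) a g *
            ∏ p ∈ T.erase a, tw Q lab (if p ∈ S' then z else x) (if p ∈ S' then z else y) p g :=
        fun S' g => (Finset.mul_prod_erase T _ haT).symm
      have e2 : ∀ g : Equiv.Perm (Fin (N + 1)),
          ∏ p ∈ T.erase a, tw Q lab (if p ∈ insert a S then z else x)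
            (if p ∈ insert a S then z else y) p g =
          ∏ p ∈ T.erase a, tw Q lab (if p ∈ S then z else x) (if p ∈ S then z else y) p g := by
        intro g
        refine Finset.prod_congr rfl fun p hp => ?_
        have hne : p ≠ a := Finset.ne_of_mem_erase hp
        have : (p ∈ insert a S) = (p ∈ S) := by
          simp [Finset.mem_insert, hne]
        simp only [this]
      have e3 := one_pos (Q := Q) (lab := lab) a r x y hr
        (fun g => ∏ p ∈ T.erase a, tw Q lab (if p ∈ S then z else x) (if p ∈ S then z else y) p g)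
        (by
          intro g _ _
          refine Finset.prod_congr rfl fun p hp => ?_
          exact tw_sw hT _ _ g a haT p (Finset.mem_of_mem_erase hp) (Finset.ne_of_mem_erase hp))
      have e4 : ∀ g : Equiv.Perm (Fin (N + 1)),
          ∏ p ∈ T, tw Q lab (if p ∈ insert a S then z else x) (if p ∈ insert a S then z else y) p g =
          tw Q lab z z a g *
            ∏ p ∈ T.erase a, tw Q lab (if p ∈ S then z else x) (if p ∈ S then z else y) p g := by
        intro g
        rw [e1 (insert a S) g, e2 g, if_pos (Finset.mem_insert_self a S),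
          if_pos (Finset.mem_insert_self a S)]
      have e5 : ∀ g : Equiv.Perm (Fin (N + 1)),
          ∏ p ∈ T, tw Q lab (if p ∈ S then z else x) (if p ∈ S then z else y) p g =
          tw Q lab x y a g *
            ∏ p ∈ T.erase a, tw Q lab (if p ∈ S then z else x) (if p ∈ S then z else y) p g := by
        intro g
        rw [e1 S g, if_neg ha, if_neg ha]
      simp only [e4, e5]
      exact e3.symm
  have h1 := key T (Finset.Subset.refl T)
  have h2 : ∀ g : Equiv.Perm (Fin (N + 1)),
      ∏ p ∈ T, tw Q lab (if p ∈ T then z else x) (if p ∈ T then z else y) p g =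
        z ^ ((upT Q lab T g).card + (dnT Q lab T g).card) := by
    intro g
    rw [pow_add, ← prod_tw Q lab T z z g]
    refine Finset.prod_congr rfl fun p hp => ?_
    rw [if_pos hp, if_pos hp]
  simp only [h2, prod_tw] at h1
  exact h1.symm

open Classical in
/-- PROOF. `all_pos` with `x = √r`, `y = 1/√r`: `(x + r y)/(1 + r) = 2 √r/(1 + r)`, and
`x^up y^down ≥ √r` if `up ≤ down + 1` (`0 < r ≤ 1`). -/
theorem flip_exp {N : ℕ} {Q : Rel (N + 1)} {lab : Fin (N + 1) → ℕ} {T : Finset (Fin N)} (hT : Sep T)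
    (r : ℝ) (hr : 0 < r) (hr1 : r ≤ 1) :
    Real.sqrt r * ∑ g ∈ (LE Q).filter (fun g => (upT Q lab T g).card ≤ (dnT Q lab T g).card + 1),
        r ^ des lab g ≤
      ∑ g ∈ LE Q, r ^ des lab g *
        (2 * Real.sqrt r / (1 + r)) ^ ((upT Q lab T g).card + (dnT Q lab T g).card) := by
  have hs : 0 < Real.sqrt r := Real.sqrt_pos.2 hr
  have hs1 : Real.sqrt r ≤ 1 := Real.sqrt_le_one.2 hr1
  have hss : Real.sqrt r * Real.sqrt r = r := Real.mul_self_sqrt hr.le
  have h1 := all_pos (Q := Q) (lab := lab) hT r (Real.sqrt r) (Real.sqrt r)⁻¹ hr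
  have h2 : (Real.sqrt r + r * (Real.sqrt r)⁻¹) / (1 + r) = 2 * Real.sqrt r / (1 + r) := by
    have : r * (Real.sqrt r)⁻¹ = Real.sqrt r := by
      nth_rewrite 1 [← hss]
      field_simp
    rw [this]
    ring
  rw [h2] at h1
  rw [← h1, Finset.mul_sum]
  have h3 : ∀ g ∈ (LE Q).filter (fun g => (upT Q lab T g).card ≤ (dnT Q lab T g).card + 1),
      Real.sqrt r * r ^ des lab g ≤ r ^ des lab g *
        (Real.sqrt r ^ (upT Q lab T g).card * (Real.sqrt r)⁻¹ ^ (dnT Q lab T g).card) := by
    intro g hg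
    have hg' := (Finset.mem_filter.1 hg).2
    have h4 : Real.sqrt r ^ ((dnT Q lab T g).card + 1) ≤ Real.sqrt r ^ (upT Q lab T g).card :=
      pow_le_pow_of_le_one hs.le hs1 hg'
    have h5 : Real.sqrt r ≤
        Real.sqrt r ^ (upT Q lab T g).card * (Real.sqrt r)⁻¹ ^ (dnT Q lab T g).card := by
      have h6 : 0 < (Real.sqrt r)⁻¹ ^ (dnT Q lab T g).card := by positivity
      have h7 := mul_le_mul_of_nonneg_right h4 h6.le
      have h8 : Real.sqrt r ^ ((dnT Q lab T g).card + 1) * (Real.sqrt r)⁻¹ ^ (dnT Q lab T g).card =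
          Real.sqrt r := by
        rw [pow_succ, inv_pow]
        have h9 : Real.sqrt r ^ (dnT Q lab T g).card ≠ 0 := pow_ne_zero _ hs.ne'
        field_simp
      rw [h8] at h7
      exact h7
    have h6 : 0 ≤ r ^ des lab g := by positivity
    rw [mul_comm]
    exact mul_le_mul_of_nonneg_left h5 h6
  refine (Finset.sum_le_sum h3).trans ?_
  refine Finset.sum_le_sum_of_subset_of_nonneg (Finset.filter_subset _ _) ?_
  intro g _ _
  positivity

end Pool.SC25
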