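import Mathlib

set_option autoImplicit false

/-!
# SC25/CoarseP: functions which are weakly increasing on the pairs of a matching (helper37)
-/

namespace Pool.SC25

open Classical in
theorem coarseP_step {n q : ℕ} (hq : 2 ≤ q) (P : Finset (Fin n × Fin n)) (a b : Fin n)
    (hab : a ≠ b) (ha : ∀ p ∈ P, p.1 ≠ a ∧ p.2 ≠ a) (hb : ∀ p ∈ P, p.1 ≠ b ∧ p.2 ≠ b) :
    4 * (Finset.univ.filter fun ρ : Fin n → Fin q =>
        ∀ p ∈ insert (a, b) P, ρ p.1 ≤ ρ p.2).card ≤
      3 * (Finset.univ.filter fun ρ : Fin n → Fin q => ∀ p ∈ P, ρ p.1 ≤ ρ p.2).card := by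
  set S : Finset (Fin n → Fin q) :=
    Finset.univ.filter fun ρ : Fin n → Fin q => ∀ p ∈ P, ρ p.1 ≤ ρ p.2 with hS
  have hmS : ∀ ρ, ρ ∈ S ↔ ∀ p ∈ P, ρ p.1 ≤ ρ p.2 := fun ρ => by
    rw [hS, Finset.mem_filter]
    exact ⟨fun h => h.2, fun h => ⟨Finset.mem_univ _, h⟩⟩
  have hins : (Finset.univ.filter fun ρ : Fin n → Fin q =>
      ∀ p ∈ insert (a, b) P, ρ p.1 ≤ ρ p.2) = S.filter (fun ρ => ρ a ≤ ρ b) := by
    ext ρ
    rw [Finset.mem_filter, Finset.mem_filter, hmS]
    constructor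
    · rintro ⟨_, h⟩
      exact ⟨fun p hp => h p (Finset.mem_insert_of_mem hp), h _ (Finset.mem_insert_self _ _)⟩
    · rintro ⟨h, h'⟩
      refine ⟨Finset.mem_univ _, fun p hp => ?_⟩
      rw [Finset.mem_insert] at hp
      rcases hp with rfl | hp
      · exact h'
      · exact h p hp
  rw [hins]
  have e1 : (S.filter fun ρ => ρ a ≤ ρ b).card + (S.filter fun ρ => ¬ ρ a ≤ ρ b).card = S.card :=
    Finset.card_filter_add_card_filter_not _
  have e2 : (S.filter fun ρ => ρ a ≤ ρ b).card =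
      (S.filter fun ρ => ρ a < ρ b).card + (S.filter fun ρ => ρ a = ρ b).card := by
    rw [← Finset.card_union_of_disjoint]
    · congr 1
      ext ρ
      simp only [Finset.mem_filter, Finset.mem_union]
      rw [le_iff_lt_or_eq]
      tauto
    · rw [Finset.disjoint_filter]
      intro ρ _ h1 h2
      exact absurd h2 h1.ne
  have e3 : (S.filter fun ρ => ρ a < ρ b).card = (S.filter fun ρ => ¬ ρ a ≤ ρ b).card := by
    have hsw : ∀ ρ : Fin n → Fin q, ρ ∈ S → ρ ∘ Equiv.swap a b ∈ S := by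
      intro ρ hρ
      rw [hmS] at hρ ⊢
      intro p hp
      have h1 := hρ p hp
      simp only [Function.comp_apply]
      rw [Equiv.swap_apply_of_ne_of_ne (ha p hp).1 (hb p hp).1,
        Equiv.swap_apply_of_ne_of_ne (ha p hp).2 (hb p hp).2]
      exact h1
    have hinv : ∀ ρ : Fin n → Fin q, (ρ ∘ Equiv.swap a b) ∘ Equiv.swap a b = ρ := by
      intro ρ
      funext c
      simp
    refine Finset.card_bij' (fun ρ _ => ρ ∘ Equiv.swap a b) (fun ρ _ => ρ ∘ Equiv.swap a b)
      ?_ ?_ ?_ ?_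
    · intro ρ hρ
      rw [Finset.mem_filter] at hρ ⊢
      refine ⟨hsw ρ hρ.1, ?_⟩
      simp only [Function.comp_apply, Equiv.swap_apply_left, Equiv.swap_apply_right, not_le]
      exact hρ.2
    · intro ρ hρ
      rw [Finset.mem_filter] at hρ ⊢
      refine ⟨hsw ρ hρ.1, ?_⟩
      simp only [Function.comp_apply, Equiv.swap_apply_left, Equiv.swap_apply_right]
      exact not_le.1 hρ.2
    · intro ρ _
      exact hinv ρ
    · intro ρ _
      exact hinv ρ
  have e4 : S.card = (S.filter fun ρ => ρ a = ρ b).card * q := by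
    have h1 : ((S.filter fun ρ => ρ a = ρ b) ×ˢ (Finset.univ : Finset (Fin q))).card =
        (S.filter fun ρ => ρ a = ρ b).card * q := by
      rw [Finset.card_product, Finset.card_univ, Fintype.card_fin]
    rw [← h1]
    symm
    have hup : ∀ (ρ : Fin n → Fin q) (x : Fin q), ρ ∈ S → Function.update ρ a x ∈ S := by
      intro ρ x hρ
      rw [hmS] at hρ ⊢
      intro p hp
      rw [Function.update_of_ne (ha p hp).1, Function.update_of_ne (ha p hp).2]
      exact hρ p hp
    refine Finset.card_bij' (fun y _ => Function.update y.1 a y.2)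
      (fun ρ _ => (Function.update ρ a (ρ b), ρ a)) ?_ ?_ ?_ ?_
    · rintro ⟨ρ, x⟩ hy
      rw [Finset.mem_product, Finset.mem_filter] at hy
      exact hup ρ x hy.1.1
    · intro ρ hρ
      rw [Finset.mem_product, Finset.mem_filter]
      refine ⟨⟨hup ρ _ hρ, ?_⟩, Finset.mem_univ _⟩
      simp only [Function.update_self]
      rw [Function.update_of_ne hab.symm]
    · rintro ⟨ρ, x⟩ hy
      rw [Finset.mem_product, Finset.mem_filter] at hy
      simp only at hy
      simp only [Function.update_self]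
      rw [Function.update_of_ne hab.symm, Function.update_idem, ← hy.1.2,
        Function.update_eq_self]
    · intro ρ _
      simp only [Function.update_idem, Function.update_eq_self]
  have e5 : 2 * (S.filter fun ρ => ρ a = ρ b).card ≤ (S.filter fun ρ => ρ a = ρ b).card * q := by
    rw [mul_comm]
    exact Nat.mul_le_mul_left _ hq
  omega

open Classical in
/-- values in `Fin q` with `ρ a ≤ ρ b` on the pairs of a matching -/
theorem coarseP {n q : ℕ} (hq : 2 ≤ q) (P : Finset (Fin n × Fin n)) (hne : ∀ p ∈ P, p.1 ≠ p.2)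
    (hd : ∀ p ∈ P, ∀ p' ∈ P, p ≠ p' → p.1 ≠ p'.1 ∧ p.1 ≠ p'.2 ∧ p.2 ≠ p'.1 ∧ p.2 ≠ p'.2) :
    4 ^ P.card * (Finset.univ.filter fun ρ : Fin n → Fin q => ∀ p ∈ P, ρ p.1 ≤ ρ p.2).card ≤
      3 ^ P.card * q ^ n := by
  induction P using Finset.induction_on with
  | empty =>
    simp
  | insert p P hp ih =>
    obtain ⟨a, b⟩ := p
    have ih' := ih (fun p hp => hne p (Finset.mem_insert_of_mem hp))
      (fun p hp p' hp' h => hd p (Finset.mem_insert_of_mem hp) p' (Finset.mem_insert_of_mem hp') h)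
    have hsep : ∀ p ∈ P, p.1 ≠ a ∧ p.1 ≠ b ∧ p.2 ≠ a ∧ p.2 ≠ b := by
      intro p' hp'
      have := hd p' (Finset.mem_insert_of_mem hp') (a, b) (Finset.mem_insert_self _ _)
        (fun h => hp (h ▸ hp'))
      exact this
    have hs := coarseP_step hq P a b (hne _ (Finset.mem_insert_self _ _))
      (fun p hp => ⟨(hsep p hp).1, (hsep p hp).2.2.1⟩)
      (fun p hp => ⟨(hsep p hp).2.1, (hsep p hp).2.2.2⟩)
    rw [Finset.card_insert_of_notMem hp, pow_succ, pow_succ]
    calc 4 ^ P.card * 4 * (Finset.univ.filter fun ρ : Fin n → Fin q =>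
          ∀ p ∈ insert (a, b) P, ρ p.1 ≤ ρ p.2).card
        = 4 ^ P.card * (4 * (Finset.univ.filter fun ρ : Fin n → Fin q =>
          ∀ p ∈ insert (a, b) P, ρ p.1 ≤ ρ p.2).card) := by ring
      _ ≤ 4 ^ P.card * (3 * (Finset.univ.filter fun ρ : Fin n → Fin q =>
          ∀ p ∈ P, ρ p.1 ≤ ρ p.2).card) := Nat.mul_le_mul_left _ hs
      _ = 3 * (4 ^ P.card * (Finset.univ.filter fun ρ : Fin n → Fin q =>
          ∀ p ∈ P, ρ p.1 ≤ ρ p.2).card) := by ring
      _ ≤ 3 * (3 ^ P.card * q ^ n) := Nat.mul_le_mul_left _ ih'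
      _ = 3 ^ P.card * 3 * q ^ n := by ring

end Pool.SC25
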