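import Pool.Agent.SC25.Defs
import Pool.Agent.SC25.CoarseP

set_option autoImplicit false

namespace Pool.SC25

open Pool.HB45 Pool.HM63 Pool.PH43

theorem coarseS {n q : ℕ} (Q : Rel n) (hQ : ∀ a, ¬ Q a a) (hq : 2 ≤ q) (m : ℕ) :
    ∑ f ∈ Mp Q (q * m), (4 / 3 : ℝ) ^ (Mt Q fun i => (f i).val / q).card ≤
      (q : ℝ) ^ n * (Mp Q m).card := by
  classical
  have hq0 : 0 < q := by omega
  let Φ : (Fin n → Fin (q * m)) → (Fin n → Fin m) := fun f i =>
    ⟨(f i).val / q, Nat.div_lt_of_lt_mul (f i).isLt⟩
  have hΦ : ∀ f ∈ Mp Q (q * m), Φ f ∈ Mp Q m := by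
    intro f hf
    rw [mem_Mp] at hf ⊢
    intro a b hab
    have h1 : (f a).val ≤ (f b).val := hf a b hab
    exact Nat.div_le_div_right h1
  rw [← Finset.sum_fiberwise_of_maps_to hΦ]
  have hmain : ∀ F ∈ Mp Q m, ∑ f ∈ (Mp Q (q * m)).filter (fun f => Φ f = F),
      (4 / 3 : ℝ) ^ (Mt Q fun i => (f i).val / q).card ≤ (q : ℝ) ^ n := by
    intro F _
    have h1 : ∀ f ∈ (Mp Q (q * m)).filter (fun f => Φ f = F),
        (4 / 3 : ℝ) ^ (Mt Q fun i => (f i).val / q).card
          = (4 / 3 : ℝ) ^ (Mt Q fun i => (F i).val).card := by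
      intro f hf
      rw [Finset.mem_filter] at hf
      have : (fun i => (f i).val / q) = fun i => (F i).val := by
        funext i
        rw [← hf.2]
      rw [this]
    rw [Finset.sum_congr rfl h1, Finset.sum_const, nsmul_eq_mul]
    have hP := isMt Q (fun i => (F i).val)
    generalize Mt Q (fun i => (F i).val) = P at hP ⊢
    have h2 : ((Mp Q (q * m)).filter (fun f => Φ f = F)).card ≤
        (Finset.univ.filter fun ρ : Fin n → Fin q => ∀ p ∈ P, ρ p.1 ≤ ρ p.2).card := by
      apply Finset.card_le_card_of_injOn (fun f i => ⟨(f i).val % q, Nat.mod_lt _ hq0⟩)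
      · intro f hf
        rw [Finset.mem_coe, Finset.mem_filter] at hf
        rw [Finset.mem_coe, Finset.mem_filter]
        refine ⟨Finset.mem_univ _, ?_⟩
        intro p hp
        obtain ⟨h3, h4⟩ := hP.rel p hp
        have h5 : (f p.1).val ≤ (f p.2).val := mem_Mp.1 hf.1 _ _ h3
        have h6 : ∀ i, (f i).val / q = (F i).val := by
          intro i
          rw [← hf.2]
        have h7 : (f p.1).val / q = (f p.2).val / q := by
          rw [h6, h6]
          exact h4
        have h8 := Nat.div_add_mod (f p.1).val q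
        have h9 := Nat.div_add_mod (f p.2).val q
        show (f p.1).val % q ≤ (f p.2).val % q
        rw [h7] at h8
        omega
      · intro f hf f' hf' h
        rw [Finset.mem_coe, Finset.mem_filter] at hf hf'
        funext i
        apply Fin.ext
        have h3 : (f i).val % q = (f' i).val % q := congrArg Fin.val (congrFun h i)
        have h4 : (f i).val / q = (F i).val := by rw [← hf.2]
        have h5 : (f' i).val / q = (F i).val := by rw [← hf'.2]
        have h8 := Nat.div_add_mod (f i).val q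
        have h9 := Nat.div_add_mod (f' i).val q
        rw [h4] at h8
        rw [h5] at h9
        omega
    have h3 := coarseP hq P (fun p hp => fun hh => hQ p.2 (by
      have := (hP.rel p hp).1
      rwa [hh] at this)) hP.disj
    have h4 : (4 : ℝ) ^ P.card * ((Mp Q (q * m)).filter (fun f => Φ f = F)).card ≤
        3 ^ P.card * (q : ℝ) ^ n := by
      have h5 : 4 ^ P.card * ((Mp Q (q * m)).filter (fun f => Φ f = F)).card ≤
          3 ^ P.card * q ^ n := (Nat.mul_le_mul_left _ h2).trans h3
      exact_mod_cast h5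
    have h6 : (0 : ℝ) < 3 ^ P.card := by positivity
    rw [div_pow, mul_div_assoc', div_le_iff₀ h6]
    linarith
  calc ∑ F ∈ Mp Q m, ∑ f ∈ (Mp Q (q * m)).filter (fun f => Φ f = F),
      (4 / 3 : ℝ) ^ (Mt Q fun i => (f i).val / q).card
      ≤ ∑ _F ∈ Mp Q m, (q : ℝ) ^ n := Finset.sum_le_sum hmain
    _ = (q : ℝ) ^ n * (Mp Q m).card := by rw [Finset.sum_const, nsmul_eq_mul, mul_comm]

end Pool.SC25
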