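import Pool.Agent.SC25.Defs
import Pool.Agent.SC25.CoarseP
import Pool.Agent.SC25.CoarseS

set_option autoImplicit false

/-!
# SC25/Coarse: coarse graining
-/

namespace Pool.SC25

open Pool.HB45 Pool.HM63 Pool.PH43

open Classical in
/-- values in `Fin q` with `ρ a ≤ ρ b` on the pairs of a matching. PROOF. Induction on `P`
(`Finset.induction_on`): insert the pair `(a, b)`, `a ≠ b`, disjoint from the others; let `S` be the set for `P`.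
Swapping the values at `a` and `b` maps `S` to itself, so `#{ρ a < ρ b} = #{ρ b < ρ a}`; and
`q * #{ρ ∈ S, ρ a = ρ b} = #S` (`ρ ↦ update ρ a x`), so `#{ρ a ≤ ρ b} = (#S + #{=}) / 2 ≤ (3/4) #S`. -/
theorem card_pairs {n q : ℕ} (hq : 2 ≤ q) (P : Finset (Fin n × Fin n)) (hne : ∀ p ∈ P, p.1 ≠ p.2)
    (hd : ∀ p ∈ P, ∀ p' ∈ P, p ≠ p' → p.1 ≠ p'.1 ∧ p.1 ≠ p'.2 ∧ p.2 ≠ p'.1 ∧ p.2 ≠ p'.2) :
    4 ^ P.card * (Finset.univ.filter fun ρ : Fin n → Fin q => ∀ p ∈ P, ρ p.1 ≤ ρ p.2).card ≤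
      3 ^ P.card * q ^ n := coarseP hq P hne hd

/-- COARSE GRAINING. PROOF. Group the maps `f` by `F = f / q ∈ Mp Q m`. Given `F`, `f = q F + ρ`,
`ρ : Fin n → Fin q`, and `ρ p.1 ≤ ρ p.2` for `p ∈ Mt Q F` (`isMt.rel`), so by `card_pairs` there are at most
`q^n (3/4)^#Mt` such `f`. -/
theorem coarse {n q : ℕ} (Q : Rel n) (hQ : ∀ a, ¬ Q a a) (hq : 2 ≤ q) (m : ℕ) :
    ∑ f ∈ Mp Q (q * m), (4 / 3 : ℝ) ^ (Mt Q fun i => (f i).val / q).card ≤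
      (q : ℝ) ^ n * (Mp Q m).card := coarseS Q hQ hq m

end Pool.SC25
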