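import Pool.Agent.SC25.Fund

set_option autoImplicit false

/-!
# SC25/YB: bad windows of the word of a map
-/

namespace Pool.SC25

open Pool.HB45 Pool.HM63 Pool.PH43

/-- PROOF. `F = f / q`, `g = wd lab f`; `F ∘ g` is weakly increasing with values `< m`. Window `k` occupies the
positions `5k, …, 5k + 3`. If it is bad, two of its letters `a, b` have `Q a b`. Either `F` is not constant on
the window — this happens for at most `m` windows, since `F` at the last position of such a window is larger than
`F` at its first position, and the windows are disjoint intervals of positions — or `F a = F b` and by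
`Mt_max` the window contains a letter of a pair of `Mt Q F`: at most `2 #Mt` windows. -/
theorem nbad_le {N m' : ℕ} {Q : Rel (N + 1)} {lab : Fin (N + 1) → ℕ}
    (hm : m' * (3 + 2) ≤ N + 1) (f : Fin (N + 1) → ℕ) (q m : ℕ) (hf : ∀ i, f i / q < m) :
    nbad hm Q (wd lab f) ≤ m + 2 * (Mt Q fun i => f i / q).card := by
  classical
  obtain ⟨g, hg⟩ : ∃ g, g = wd lab f := ⟨_, rfl⟩
  obtain ⟨F, hF⟩ : ∃ F : Fin (N + 1) → ℕ, F = fun i => f i / q := ⟨_, rfl⟩
  have hFi : ∀ i, F i < m := fun i => by rw [hF]; exact hf i
  have hmono : ∀ i j, i ≤ j → F (g i) ≤ F (g j) := fun i j hij => by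
    rw [hF, hg]
    exact Nat.div_le_div_right (wd_mono f hij)
  rw [← hg, ← hF]
  obtain ⟨A, hA⟩ : ∃ A : Finset (Fin m'), A = Finset.univ.filter fun k : Fin m' =>
    F (g (wpos (win_le hm k) 0)) < F (g (wpos (win_le hm k) 3)) := ⟨_, rfl⟩
  obtain ⟨S, hS⟩ : ∃ S : Finset (Fin (N + 1)), S = (Mt Q F).image Prod.fst ∪
    (Mt Q F).image Prod.snd := ⟨_, rfl⟩
  obtain ⟨B, hB⟩ : ∃ B : Finset (Fin m'), B = Finset.univ.filter fun k : Fin m' =>
    ∃ i : Fin (3 + 1), g (wpos (win_le hm k) i) ∈ S := ⟨_, rfl⟩
  have hval : ∀ (k : Fin m') (i : Fin (3 + 1)),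
      (wpos (win_le hm k) i).val = k.val * (3 + 2) + i.val := fun k i => rfl
  have h1 : (Finset.univ.filter fun k : Fin m' => Bad (winRel (win_le hm k) Q g)) ⊆ A ∪ B := by
    intro k hk
    obtain ⟨i, j, hij⟩ := (Finset.mem_filter.1 hk).2
    rw [Finset.mem_union]
    by_cases hc : F (g (wpos (win_le hm k) 0)) < F (g (wpos (win_le hm k) 3))
    · left
      rw [hA]
      exact Finset.mem_filter.2 ⟨Finset.mem_univ _, hc⟩
    · right
      rw [hB]
      refine Finset.mem_filter.2 ⟨Finset.mem_univ _, ?_⟩
      have hle : ∀ l : Fin (3 + 1), F (g (wpos (win_le hm k) l)) = F (g (wpos (win_le hm k) 0)) := by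
        intro l
        have e1 : F (g (wpos (win_le hm k) 0)) ≤ F (g (wpos (win_le hm k) l)) :=
          hmono _ _ (by rw [Fin.le_def, hval, hval]; simp)
        have e2 : F (g (wpos (win_le hm k) l)) ≤ F (g (wpos (win_le hm k) 3)) :=
          hmono _ _ (by
            rw [Fin.le_def, hval, hval]
            have e3 : l.val ≤ 3 := by have := l.isLt; omega
            have e4 : (3 : Fin (3 + 1)).val = 3 := rfl
            omega)
        omega
      have hij' : Q (g (wpos (win_le hm k) i)) (g (wpos (win_le hm k) j)) := hij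
      obtain ⟨p, hp, hpp⟩ := Mt_max Q F _ _ hij' ((hle i).trans (hle j).symm)
      have hp1 : p.1 ∈ S := by
        rw [hS]
        exact Finset.mem_union_left _ (Finset.mem_image_of_mem _ hp)
      have hp2 : p.2 ∈ S := by
        rw [hS]
        exact Finset.mem_union_right _ (Finset.mem_image_of_mem _ hp)
      rcases hpp with h | h | h | h
      · exact ⟨i, h ▸ hp1⟩
      · exact ⟨i, h ▸ hp2⟩
      · exact ⟨j, h ▸ hp1⟩
      · exact ⟨j, h ▸ hp2⟩
  have h2 : A.card ≤ m := by
    rw [← Finset.card_range m]
    refine Finset.card_le_card_of_injOn (fun k => F (g (wpos (win_le hm k) 0))) ?_ ?_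
    · intro k _
      exact Finset.mem_coe.2 (Finset.mem_range.2 (hFi _))
    · have key : ∀ k ∈ A, ∀ k' : Fin m', k < k' →
          F (g (wpos (win_le hm k) 0)) < F (g (wpos (win_le hm k') 0)) := by
        intro k hk k' hkk
        rw [hA] at hk
        refine (Finset.mem_filter.1 hk).2.trans_le (hmono _ _ ?_)
        rw [Fin.le_def, hval, hval]
        have e4 : (3 : Fin (3 + 1)).val = 3 := rfl
        have e5 : (0 : Fin (3 + 1)).val = 0 := rfl
        have e6 : k.val < k'.val := hkk
        omega
      intro k hk k' hk' he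
      have he' : F (g (wpos (win_le hm k) 0)) = F (g (wpos (win_le hm k') 0)) := he
      rcases lt_trichotomy k k' with h | h | h
      · have := key k (Finset.mem_coe.1 hk) k' h
        omega
      · exact h
      · have := key k' (Finset.mem_coe.1 hk') k h
        omega
  have h3 : B.card ≤ S.card := by
    rw [← Finset.card_image_of_injective B Fin.val_injective]
    refine (Finset.card_le_card ?_).trans
      (Finset.card_image_le (s := S) (f := fun x => (g.symm x).val / 5))
    intro v hv
    obtain ⟨k, hk, rfl⟩ := Finset.mem_image.1 hv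
    rw [hB] at hk
    obtain ⟨i, hi⟩ := (Finset.mem_filter.1 hk).2
    refine Finset.mem_image.2 ⟨_, hi, ?_⟩
    rw [Equiv.symm_apply_apply, hval]
    have := i.isLt
    omega
  have h4 : S.card ≤ 2 * (Mt Q F).card := by
    rw [hS]
    refine (Finset.card_union_le _ _).trans ?_
    have e1 := Finset.card_image_le (s := Mt Q F) (f := Prod.fst)
    have e2 := Finset.card_image_le (s := Mt Q F) (f := Prod.snd)
    omega
  have h5 : nbad hm Q g ≤ (A ∪ B).card := by
    unfold nbad
    convert Finset.card_le_card h1
  have h6 := Finset.card_union_le A B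
  omega

end Pool.SC25
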