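import Pool.Agent.SC25.Om
import Pool.Agent.SC25.Coarse
import Pool.Agent.SC25.YB

set_option autoImplicit false

/-!
# SC25/Cnt: maps whose word has many bad windows
-/

namespace Pool.SC25

open Pool.HB45 Pool.HM63 Pool.PH43

open Classical in
/-- PROOF. `m = (M + q - 1) / q`, so `M ≤ q m ≤ M + q - 1` and `m ≤ M/q + 1`. A map `f ∈ Mp Q M` with
`b ≤ nbad` has (as a map to `q m` values, `Fin.castLE`) `b ≤ m + 2 #Mt` (`nbad_le`), so
`1 ≤ (4/3)^(#Mt - (b - m)/2)`; sum, `coarse`, `om_upper`, `q m + q h ≤ M + q (h + 1)`. -/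
theorem cnt {N h m' : ℕ} {Q : Rel (N + 1)} {κ lab : Fin (N + 1) → ℕ} (hκ : Lev h Q κ)
    (hn : Nat' Q lab) (hm : m' * (3 + 2) ≤ N + 1) (q : ℕ) (hq : 2 ≤ q) (b M : ℕ) :
    (((Mp Q M).filter fun f => b ≤ nbad hm Q (wd lab fun i => (f i).val)).card : ℝ) *
        (N + 1).factorial ≤
      (LE Q).card * ((M : ℝ) + q * (h + 1)) ^ (N + 1) *
        Real.exp (Real.log (4 / 3) / 2 * ((M : ℝ) / q + 1 - b)) := by
  obtain ⟨m, hm1, hm2⟩ : ∃ m : ℕ, M ≤ q * m ∧ q * m ≤ M + q - 1 := by
    refine ⟨(M + q - 1) / q, ?_, Nat.mul_div_le _ _⟩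
    have h1 := Nat.div_add_mod (M + q - 1) q
    have h2 := Nat.mod_lt (M + q - 1) (show 0 < q by omega)
    omega
  have hq0 : (0 : ℝ) < q := by exact_mod_cast (show 0 < q by omega)
  have hQ : ∀ a, ¬ Q a a := fun a ha => absurd (hκ.mono a a ha) (lt_irrefl _)
  have hlog : 0 ≤ Real.log (4 / 3) := Real.log_nonneg (by norm_num)
  set A := (Mp Q M).filter fun f => b ≤ nbad hm Q (wd lab fun i => (f i).val) with hA
  -- each map of `A` has a large matching
  have h1 : ∀ f ∈ A, Real.exp (Real.log (4 / 3) / 2 * ((b : ℝ) - m)) ≤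
      (4 / 3 : ℝ) ^ (Mt Q fun i => (f i).val / q).card := by
    intro f hf
    have h2 : b ≤ nbad hm Q (wd lab fun i => (f i).val) := (Finset.mem_filter.1 hf).2
    have h3 := nbad_le (lab := lab) hm (Q := Q) (fun i => (f i).val) q m (fun i => by
      rw [Nat.div_lt_iff_lt_mul (by omega)]
      have := (f i).isLt
      calc (f i).val < M := this
        _ ≤ m * q := by rw [mul_comm]; exact hm1)
    have h4 : (b : ℝ) ≤ m + 2 * (Mt Q fun i => (f i).val / q).card := by
      exact_mod_cast h2.trans h3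
    have h5 : (4 / 3 : ℝ) ^ (Mt Q fun i => (f i).val / q).card =
        Real.exp (Real.log (4 / 3) * (Mt Q fun i => (f i).val / q).card) := by
      rw [← Real.rpow_natCast, Real.rpow_def_of_pos (by norm_num)]
    rw [h5]
    apply Real.exp_le_exp.2
    nlinarith
  -- the sum
  have h6 : (A.card : ℝ) * Real.exp (Real.log (4 / 3) / 2 * ((b : ℝ) - m)) ≤
      (q : ℝ) ^ (N + 1) * (Mp Q m).card := by
    calc (A.card : ℝ) * Real.exp (Real.log (4 / 3) / 2 * ((b : ℝ) - m))
        = ∑ _f ∈ A, Real.exp (Real.log (4 / 3) / 2 * ((b : ℝ) - m)) := by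
          rw [Finset.sum_const, nsmul_eq_mul]
      _ ≤ ∑ f ∈ A, (4 / 3 : ℝ) ^ (Mt Q fun i => (f i).val / q).card := Finset.sum_le_sum h1
      _ = ∑ f ∈ A.image (fun (f : Fin (N + 1) → Fin M) => fun i => Fin.castLE hm1 (f i)),
          (4 / 3 : ℝ) ^ (Mt Q fun i => (f i).val / q).card := by
          rw [Finset.sum_image]
          · rfl
          · intro f _ g _ hfg
            funext i
            have := congrFun hfg i
            exact Fin.castLE_injective hm1 this
      _ ≤ ∑ f ∈ Mp Q (q * m), (4 / 3 : ℝ) ^ (Mt Q fun i => (f i).val / q).card := by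
          refine Finset.sum_le_sum_of_subset_of_nonneg ?_ fun _ _ _ => by positivity
          intro f hf
          obtain ⟨g, hg, rfl⟩ := Finset.mem_image.1 hf
          rw [mem_Mp]
          intro a c hac
          have := mem_Mp.1 (Finset.mem_filter.1 hg).1 a c hac
          exact this
      _ ≤ _ := coarse Q hQ hq m
  have h7 : (((N + 1).factorial : ℕ) : ℝ) * (Mp Q m).card ≤
      (LE Q).card * ((m : ℝ) + h) ^ (N + 1) := by
    exact_mod_cast om_upper hκ hn m
  have h8 : (q : ℝ) ^ (N + 1) * ((m : ℝ) + h) ^ (N + 1) ≤ ((M : ℝ) + q * (h + 1)) ^ (N + 1) := by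
    rw [← mul_pow]
    refine pow_le_pow_left₀ (by positivity) ?_ _
    have h9 : (q : ℝ) * m ≤ M + q := by
      have : q * m ≤ M + q := by omega
      exact_mod_cast this
    nlinarith
  have h9 : (m : ℝ) ≤ (M : ℝ) / q + 1 := by
    have h10 : (q : ℝ) * m ≤ M + q := by
      have : q * m ≤ M + q := by omega
      exact_mod_cast this
    rw [← sub_le_iff_le_add, le_div_iff₀ hq0]
    nlinarith
  have h10 : (A.card : ℝ) * (N + 1).factorial * Real.exp (Real.log (4 / 3) / 2 * ((b : ℝ) - m)) ≤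
      (LE Q).card * ((M : ℝ) + q * (h + 1)) ^ (N + 1) := by
    calc (A.card : ℝ) * (N + 1).factorial * Real.exp (Real.log (4 / 3) / 2 * ((b : ℝ) - m))
        = (N + 1).factorial * ((A.card : ℝ) * Real.exp (Real.log (4 / 3) / 2 * ((b : ℝ) - m))) := by
          ring
      _ ≤ (N + 1).factorial * ((q : ℝ) ^ (N + 1) * (Mp Q m).card) :=
          mul_le_mul_of_nonneg_left h6 (by positivity)
      _ = (q : ℝ) ^ (N + 1) * ((N + 1).factorial * (Mp Q m).card) := by ring
      _ ≤ (q : ℝ) ^ (N + 1) * ((LE Q).card * ((m : ℝ) + h) ^ (N + 1)) :=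
          mul_le_mul_of_nonneg_left h7 (by positivity)
      _ = (LE Q).card * ((q : ℝ) ^ (N + 1) * ((m : ℝ) + h) ^ (N + 1)) := by ring
      _ ≤ _ := mul_le_mul_of_nonneg_left h8 (by positivity)
  have h11 : Real.exp (Real.log (4 / 3) / 2 * ((b : ℝ) - m)) *
      Real.exp (Real.log (4 / 3) / 2 * ((m : ℝ) - b)) = 1 := by
    rw [← Real.exp_add]
    have : Real.log (4 / 3) / 2 * ((b : ℝ) - m) + Real.log (4 / 3) / 2 * ((m : ℝ) - b) = 0 := by
      ring
    rw [this, Real.exp_zero]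
  calc (A.card : ℝ) * (N + 1).factorial
      = (A.card : ℝ) * (N + 1).factorial * (Real.exp (Real.log (4 / 3) / 2 * ((b : ℝ) - m)) *
          Real.exp (Real.log (4 / 3) / 2 * ((m : ℝ) - b))) := by rw [h11, mul_one]
    _ = (A.card : ℝ) * (N + 1).factorial * Real.exp (Real.log (4 / 3) / 2 * ((b : ℝ) - m)) *
          Real.exp (Real.log (4 / 3) / 2 * ((m : ℝ) - b)) := by ring
    _ ≤ (LE Q).card * ((M : ℝ) + q * (h + 1)) ^ (N + 1) *
          Real.exp (Real.log (4 / 3) / 2 * ((m : ℝ) - b)) :=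
        mul_le_mul_of_nonneg_right h10 (Real.exp_pos _).le
    _ ≤ _ := by
        refine mul_le_mul_of_nonneg_left (Real.exp_le_exp.2 ?_) (by positivity)
        nlinarith

end Pool.SC25
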