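import Mathlib

set_option autoImplicit false

/-!
# SC25/StarN: the numbers of `star`
-/

namespace Pool.SC25

theorem log43_le : Real.log (4 / 3) ≤ 3 / 10 := by
  rw [Real.log_le_iff_le_exp (by norm_num)]
  have := Real.quadratic_le_exp_of_nonneg (show (0 : ℝ) ≤ 3 / 10 by norm_num)
  norm_num at this ⊢
  linarith

theorem le_log43 : 7 / 25 ≤ Real.log (4 / 3) := by
  rw [Real.le_log_iff_exp_le (by norm_num)]
  have h := Real.exp_bound (x := 7 / 25) (by rw [abs_of_pos] <;> norm_num) (n := 4) (by norm_num)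
  have h2 := (abs_le.1 h).2
  rw [abs_of_pos (by norm_num : (0 : ℝ) < 7 / 25)] at h2
  norm_num [Finset.sum_range_succ, Nat.factorial] at h2 ⊢
  linarith

/-- the numbers of `star` -/
theorem star_num (N h b q : ℕ) (σ : ℝ) (hσ : 0 < σ) (hq : q = ⌈150 / σ⌉₊ + 1) :
    2 ≤ q ∧ Real.log (4 / 3) / (2 * q) < σ ∧
    (σ / (σ - Real.log (4 / 3) / (2 * q))) ^ (N + 2) *
        Real.exp (Real.log (4 / 3) / 2 * (1 - b) + Real.log (4 / 3) / (2 * q) + σ * (q * (h + 1) + 1)) ≤
      Real.exp ((150 + 3 * σ) * (h + 1) + 1 + (N + 1) / 900 - 7 / 50 * b) := by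
  have hL1 := log43_le
  have hL2 := le_log43
  set L := Real.log (4 / 3) with hL
  have hx : 0 < 150 / σ := by positivity
  have hc : 0 < ⌈150 / σ⌉₊ := Nat.ceil_pos.2 hx
  have hq2 : 2 ≤ q := by omega
  have hq2' : (2 : ℝ) ≤ q := by exact_mod_cast hq2
  have hqr : (q : ℝ) = (⌈150 / σ⌉₊ : ℝ) + 1 := by
    rw [hq]
    push_cast
    ring
  have h1 : 150 / σ ≤ (⌈150 / σ⌉₊ : ℝ) := Nat.le_ceil _
  have h2 : (⌈150 / σ⌉₊ : ℝ) < 150 / σ + 1 := Nat.ceil_lt_add_one hx.le
  have h3 : σ * (150 / σ) = 150 := by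
    field_simp
  have h4 : 150 ≤ σ * q := by
    rw [hqr]
    nlinarith
  have h5 : σ * q ≤ 150 + 2 * σ := by
    rw [hqr]
    nlinarith
  have hq0 : (0 : ℝ) < 2 * q := by linarith
  have hk : L / (2 * q) ≤ σ / 1000 := by
    rw [div_le_iff₀ hq0]
    nlinarith
  have hk2 : L / (2 * q) ≤ 1 / 10 := by
    rw [div_le_iff₀ hq0]
    linarith
  have hk0 : 0 ≤ L / (2 * q) := by
    apply div_nonneg <;> linarith
  set k := L / (2 * q) with hkdef
  refine ⟨hq2, by linarith, ?_⟩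
  have hR0 : 0 < σ - k := by linarith
  have hR : σ / (σ - k) ≤ Real.exp (1 / 999) := by
    have h6 : σ / (σ - k) ≤ 1 / 999 + 1 := by
      rw [div_le_iff₀ hR0]
      linarith
    exact h6.trans (Real.add_one_le_exp _)
  have hR2 : (σ / (σ - k)) ^ (N + 2) ≤ Real.exp (((N : ℝ) + 2) / 999) := by
    calc (σ / (σ - k)) ^ (N + 2) ≤ Real.exp (1 / 999) ^ (N + 2) :=
          pow_le_pow_left₀ (by positivity) hR _
      _ = Real.exp (((N : ℝ) + 2) / 999) := by
          rw [← Real.exp_nat_mul]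
          congr 1
          push_cast
          ring
  calc (σ / (σ - k)) ^ (N + 2) * Real.exp (L / 2 * (1 - b) + k + σ * (q * (h + 1) + 1))
      ≤ Real.exp (((N : ℝ) + 2) / 999) * Real.exp (L / 2 * (1 - b) + k + σ * (q * (h + 1) + 1)) :=
        mul_le_mul_of_nonneg_right hR2 (Real.exp_pos _).le
    _ = Real.exp (((N : ℝ) + 2) / 999 + (L / 2 * (1 - b) + k + σ * (q * (h + 1) + 1))) := by
        rw [← Real.exp_add]
    _ ≤ _ := by
        rw [Real.exp_le_exp]
        have hb : (0 : ℝ) ≤ b := Nat.cast_nonneg b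
        have hh : (0 : ℝ) ≤ h := Nat.cast_nonneg h
        have hN : (0 : ℝ) ≤ N := Nat.cast_nonneg N
        have e1 : L / 2 * b ≥ 7 / 50 * b := mul_le_mul_of_nonneg_right (by linarith) hb
        have e2 : σ * q * (h + 1) ≤ (150 + 2 * σ) * (h + 1) :=
          mul_le_mul_of_nonneg_right h5 (by linarith)
        have e3 : 0 ≤ σ * h := mul_nonneg hσ.le hh
        nlinarith

end Pool.SC25
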