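import Pool.Agent.SC90.SumInt

set_option autoImplicit false

/-!
# SC25/SumInt: sums against integrals
-/

namespace Pool.SC25

theorem summable_pow_exp (n : ℕ) (σ : ℝ) (hσ : 0 < σ) :
    Summable fun m : ℕ => ((m : ℝ) + 1) ^ n * Real.exp (-(σ * m)) :=
  Pool.Agent.SC90.summable_succ n hσ

/-- `(m + 1)^n e^(-σ m) ≥ σ / (1 - e^(-σ)) * ∫_m^(m+1) x^n e^(-σ x) dx` (`x ≤ m + 1`), sum over `m` -/
theorem sum_ge (n : ℕ) (σ : ℝ) (hσ : 0 < σ) :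
    (n.factorial : ℝ) / (σ ^ n * (1 - Real.exp (-σ))) ≤
      ∑' m : ℕ, ((m : ℝ) + 1) ^ n * Real.exp (-(σ * m)) :=
  Pool.Agent.SC90.le_tsum_succ n hσ

/-- `(m + 1)^n e^(-σ m) ≤ e^σ σ / (1 - e^(-σ)) * ∫_(m+1)^(m+2) x^n e^(-σ x) dx` (`m + 1 ≤ x`) -/
theorem sum_le (n : ℕ) (σ : ℝ) (hσ : 0 < σ) :
    ∑' m : ℕ, ((m : ℝ) + 1) ^ n * Real.exp (-(σ * m)) ≤
      Real.exp σ * ((n.factorial : ℝ) / (σ ^ n * (1 - Real.exp (-σ)))) :=
  Pool.Agent.SC90.tsum_succ_le n hσ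

theorem shift_term (n H : ℕ) (σ : ℝ) (m : ℕ) :
    ((m : ℝ) + 1 + H) ^ n * Real.exp (-(σ * m)) =
      Real.exp (σ * H) * ((((m + H : ℕ) : ℝ) + 1) ^ n * Real.exp (-(σ * ((m + H : ℕ) : ℝ)))) := by
  have h1 : Real.exp (-(σ * m)) = Real.exp (σ * H) * Real.exp (-(σ * ((m + H : ℕ) : ℝ))) := by
    rw [← Real.exp_add]
    congr 1
    push_cast
    ring
  rw [h1]
  push_cast
  ring

theorem summable_shift (n H : ℕ) (σ : ℝ) (hσ : 0 < σ) :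
    Summable fun m : ℕ => ((m : ℝ) + 1 + H) ^ n * Real.exp (-(σ * m)) := by
  have h1 := ((summable_nat_add_iff H).2 (summable_pow_exp n σ hσ)).mul_left (Real.exp (σ * H))
  exact h1.congr (fun m => (shift_term n H σ m).symm)

/-- the shifted sum: `k = m + H` -/
theorem sum_shift_le (n H : ℕ) (σ : ℝ) (hσ : 0 < σ) :
    ∑' m : ℕ, ((m : ℝ) + 1 + H) ^ n * Real.exp (-(σ * m)) ≤
      Real.exp (σ * (H + 1)) * ((n.factorial : ℝ) / (σ ^ n * (1 - Real.exp (-σ)))) := by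
  have h0 := summable_pow_exp n σ hσ
  have h1 : ∑' m : ℕ, ((m : ℝ) + 1 + H) ^ n * Real.exp (-(σ * m)) =
      Real.exp (σ * H) * ∑' m : ℕ, ((((m + H : ℕ) : ℝ) + 1) ^ n *
        Real.exp (-(σ * ((m + H : ℕ) : ℝ)))) := by
    rw [← tsum_mul_left]
    exact tsum_congr (fun m => shift_term n H σ m)
  have h2 : ∑' m : ℕ, ((((m + H : ℕ) : ℝ) + 1) ^ n * Real.exp (-(σ * ((m + H : ℕ) : ℝ)))) ≤
      ∑' m : ℕ, ((m : ℝ) + 1) ^ n * Real.exp (-(σ * m)) := by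
    rw [← h0.sum_add_tsum_nat_add H]
    have h3 : 0 ≤ ∑ i ∈ Finset.range H, ((i : ℝ) + 1) ^ n * Real.exp (-(σ * i)) :=
      Finset.sum_nonneg (fun i _ => by positivity)
    linarith
  have h4 := sum_le n σ hσ
  rw [h1, show σ * ((H : ℝ) + 1) = σ * H + σ by ring, Real.exp_add, mul_assoc]
  exact mul_le_mul_of_nonneg_left (h2.trans h4) (Real.exp_pos _).le

end Pool.SC25
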