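import Pool.Agent.SC25.Gen
import Pool.Agent.SC25.Cnt
import Pool.Agent.SC25.SumInt
import Pool.Agent.SC25.StarN

set_option autoImplicit false

/-!
# SC25/Star: many bad windows are rare in every tilt (STUB)
-/

namespace Pool.SC25

open Pool.HB45 Pool.HM63 Pool.PH43

/-- `(1 - e^(-x)) / x` decreases -/
theorem ps_anti {σ' σ : ℝ} (h0 : 0 < σ') (h : σ' ≤ σ) : ps σ ≤ ps σ' := by
  have hσ : 0 < σ := h0.trans_le h
  have hc := convexOn_exp.2 (Set.mem_univ (0 : ℝ)) (Set.mem_univ (-σ))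
    (show 0 ≤ 1 - σ' / σ by rw [sub_nonneg, div_le_one hσ]; exact h)
    (show 0 ≤ σ' / σ by positivity) (by ring)
  have e1 : (1 - σ' / σ) • (0 : ℝ) + (σ' / σ) • (-σ) = -σ' := by
    rw [smul_eq_mul, smul_eq_mul]
    field_simp
    ring
  rw [e1, smul_eq_mul, smul_eq_mul, Real.exp_zero] at hc
  unfold ps
  rw [div_le_div_iff₀ hσ h0]
  have h2 : σ' / σ * (1 - Real.exp (-σ)) ≤ 1 - Real.exp (-σ') := by linarith
  calc (1 - Real.exp (-σ)) * σ' = σ * (σ' / σ * (1 - Real.exp (-σ))) := by field_simp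
    _ ≤ σ * (1 - Real.exp (-σ')) := mul_le_mul_of_nonneg_left h2 hσ.le
    _ = (1 - Real.exp (-σ')) * σ := mul_comm _ _

open Classical in
/-- the sum with a general `q`. PROOF. `L = log (4/3)`, `k = L / (2 q)`, `σ' = σ - k`, `H = q (h + 1)`; `gen` with
`G g = (b ≤ nbad g)`, `cnt` for `M + 1`:
`∑_bad r^des = (1-r)^(N+2) ∑_M r^M #(...) ≤ e (1-r)^(N+2)/(N+1)! * e^(L/2 + k - L b/2) ∑_M e^(-σ' M) (M+1+H)^(N+1)`
and `sum_shift_le`; `(1 - e^(-σ)) / (1 - e^(-σ')) ≤ σ / σ'` by `ps_anti`. -/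
theorem star_q {N h m' : ℕ} {Q : Rel (N + 1)} {κ lab : Fin (N + 1) → ℕ} (hκ : Lev h Q κ)
    (hn : Nat' Q lab) (hm : m' * (3 + 2) ≤ N + 1) (q : ℕ) (hq : 2 ≤ q) (b : ℕ) (σ : ℝ)
    (hσ : Real.log (4 / 3) / (2 * q) < σ) :
    ∑ g ∈ (LE Q).filter (fun g => b ≤ nbad hm Q g), Real.exp (-σ) ^ des lab g ≤
      (LE Q).card * ps σ ^ (N + 1) * (σ / (σ - Real.log (4 / 3) / (2 * q))) ^ (N + 2) *
        Real.exp (Real.log (4 / 3) / 2 * (1 - b) + Real.log (4 / 3) / (2 * q) + σ * (q * (h + 1) + 1)) := by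
  have hq0 : (0 : ℝ) < q := by exact_mod_cast (show 0 < q by omega)
  set L := Real.log (4 / 3) with hL
  have hL0 : 0 ≤ L := Real.log_nonneg (by norm_num)
  set k := L / (2 * q) with hk
  have hk0 : 0 ≤ k := by positivity
  set s := σ - k with hs
  have hs0 : 0 < s := sub_pos.2 hσ
  have hσ0 : 0 < σ := hk0.trans_lt hσ
  have hsσ : s ≤ σ := by rw [hs]; linarith
  have hf : (0 : ℝ) < ((N + 1).factorial : ℝ) := by exact_mod_cast Nat.factorial_pos _
  have hr1 : Real.exp (-σ) < 1 := by rw [Real.exp_lt_one_iff]; linarith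
  have hr1' : Real.exp (-s) < 1 := by rw [Real.exp_lt_one_iff]; linarith
  have hD : 0 < 1 - Real.exp (-σ) := by linarith
  have hD' : 0 < 1 - Real.exp (-s) := by linarith
  set S := ∑ g ∈ (LE Q).filter (fun g => b ≤ nbad hm Q g), Real.exp (-σ) ^ des lab g with hS
  have hg : HasSum (fun M : ℕ => Real.exp (-σ) ^ M *
      (((Mp Q (M + 1)).filter fun f => b ≤ nbad hm Q (wd lab fun i => (f i).val)).card : ℝ))
      (S / (1 - Real.exp (-σ)) ^ (N + 2)) := by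
    convert gen hn (fun g => b ≤ nbad hm Q g) (Real.exp (-σ)) (Real.exp_pos _).le hr1
  set C := ((LE Q).card : ℝ) / ((N + 1).factorial : ℝ) * Real.exp (L / 2 * (1 - b) + k) with hC
  have hC0 : 0 ≤ C := by positivity
  have hb := (summable_shift (N + 1) (q * (h + 1)) s hs0).hasSum.mul_left C
  have hle := hasSum_le (fun M => by
    have h2 := cnt hκ hn hm q hq b (M + 1)
    rw [← le_div_iff₀ hf] at h2
    have h3 : Real.exp (-σ) ^ M * Real.exp (L / 2 * (((M + 1 : ℕ) : ℝ) / q + 1 - b)) =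
        Real.exp (L / 2 * (1 - b) + k) * Real.exp (-(s * M)) := by
      rw [← Real.exp_nat_mul, ← Real.exp_add, ← Real.exp_add]
      congr 1
      rw [hs, hk]
      push_cast
      field_simp
      ring
    show Real.exp (-σ) ^ M *
        (((Mp Q (M + 1)).filter fun f => b ≤ nbad hm Q (wd lab fun i => (f i).val)).card : ℝ) ≤
      C * ((((M : ℕ) : ℝ) + 1 + ((q * (h + 1) : ℕ) : ℝ)) ^ (N + 1) * Real.exp (-(s * M)))
    calc Real.exp (-σ) ^ M *
          (((Mp Q (M + 1)).filter fun f => b ≤ nbad hm Q (wd lab fun i => (f i).val)).card : ℝ)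
        ≤ Real.exp (-σ) ^ M * ((LE Q).card * (((M + 1 : ℕ) : ℝ) + q * (h + 1)) ^ (N + 1) *
          Real.exp (L / 2 * (((M + 1 : ℕ) : ℝ) / q + 1 - b)) / ((N + 1).factorial : ℝ)) :=
          mul_le_mul_of_nonneg_left h2 (by positivity)
      _ = ((LE Q).card : ℝ) / ((N + 1).factorial : ℝ) *
          (((M + 1 : ℕ) : ℝ) + q * (h + 1)) ^ (N + 1) *
          (Real.exp (-σ) ^ M * Real.exp (L / 2 * (((M + 1 : ℕ) : ℝ) / q + 1 - b))) := by ring
      _ = _ := by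
          rw [h3, hC]
          push_cast
          ring) hg hb
  have hge := sum_shift_le (N + 1) (q * (h + 1)) s hs0
  have h4 : S / (1 - Real.exp (-σ)) ^ (N + 2) ≤
      C * (Real.exp (s * (((q * (h + 1) : ℕ) : ℝ) + 1)) *
        (((N + 1).factorial : ℝ) / (s ^ (N + 1) * (1 - Real.exp (-s))))) :=
    hle.trans (mul_le_mul_of_nonneg_left hge hC0)
  rw [div_le_iff₀ (by positivity)] at h4
  have hps : ps σ ≤ ps s := ps_anti hs0 hsσ
  have h5 : (1 - Real.exp (-σ)) / (1 - Real.exp (-s)) ≤ σ / s := by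
    unfold ps at hps
    rw [div_le_div_iff₀ hσ0 hs0] at hps
    rw [div_le_div_iff₀ hD' hs0]
    linarith
  have h6 : Real.exp (s * (((q * (h + 1) : ℕ) : ℝ) + 1)) ≤ Real.exp (σ * (q * (h + 1) + 1)) := by
    apply Real.exp_le_exp.2
    push_cast
    exact mul_le_mul_of_nonneg_right hsσ (by positivity)
  calc S ≤ C * (Real.exp (s * (((q * (h + 1) : ℕ) : ℝ) + 1)) *
        (((N + 1).factorial : ℝ) / (s ^ (N + 1) * (1 - Real.exp (-s))))) *
          (1 - Real.exp (-σ)) ^ (N + 2) := h4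
    _ = (LE Q).card * ps σ ^ (N + 1) * ((σ / s) ^ (N + 1) *
          ((1 - Real.exp (-σ)) / (1 - Real.exp (-s)))) *
        (Real.exp (L / 2 * (1 - b) + k) * Real.exp (s * (((q * (h + 1) : ℕ) : ℝ) + 1))) := by
        rw [hC]
        unfold ps
        rw [div_pow, div_pow]
        field_simp
        ring
    _ ≤ (LE Q).card * ps σ ^ (N + 1) * ((σ / s) ^ (N + 1) * (σ / s)) *
        (Real.exp (L / 2 * (1 - b) + k) * Real.exp (σ * (q * (h + 1) + 1))) := by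
        have hps0 : 0 ≤ ps σ := div_nonneg hD.le hσ0.le
        gcongr
    _ = _ := by
        rw [← Real.exp_add, ← pow_succ]

open Classical in
/-- STAR. PROOF. `q = ⌈150 / σ⌉ + 1`: `L/(2q) ≤ σ/1000` (`L ≤ 0.2877`), `L/2 ≥ 7/50`,
`(σ/(σ - k))^(N+2) ≤ exp ((N + 2)/999)`, `σ q ≤ 150 + 2 σ`. -/
theorem star {N h m' : ℕ} (hh : 1 ≤ h) {Q : Rel (N + 1)} {κ lab : Fin (N + 1) → ℕ} (hκ : Lev h Q κ)
    (hn : Nat' Q lab) (hm : m' * (3 + 2) ≤ N + 1) (b : ℕ) (σ : ℝ) (hσ : 0 < σ) :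
    ∑ g ∈ (LE Q).filter (fun g => b ≤ nbad hm Q g), Real.exp (-σ) ^ des lab g ≤
      (LE Q).card * ps σ ^ (N + 1) *
        Real.exp ((150 + 3 * σ) * (h + 1) + 1 + (N + 1) / 900 - 7 / 50 * b) := by
  obtain ⟨hq2, hk, hnum⟩ := star_num N h b (⌈150 / σ⌉₊ + 1) σ hσ rfl
  refine (star_q hκ hn hm (⌈150 / σ⌉₊ + 1) hq2 b σ hk).trans ?_
  rw [mul_assoc (((LE Q).card : ℝ) * ps σ ^ (N + 1))]
  have hps : 0 ≤ ps σ := by
    unfold ps
    apply div_nonneg _ hσ.le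
    have : Real.exp (-σ) ≤ 1 := by
      rw [Real.exp_le_one_iff]
      linarith
    linarith
  exact mul_le_mul_of_nonneg_left hnum (by positivity)

end Pool.SC25
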