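import Pool.Agent.SC25.ConcU5

set_option autoImplicit false

/-!
# SC25/Conc: concentration
-/

namespace Pool.SC25

open Pool.HB45 Pool.HM63 Pool.PH43

open Classical in
/-- upper tail. PROOF. `l = x sc² / (2 (N+1)) ≤ σ/2`; on the set `r^des ≤ e^(-(σ - l) des) e^(-l ((N+1) mn + x))`; `sand_upper` at
`σ - l`, `ps_shift` with `-l`, `sand_lower`: exponent `-l x + (N+1) l²/sc² + σ (h+1) = σ (h+1) - x² sc²/(4 (N+1)) ≤ -2`. -/
theorem tail_up {N h : ℕ} (hh : 1 ≤ h) {Q : Rel (N + 1)} {κ lab : Fin (N + 1) → ℕ} (hκ : Lev h Q κ)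
    (hn : Nat' Q lab) (σ x : ℝ) (hσ : 0 < σ) (hx0 : 0 ≤ x)
    (hx : x ^ 2 * sc σ ^ 2 = 4 * (N + 1) * (3 / 2 * σ * (h + 1) + 2))
    (hx' : x * sc σ ^ 2 ≤ (N + 1) * σ) :
    ∑ g ∈ (LE Q).filter (fun g => (N + 1) * mn σ + x ≤ (des lab g : ℝ)), Real.exp (-σ) ^ des lab g ≤
      Real.exp (-2) * Wr Q lab (Real.exp (-σ)) := by
  exact tail_upS hκ hn σ x hσ hx0 hx hx'

open Classical in
/-- lower tail. PROOF. The same with `σ + l`: `(σ + l) (h + 1) ≤ (3/2) σ (h + 1)`. -/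
theorem tail_down {N h : ℕ} (hh : 1 ≤ h) {Q : Rel (N + 1)} {κ lab : Fin (N + 1) → ℕ} (hκ : Lev h Q κ)
    (hn : Nat' Q lab) (σ x : ℝ) (hσ : 0 < σ) (hx0 : 0 ≤ x)
    (hx : x ^ 2 * sc σ ^ 2 = 4 * (N + 1) * (3 / 2 * σ * (h + 1) + 2))
    (hx' : x * sc σ ^ 2 ≤ (N + 1) * σ) :
    ∑ g ∈ (LE Q).filter (fun g => (des lab g : ℝ) ≤ (N + 1) * mn σ - x), Real.exp (-σ) ^ des lab g ≤
      Real.exp (-2) * Wr Q lab (Real.exp (-σ)) := by
  exact tail_downS hκ hn σ x hσ hx0 hx hx'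

/-- lower bound for `w_j` when `w` increases up to `j = (N+1) mn σ + x`. PROOF. The words with `j - 2x < des < j` carry at
least half of `W` (`tail_up`, `tail_down`, `2 e^(-2) ≤ 1/2`); there are at most `2 x + 1 ≤ 3 (N + 1)` such levels `i`
(`x ≤ N + 1` by `hx'`), and `w_i r^i ≤ w_j r^(j - 2x)`. -/
theorem lower_w {N h j : ℕ} (hh : 1 ≤ h) {Q : Rel (N + 1)} {κ lab : Fin (N + 1) → ℕ} (hκ : Lev h Q κ)
    (hn : Nat' Q lab) (σ x : ℝ) (hσ : 0 < σ) (hx0 : 0 ≤ x)
    (hx : x ^ 2 * sc σ ^ 2 = 4 * (N + 1) * (3 / 2 * σ * (h + 1) + 2))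
    (hx' : x * sc σ ^ 2 ≤ (N + 1) * σ) (hj : (j : ℝ) = (N + 1) * mn σ + x)
    (hinc : ∀ i ≤ j, w Q lab i ≤ w Q lab j) :
    Wr Q lab (Real.exp (-σ)) * Real.exp (-(2 * σ * x)) ≤
      6 * (N + 1) * (w Q lab j * Real.exp (-σ) ^ j) := by
  classical
  have hr0 : 0 < Real.exp (-σ) := Real.exp_pos _
  have hpow : ∀ i : ℕ, Real.exp (-σ) ^ i = Real.exp (-(σ * i)) := by
    intro i
    rw [← Real.exp_nat_mul]
    congr 1
    ring
  have h1 := tail_up hh hκ hn σ x hσ hx0 hx hx'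
  have h2 := tail_down hh hκ hn σ x hσ hx0 hx hx'
  have hj2 : (N + 1) * mn σ - x = j - 2 * x := by rw [hj]; ring
  rw [← hj] at h1
  rw [hj2] at h2
  obtain ⟨S, hS⟩ : ∃ S : Finset (Equiv.Perm (Fin (N + 1))), S = (LE Q).filter
    (fun g => (j : ℝ) - 2 * x < (des lab g : ℝ) ∧ (des lab g : ℝ) < j) := ⟨_, rfl⟩
  -- the middle part carries half
  have h3 : Wr Q lab (Real.exp (-σ)) ≤
      ∑ g ∈ (LE Q).filter (fun g => (j : ℝ) ≤ (des lab g : ℝ)), Real.exp (-σ) ^ des lab g +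
      ∑ g ∈ (LE Q).filter (fun g => (des lab g : ℝ) ≤ (j : ℝ) - 2 * x), Real.exp (-σ) ^ des lab g +
      ∑ g ∈ S, Real.exp (-σ) ^ des lab g := by
    unfold Wr
    rw [hS, Finset.sum_filter, Finset.sum_filter, Finset.sum_filter, ← Finset.sum_add_distrib,
      ← Finset.sum_add_distrib]
    apply Finset.sum_le_sum
    intro g _
    have h4 : 0 < Real.exp (-σ) ^ des lab g := pow_pos hr0 _
    by_cases ha : (j : ℝ) ≤ (des lab g : ℝ)
    · rw [if_pos ha]
      have : 0 ≤ (if (des lab g : ℝ) ≤ (j : ℝ) - 2 * x then Real.exp (-σ) ^ des lab g else 0) := by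
        split_ifs <;> linarith
      have : 0 ≤ (if (j : ℝ) - 2 * x < (des lab g : ℝ) ∧ (des lab g : ℝ) < j then
          Real.exp (-σ) ^ des lab g else 0) := by
        split_ifs <;> linarith
      linarith
    · rw [if_neg ha]
      by_cases hb : (des lab g : ℝ) ≤ (j : ℝ) - 2 * x
      · rw [if_pos hb]
        have : 0 ≤ (if (j : ℝ) - 2 * x < (des lab g : ℝ) ∧ (des lab g : ℝ) < j then
            Real.exp (-σ) ^ des lab g else 0) := by
          split_ifs <;> linarith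
        linarith
      · rw [if_neg hb, if_pos ⟨not_le.1 hb, not_le.1 ha⟩]
        linarith
  have he2 : Real.exp (-2) ≤ 1 / 4 := by
    have h5 : (1 + 1 : ℝ) ≤ Real.exp 1 := Real.add_one_le_exp 1
    have h6 : Real.exp 2 = Real.exp 1 * Real.exp 1 := by rw [← Real.exp_add]; norm_num
    rw [Real.exp_neg, h6, one_div]
    apply inv_anti₀ (by norm_num)
    nlinarith
  have hW0 : 0 ≤ Wr Q lab (Real.exp (-σ)) := Finset.sum_nonneg fun g _ => (pow_pos hr0 _).le
  have h5 : Real.exp (-2) * Wr Q lab (Real.exp (-σ)) ≤ 1 / 4 * Wr Q lab (Real.exp (-σ)) :=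
    mul_le_mul_of_nonneg_right he2 hW0
  -- the number of words in the middle part
  have hcard : S.card ≤ w Q lab j * (N + 1) := by
    have h6 : S.card ≤ w Q lab j * (S.image (des lab)).card := by
      apply Finset.card_le_mul_card_image
      intro i hi
      obtain ⟨g, hg, rfl⟩ := Finset.mem_image.1 hi
      rw [hS, Finset.mem_filter] at hg
      have h7 : des lab g ≤ j := by exact_mod_cast hg.2.2.le
      refine le_trans (Finset.card_le_card ?_) (hinc _ h7)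
      intro g' hg'
      rw [Finset.mem_filter, hS, Finset.mem_filter] at hg'
      rw [Finset.mem_filter]
      exact ⟨hg'.1.1, hg'.2⟩
    have h8 : (S.image (des lab)).card ≤ N + 1 := by
      have h9 : S.image (des lab) ⊆ Finset.range (N + 1) := by
        intro i hi
        obtain ⟨g, hg, rfl⟩ := Finset.mem_image.1 hi
        rw [Finset.mem_range]
        have h10 : des lab g ≤ N := by
          unfold des
          exact (Finset.card_le_univ _).trans (by rw [Fintype.card_fin])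
        omega
      have := Finset.card_le_card h9
      rwa [Finset.card_range] at this
    exact h6.trans (Nat.mul_le_mul_left _ h8)
  have h11 : ∑ g ∈ S, Real.exp (-σ) ^ des lab g ≤
      (w Q lab j * (N + 1)) * Real.exp (-(σ * ((j : ℝ) - 2 * x))) := by
    have h12 : ∑ g ∈ S, Real.exp (-σ) ^ des lab g ≤
        ∑ g ∈ S, Real.exp (-(σ * ((j : ℝ) - 2 * x))) := by
      apply Finset.sum_le_sum
      intro g hg
      rw [hS, Finset.mem_filter] at hg
      rw [hpow]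
      apply Real.exp_le_exp.2
      have := mul_le_mul_of_nonneg_left hg.2.1.le hσ.le
      linarith
    rw [Finset.sum_const, nsmul_eq_mul] at h12
    refine h12.trans (mul_le_mul_of_nonneg_right ?_ (Real.exp_pos _).le)
    exact_mod_cast hcard
  have h13 : Real.exp (-(σ * ((j : ℝ) - 2 * x))) * Real.exp (-(2 * σ * x)) =
      Real.exp (-σ) ^ j := by
    rw [← Real.exp_add, hpow]
    congr 1
    ring
  have h14 : Wr Q lab (Real.exp (-σ)) ≤
      2 * ((w Q lab j * (N + 1)) * Real.exp (-(σ * ((j : ℝ) - 2 * x)))) := by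
    linarith
  have h15 := mul_le_mul_of_nonneg_right h14 (Real.exp_pos (-(2 * σ * x))).le
  have h16 : 2 * ((w Q lab j * (N + 1)) * Real.exp (-(σ * ((j : ℝ) - 2 * x)))) *
      Real.exp (-(2 * σ * x)) = 2 * (N + 1) * (w Q lab j * Real.exp (-σ) ^ j) := by
    rw [← h13]
    ring
  rw [h16] at h15
  refine h15.trans ?_
  apply mul_le_mul_of_nonneg_right _ (mul_nonneg (Nat.cast_nonneg _) (pow_pos hr0 _).le)
  have : (0 : ℝ) ≤ N := Nat.cast_nonneg _
  linarith

end Pool.SC25
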