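import Pool.Agent.SC25.Num
import Pool.Agent.SC25.Conc
import Pool.Agent.SC25.Star
import Pool.Agent.SC25.FlipE2
import Pool.Agent.SC25.Det

set_option autoImplicit false

namespace Pool.SC25

open Pool.HB45 Pool.HM63 Pool.PH43

open Classical in
theorem bad_all {N h m b j : ℕ} (hh : 1 ≤ h) (hm : m * (3 + 2) ≤ N + 1) {Q : Rel (N + 1)}
    {κ lab : Fin (N + 1) → ℕ} (hκ : Lev h Q κ) (hn : Nat' Q lab) (σ : ℝ) (hσ : 0 < σ)
    (hb : b ≤ m) :
    (((LE Q).filter fun g => des lab g = j ∧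
        (upT Q lab (Tw hm) g).card ≤ (dnT Q lab (Tw hm) g).card + 1).card : ℝ) *
        Real.exp (-σ) ^ j ≤
      Real.exp (σ / 2) * (Wr Q lab (Real.exp (-σ)) *
        (1 - (1 - 2 * Real.sqrt (Real.exp (-σ)) / (1 + Real.exp (-σ))) * Real.exp (-σ) ^ 2 / 24) ^
          (m - b) +
      (LE Q).card * ps σ ^ (N + 1) *
        Real.exp ((150 + 3 * σ) * (h + 1) + 1 + (N + 1) / 900 - 7 / 50 * b)) := by
  set r : ℝ := Real.exp (-σ) with hr
  have hr0 : 0 < r := Real.exp_pos _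
  have hr1 : r ≤ 1 := by rw [hr, Real.exp_le_one_iff]; linarith
  set c : ℝ := 2 * Real.sqrt r / (1 + r) with hc
  have hc0 : 0 ≤ c := by positivity
  have hsq : Real.sqrt r * Real.sqrt r = r := Real.mul_self_sqrt hr0.le
  have hc1 : c ≤ 1 := by
    rw [hc, div_le_one (by positivity)]
    nlinarith [sq_nonneg (Real.sqrt r - 1)]
  set η : ℝ := 1 - (1 - c) * r ^ 2 / 24 with hη
  have hr2 : r ^ 2 ≤ 1 := pow_le_one₀ hr0.le hr1
  have hprod : (1 - c) * r ^ 2 ≤ 1 := by nlinarith [sq_nonneg r]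
  have hprod0 : 0 ≤ (1 - c) * r ^ 2 := mul_nonneg (by linarith) (sq_nonneg r)
  have hη0 : 0 ≤ η := by rw [hη]; linarith
  have hη1 : η ≤ 1 := by rw [hη]; linarith
  -- the bad words of level `j`
  have h1 : (((LE Q).filter fun g => des lab g = j ∧
        (upT Q lab (Tw hm) g).card ≤ (dnT Q lab (Tw hm) g).card + 1).card : ℝ) * r ^ j ≤
      ∑ g ∈ (LE Q).filter (fun g => (upT Q lab (Tw hm) g).card ≤ (dnT Q lab (Tw hm) g).card + 1),
        r ^ des lab g := by
    rw [← nsmul_eq_mul, ← Finset.sum_const]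
    have h2 : ∑ g ∈ (LE Q).filter (fun g => des lab g = j ∧
        (upT Q lab (Tw hm) g).card ≤ (dnT Q lab (Tw hm) g).card + 1), r ^ j =
        ∑ g ∈ (LE Q).filter (fun g => des lab g = j ∧
        (upT Q lab (Tw hm) g).card ≤ (dnT Q lab (Tw hm) g).card + 1), r ^ des lab g := by
      refine Finset.sum_congr rfl fun g hg => ?_
      rw [(Finset.mem_filter.mp hg).2.1]
    rw [h2]
    refine Finset.sum_le_sum_of_subset_of_nonneg ?_ fun g _ _ => (pow_pos hr0 _).le
    intro g hg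
    rw [Finset.mem_filter] at hg ⊢
    exact ⟨hg.1, hg.2.2⟩
  have h3 := flip_exp (Q := Q) (lab := lab) (sep_Tw hm) r hr0 hr1
  have h4 := all_win hm hn r c hr0 hr1 hc0 hc1
  have h5 := star hh hκ hn hm b σ hσ
  have h6 : ∑ g ∈ LE Q, r ^ des lab g * η ^ (m - nbad hm Q g) ≤
      Wr Q lab r * η ^ (m - b) + ∑ g ∈ (LE Q).filter (fun g => b ≤ nbad hm Q g), r ^ des lab g := by
    unfold Wr
    rw [Finset.sum_mul, Finset.sum_filter, ← Finset.sum_add_distrib]
    refine Finset.sum_le_sum fun g _ => ?_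
    have hp : 0 < r ^ des lab g := pow_pos hr0 _
    by_cases hg : b ≤ nbad hm Q g
    · rw [if_pos hg]
      have h7 : η ^ (m - nbad hm Q g) ≤ 1 := pow_le_one₀ hη0 hη1
      have h8 : 0 ≤ η ^ (m - b) := pow_nonneg hη0 _
      nlinarith [mul_nonneg hp.le h8]
    · rw [if_neg hg, add_zero]
      refine mul_le_mul_of_nonneg_left ?_ hp.le
      exact pow_le_pow_of_le_one hη0 hη1 (by omega)
  have h9 : Real.sqrt r * (((LE Q).filter fun g => des lab g = j ∧
        (upT Q lab (Tw hm) g).card ≤ (dnT Q lab (Tw hm) g).card + 1).card * r ^ j : ℝ) ≤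
      Wr Q lab r * η ^ (m - b) + (LE Q).card * ps σ ^ (N + 1) *
        Real.exp ((150 + 3 * σ) * (h + 1) + 1 + (N + 1) / 900 - 7 / 50 * b) := by
    have h10 := mul_le_mul_of_nonneg_left h1 (Real.sqrt_nonneg r)
    have h11 : ∑ g ∈ (LE Q).filter (fun g => b ≤ nbad hm Q g), r ^ des lab g ≤ _ := h5
    linarith
  have h12 : Real.exp (σ / 2) * Real.sqrt r = 1 := by
    have : Real.sqrt r = Real.exp (-σ / 2) := by
      rw [hr, Real.sqrt_eq_iff_mul_self_eq (Real.exp_pos _).le (Real.exp_pos _).le, ← Real.exp_add]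
      congr 1
      ring
    rw [this, ← Real.exp_add]
    have : σ / 2 + -σ / 2 = 0 := by ring
    rw [this, Real.exp_zero]
  calc _ = Real.exp (σ / 2) * (Real.sqrt r * (((LE Q).filter fun g => des lab g = j ∧
        (upT Q lab (Tw hm) g).card ≤ (dnT Q lab (Tw hm) g).card + 1).card * r ^ j : ℝ)) := by
        rw [← mul_assoc, h12, one_mul]
    _ ≤ _ := mul_le_mul_of_nonneg_left h9 (Real.exp_pos _).le

end Pool.SC25
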