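import Pool.Agent.SC25.PsiR

set_option autoImplicit false

/-!
# SC25/TiltA: choice of the tilt
-/

namespace Pool.SC25

/-- the width -/
noncomputable def wx (n h σ : ℝ) : ℝ := 2 * Real.sqrt (n * (3 / 2 * σ * (h + 1) + 2)) / sc σ

/-- the conditions on the tilt -/
structure Tilt (n h j K σ : ℝ) : Prop where
  lo : K * Real.sqrt (Real.log n / n) ≤ σ
  hi : σ ≤ 14 * h
  eq : j = n * mn σ + wx n h σ
  le : wx n h σ * sc σ ^ 2 ≤ n * σ

theorem sc_pos' (σ : ℝ) : 0 < sc σ := lt_of_lt_of_le one_pos (one_le_sc σ)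

theorem wx_nonneg (n h σ : ℝ) : 0 ≤ wx n h σ := by
  unfold wx
  have := sc_pos' σ
  positivity

theorem wx_continuous (n h : ℝ) : Continuous (wx n h) := by
  unfold wx
  apply Continuous.div
  · fun_prop
  · unfold sc
    fun_prop
  · intro σ
    exact (sc_pos' σ).ne'

/-- PROOF. IVT for `σ ↦ n mn σ + wx n h σ` on `[K √(log n/n), 14 h]`. At the left end it is
`≥ n (1/2 - σ/4) ≥ j` (`mn_ge`); at `14 h` it is `≤ n/(14h) + 2 √(n (21 h (h+1) + 2))/(14h) ≤ n/(14h) + 0.95 √n ≤ n/(7h) ≤ j`.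
`le`: `wx * sc² = 2 sc √(n (…)) ≤ n σ` iff `4 sc² (3/2 σ (h+1) + 2) ≤ n σ²`: for `σ ≥ 1` the left side is `≤ 176 h² σ²`; for
`σ ≤ 1` use `n σ ≥ K √(n log n) ≥ K³ h` and `n σ² ≥ K²`. -/
theorem exists_tilt25 : ∃ K0 : ℝ, ∀ K ≥ K0, ∀ n h j : ℝ, 3 ≤ n → 1 ≤ h →
    K ^ 4 * h ^ 2 * Real.log n ≤ n → n ≤ 7 * h * j →
    j ≤ n / 2 - K / 4 * Real.sqrt (n * Real.log n) → ∃ σ, Tilt n h j K σ := by
  refine ⟨4, fun K hK n h j hn hh hKn hj1 hj2 => ?_⟩
  have hn0 : 0 < n := by linarith
  have hL : 1 ≤ Real.log n := by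
    rw [Real.le_log_iff_exp_le hn0]
    have := Real.exp_one_lt_d9
    linarith
  obtain ⟨u, hu⟩ : ∃ u, u = Real.sqrt (Real.log n) := ⟨_, rfl⟩
  obtain ⟨s, hs⟩ : ∃ s, s = Real.sqrt n := ⟨_, rfl⟩
  have hu0 : 0 < u := by rw [hu]; exact Real.sqrt_pos.mpr (by linarith)
  have hs0 : 0 < s := by rw [hs]; exact Real.sqrt_pos.mpr hn0
  have hu2 : u ^ 2 = Real.log n := by rw [hu]; exact Real.sq_sqrt (by linarith)
  have hs2 : s ^ 2 = n := by rw [hs]; exact Real.sq_sqrt hn0.le
  have hu1 : 1 ≤ u ^ 2 := by rw [hu2]; exact hL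
  have hq : Real.sqrt (Real.log n / n) = u / s := by
    rw [Real.sqrt_div (by linarith), hu, hs]
  have hp : Real.sqrt (n * Real.log n) = s * u := by
    rw [Real.sqrt_mul hn0.le, hu, hs]
  have hK2 : 16 ≤ K ^ 2 := by
    have := pow_le_pow_left₀ (by norm_num : (0 : ℝ) ≤ 4) hK 2
    norm_num at this
    exact this
  have hK3 : 64 ≤ K ^ 3 := by
    have := pow_le_pow_left₀ (by norm_num : (0 : ℝ) ≤ 4) hK 3
    norm_num at this
    exact this
  have hK0 : 0 < K := by linarith
  have hsK : K ^ 2 * h * u ≤ s := by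
    have h1 : (K ^ 2 * h * u) ^ 2 ≤ s ^ 2 := by
      rw [hs2]
      calc (K ^ 2 * h * u) ^ 2 = K ^ 4 * h ^ 2 * u ^ 2 := by ring
        _ = K ^ 4 * h ^ 2 * Real.log n := by rw [hu2]
        _ ≤ n := hKn
    exact (pow_le_pow_iff_left₀ (by positivity) hs0.le two_ne_zero).mp h1
  have hu1' : 1 ≤ u := (one_le_sq_iff₀ hu0.le).mp hu1
  have hs16 : 16 * h ≤ s := by
    have h1 : 16 * h ≤ K ^ 2 * h := mul_le_mul_of_nonneg_right hK2 (by linarith)
    have h2 : K ^ 2 * h ≤ K ^ 2 * h * u := le_mul_of_one_le_right (by positivity) hu1'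
    linarith
  have hKu : K * u ≤ s := by
    have h1 : K * u ≤ K ^ 2 * h * u := by
      have : K ≤ K ^ 2 * h := by
        have e1 : 1 ≤ K * h := one_le_mul_of_one_le_of_one_le (by linarith) hh
        calc K = K * 1 := (mul_one K).symm
          _ ≤ K * (K * h) := mul_le_mul_of_nonneg_left e1 hK0.le
          _ = K ^ 2 * h := by ring
      exact mul_le_mul_of_nonneg_right this hu0.le
    linarith
  obtain ⟨a, ha⟩ : ∃ a, a = K * (u / s) := ⟨_, rfl⟩
  have has : a * s = K * u := by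
    rw [ha]
    field_simp
  have ha0 : 0 < a := by
    rw [ha]
    positivity
  have ha1 : a ≤ 1 := by
    by_contra hcon
    push Not at hcon
    have := mul_lt_mul_of_pos_right hcon hs0
    linarith
  have hab : a ≤ 14 * h := by linarith
  have hcont : ContinuousOn (fun σ => n * mn σ + wx n h σ) (Set.Icc a (14 * h)) := by
    apply ContinuousOn.add
    · exact continuousOn_const.mul (mn_continuousOn.mono fun x hx => lt_of_lt_of_le ha0 hx.1)
    · exact (wx_continuous n h).continuousOn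
  have hfa : j ≤ n * mn a + wx n h a := by
    have h1 := mn_ge ha0
    have h2 := wx_nonneg n h a
    have h3 : n * (1 / 2 - a / 4) ≤ n * mn a := mul_le_mul_of_nonneg_left h1 hn0.le
    have h4 : n * a = s * (K * u) := by rw [← hs2, ← has]; ring
    have h5 : n * (1 / 2 - a / 4) = n / 2 - K / 4 * (s * u) := by
      calc n * (1 / 2 - a / 4) = n / 2 - n * a / 4 := by ring
        _ = n / 2 - K / 4 * (s * u) := by rw [h4]; ring
    rw [hp] at hj2
    linarith
  have hfb : n * mn (14 * h) + wx n h (14 * h) ≤ j := by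
    have h1 : n * mn (14 * h) ≤ n * (1 / (14 * h)) :=
      mul_le_mul_of_nonneg_left (mn_le (by linarith)) hn0.le
    have h2 : wx n h (14 * h) ≤ 2 * (s * (20 / 3 * h)) / (14 * h) := by
      unfold wx
      have hsc : sc (14 * h) = 14 * h := max_eq_right (by linarith)
      rw [hsc]
      apply div_le_div_of_nonneg_right _ (by positivity)
      apply mul_le_mul_of_nonneg_left _ (by norm_num)
      apply Real.sqrt_le_iff.mpr
      refine ⟨by positivity, ?_⟩
      have h3 : 3 / 2 * (14 * h) * (h + 1) + 2 ≤ (20 / 3 * h) ^ 2 := by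
        have e1 : h ≤ h ^ 2 := by
          rw [pow_two]
          exact le_mul_of_one_le_left (by positivity) hh
        have e2 : 3 / 2 * (14 * h) * (h + 1) + 2 = 21 * h ^ 2 + 21 * h + 2 := by ring
        have e3 : (20 / 3 * h) ^ 2 = 400 / 9 * h ^ 2 := by ring
        linarith
      calc n * (3 / 2 * (14 * h) * (h + 1) + 2) ≤ n * (20 / 3 * h) ^ 2 :=
            mul_le_mul_of_nonneg_left h3 hn0.le
        _ = (s * (20 / 3 * h)) ^ 2 := by rw [← hs2]; ring
    have h3 : 2 * (s * (20 / 3 * h)) / (14 * h) = 20 / 21 * s := by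
      field_simp
      ring
    have h4 : 20 / 21 * s ≤ n * (1 / (14 * h)) := by
      rw [mul_one_div, le_div_iff₀ (by positivity), ← hs2]
      have e1 := mul_le_mul_of_nonneg_left hs16 hs0.le
      have e2 : 20 / 21 * s * (14 * h) = 40 / 3 * (s * h) := by ring
      have e3 : s * (16 * h) = 16 * (s * h) := by ring
      have e4 : 0 ≤ s * h := by positivity
      rw [e2, pow_two]
      linarith
    have h5 : n * (1 / (14 * h)) + n * (1 / (14 * h)) ≤ j := by
      have : n * (1 / (14 * h)) + n * (1 / (14 * h)) = n / (7 * h) := by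
        field_simp
        norm_num
      rw [this, div_le_iff₀ (by positivity)]
      linarith
    rw [h3] at h2
    linarith
  obtain ⟨σ, hσ, hσj⟩ := intermediate_value_Icc' hab hcont ⟨hfb, hfa⟩
  refine ⟨σ, ?_, hσ.2, hσj.symm, ?_⟩
  · rw [hq, ← ha]
    exact hσ.1
  · have hσ0 : 0 < σ := lt_of_lt_of_le ha0 hσ.1
    have hsc0 := sc_pos' σ
    have key : 4 * sc σ ^ 2 * (3 / 2 * σ * (h + 1) + 2) ≤ n * σ ^ 2 := by
      rcases le_total 1 σ with h1 | h1
      · have hsc : sc σ = σ := max_eq_right h1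
        rw [hsc]
        have h2 : 4 * (3 / 2 * σ * (h + 1) + 2) ≤ n := by
          have h3 : 3 / 2 * σ * (h + 1) ≤ 3 / 2 * (14 * h) * (h + 1) := by
            apply mul_le_mul_of_nonneg_right _ (by linarith)
            linarith [hσ.2]
          have h4 : (16 * h) ^ 2 ≤ s ^ 2 := pow_le_pow_left₀ (by positivity) hs16 2
          rw [hs2] at h4
          have h5 : h ≤ h ^ 2 := by
            rw [pow_two]
            exact le_mul_of_one_le_left (by positivity) hh
          have h6 : 3 / 2 * (14 * h) * (h + 1) = 21 * h ^ 2 + 21 * h := by ring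
          have h7 : (16 * h) ^ 2 = 256 * h ^ 2 := by ring
          linarith
        have h8 := mul_le_mul_of_nonneg_left h2 (sq_nonneg σ)
        calc 4 * σ ^ 2 * (3 / 2 * σ * (h + 1) + 2) = σ ^ 2 * (4 * (3 / 2 * σ * (h + 1) + 2)) := by
              ring
          _ ≤ σ ^ 2 * n := h8
          _ = n * σ ^ 2 := mul_comm _ _
      · have hsc : sc σ = 1 := max_eq_left h1
        rw [hsc]
        have h2 : K * u ≤ σ * s := by
          rw [← has]
          exact mul_le_mul_of_nonneg_right hσ.1 hs0.le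
        have h3 : 24 * h ≤ n * σ := by
          have e1 : (K ^ 2 * h * u) * (K * u) ≤ s * (σ * s) :=
            mul_le_mul hsK h2 (by positivity) hs0.le
          have e2 : s * (σ * s) = n * σ := by rw [← hs2]; ring
          have e3 : (K ^ 2 * h * u) * (K * u) = K ^ 3 * h * u ^ 2 := by ring
          have e4 : 64 * h ≤ K ^ 3 * h := mul_le_mul_of_nonneg_right hK3 (by linarith)
          have e5 : K ^ 3 * h ≤ K ^ 3 * h * u ^ 2 := le_mul_of_one_le_right (by positivity) hu1
          linarith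
        have h4 : 16 ≤ n * σ ^ 2 := by
          have e1 : (K * u) ^ 2 ≤ (σ * s) ^ 2 := pow_le_pow_left₀ (by positivity) h2 2
          have e2 : (σ * s) ^ 2 = n * σ ^ 2 := by rw [← hs2]; ring
          have e3 : (K * u) ^ 2 = K ^ 2 * u ^ 2 := by ring
          have e4 : K ^ 2 ≤ K ^ 2 * u ^ 2 := le_mul_of_one_le_right (by positivity) hu1
          linarith
        have h5 : 24 * h * σ ≤ n * σ ^ 2 := by
          have := mul_le_mul_of_nonneg_right h3 hσ0.le
          calc 24 * h * σ ≤ n * σ * σ := this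
            _ = n * σ ^ 2 := by ring
        have h6 : σ ≤ h * σ := le_mul_of_one_le_left hσ0.le hh
        have h7 : 4 * 1 ^ 2 * (3 / 2 * σ * (h + 1) + 2) = 6 * (h * σ) + 6 * σ + 8 := by ring
        have h8 : 24 * h * σ = 24 * (h * σ) := by ring
        rw [h7]
        linarith
    unfold wx
    have e1 : 2 * Real.sqrt (n * (3 / 2 * σ * (h + 1) + 2)) / sc σ * sc σ ^ 2 =
        2 * sc σ * Real.sqrt (n * (3 / 2 * σ * (h + 1) + 2)) := by
      field_simp
    rw [e1]
    have e2 : Real.sqrt (n * (3 / 2 * σ * (h + 1) + 2)) ≤ n * σ / (2 * sc σ) := by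
      apply Real.sqrt_le_iff.mpr
      refine ⟨by positivity, ?_⟩
      rw [div_pow, le_div_iff₀ (by positivity)]
      calc n * (3 / 2 * σ * (h + 1) + 2) * (2 * sc σ) ^ 2 =
            n * (4 * sc σ ^ 2 * (3 / 2 * σ * (h + 1) + 2)) := by ring
        _ ≤ n * (n * σ ^ 2) := mul_le_mul_of_nonneg_left key hn0.le
        _ = (n * σ) ^ 2 := by ring
    calc 2 * sc σ * Real.sqrt (n * (3 / 2 * σ * (h + 1) + 2)) ≤
          2 * sc σ * (n * σ / (2 * sc σ)) := mul_le_mul_of_nonneg_left e2 (by positivity)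
      _ = n * σ := by field_simp

end Pool.SC25
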