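import Pool.Agent.SC25.PsiR
import Pool.Agent.SC25.TiltA

set_option autoImplicit false

/-!
# SC25/Num: choice of the tilt and the numerical inequalities (STUB)

`n = N + 1` as a real number, `K` a large constant, `K^4 h² log n ≤ n`, `n ≥ 3`, `h ≥ 1` (so `n ≥ K^4`,
`h ≤ √n/K²`, `h ≤ n/K^4`).
-/

namespace Pool.SC25

theorem one_le_log {n : ℝ} (hn : 3 ≤ n) : 1 ≤ Real.log n := by
  rw [Real.le_log_iff_exp_le (by linarith)]
  have := Real.exp_one_lt_d9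
  linarith

/-- PROOF. `σ x ≤ 2 √(n (21 h (h+1) + 2)) ≤ 14 h √n ≤ 14 n/K²`, `(150 + 3σ)(h + 1) + 1 ≤ 385 h² ≤ 385 n/K^4`, `σ/2 ≤ 7 h`,
`log (12 n (n + 1)) ≤ 3.2 + 2 log n + … ≤ 6 n/K^4`; against `7/500 - 1/900 > 1/80`. -/
theorem num1 : ∃ K0 : ℝ, ∀ K ≥ K0, ∀ n h j σ : ℝ, 3 ≤ n → 1 ≤ h →
    K ^ 4 * h ^ 2 * Real.log n ≤ n → Tilt n h j K σ →
    12 * n * (n + 1) * Real.exp (2 * σ * wx n h σ) * Real.exp (σ / 2) *
      Real.exp ((150 + 3 * σ) * (h + 1) + 1 + n / 900 - 7 / 500 * n) ≤ 1 := by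
  refine ⟨100, fun K hK n h j σ hn hh hKn hT => ?_⟩
  have hL := one_le_log hn
  have hn0 : 0 < n := by linarith
  have hσ : 0 < σ := by
    refine lt_of_lt_of_le ?_ hT.lo
    have : 0 < Real.log n / n := by positivity
    have := Real.sqrt_pos.2 this
    positivity
  have hK4 : (100 : ℝ) ^ 4 ≤ K ^ 4 := pow_le_pow_left₀ (by norm_num) hK 4
  have h1 : 100 ^ 4 * h ^ 2 ≤ n := by
    have e1 : (100 : ℝ) ^ 4 * h ^ 2 ≤ K ^ 4 * h ^ 2 := mul_le_mul_of_nonneg_right hK4 (by positivity)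
    have e2 : K ^ 4 * h ^ 2 * 1 ≤ K ^ 4 * h ^ 2 * Real.log n :=
      mul_le_mul_of_nonneg_left hL (by positivity)
    linarith
  have h2 : 100 ^ 4 * Real.log n ≤ n := by
    have e0 : 1 ≤ h ^ 2 := one_le_pow₀ hh
    have e1 : (100 : ℝ) ^ 4 * 1 ≤ K ^ 4 * h ^ 2 := mul_le_mul hK4 e0 (by norm_num) (by positivity)
    have e2 : (100 : ℝ) ^ 4 * 1 * Real.log n ≤ K ^ 4 * h ^ 2 * Real.log n :=
      mul_le_mul_of_nonneg_right e1 (by linarith)
    linarith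
  have hw : 0 < Real.sqrt n := Real.sqrt_pos.2 hn0
  have hww : Real.sqrt n * Real.sqrt n = n := Real.mul_self_sqrt hn0.le
  have h3 : 100 ^ 2 * h ≤ Real.sqrt n := by
    refine Real.le_sqrt_of_sq_le ?_
    have : ((100 : ℝ) ^ 2 * h) ^ 2 = 100 ^ 4 * h ^ 2 := by ring
    linarith
  have h4 : 100 ^ 2 * (h * Real.sqrt n) ≤ n := by
    calc 100 ^ 2 * (h * Real.sqrt n) = 100 ^ 2 * h * Real.sqrt n := by ring
      _ ≤ Real.sqrt n * Real.sqrt n := mul_le_mul_of_nonneg_right h3 hw.le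
      _ = n := hww
  have hA : 3 / 2 * σ * (h + 1) + 2 ≤ (7 * h) ^ 2 := by
    have := hT.hi
    nlinarith
  have hsc0 : 0 < sc σ := lt_of_lt_of_le one_pos (one_le_sc σ)
  have h5 : σ * wx n h σ ≤ 14 * (h * Real.sqrt n) := by
    have e1 : Real.sqrt (n * (3 / 2 * σ * (h + 1) + 2)) ≤ 7 * h * Real.sqrt n := by
      refine Real.sqrt_le_iff.2 ⟨by positivity, ?_⟩
      calc n * (3 / 2 * σ * (h + 1) + 2) ≤ n * (7 * h) ^ 2 := mul_le_mul_of_nonneg_left hA hn0.le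
        _ = (7 * h * Real.sqrt n) ^ 2 := by
          rw [mul_pow (7 * h) (Real.sqrt n) 2, Real.sq_sqrt hn0.le]; ring
    have e2 : σ / sc σ ≤ 1 := (div_le_one hsc0).2 (le_sc σ)
    have e3 : 0 ≤ Real.sqrt (n * (3 / 2 * σ * (h + 1) + 2)) := Real.sqrt_nonneg _
    calc σ * wx n h σ = σ / sc σ * (2 * Real.sqrt (n * (3 / 2 * σ * (h + 1) + 2))) := by
          unfold wx; ring
      _ ≤ 1 * (2 * (7 * h * Real.sqrt n)) := mul_le_mul e2 (by linarith) (by positivity) zero_le_one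
      _ = 14 * (h * Real.sqrt n) := by ring
  have h6 : 12 * n * (n + 1) ≤ Real.exp (5 * Real.log n) := by
    have e1 : Real.exp (5 * Real.log n) = n ^ 5 := by
      rw [show (5 : ℝ) * Real.log n = ((5 : ℕ) : ℝ) * Real.log n by norm_num, Real.exp_nat_mul,
        Real.exp_log hn0]
    rw [e1]
    have e2 : 27 ≤ n ^ 3 := by
      calc (27 : ℝ) = 3 ^ 3 := by norm_num
        _ ≤ n ^ 3 := pow_le_pow_left₀ (by norm_num) hn 3
    calc 12 * n * (n + 1) ≤ 27 * n ^ 2 := by nlinarith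
      _ ≤ n ^ 3 * n ^ 2 := mul_le_mul_of_nonneg_right e2 (by positivity)
      _ = n ^ 5 := by ring
  have h7 : 1 ≤ h ^ 2 := one_le_pow₀ hh
  have h8 : (150 + 3 * σ) * (h + 1) + 1 ≤ 385 * h ^ 2 := by
    have := hT.hi
    nlinarith
  have h9 : σ / 2 ≤ 7 * h ^ 2 := by
    have := hT.hi
    nlinarith
  calc 12 * n * (n + 1) * Real.exp (2 * σ * wx n h σ) * Real.exp (σ / 2) *
      Real.exp ((150 + 3 * σ) * (h + 1) + 1 + n / 900 - 7 / 500 * n)
      ≤ Real.exp (5 * Real.log n) * Real.exp (2 * σ * wx n h σ) * Real.exp (σ / 2) *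
      Real.exp ((150 + 3 * σ) * (h + 1) + 1 + n / 900 - 7 / 500 * n) := by
        refine mul_le_mul_of_nonneg_right (mul_le_mul_of_nonneg_right (mul_le_mul_of_nonneg_right
          h6 (Real.exp_pos _).le) (Real.exp_pos _).le) (Real.exp_pos _).le
    _ = Real.exp (5 * Real.log n + 2 * σ * wx n h σ + σ / 2 +
        ((150 + 3 * σ) * (h + 1) + 1 + n / 900 - 7 / 500 * n)) := by
        rw [Real.exp_add, Real.exp_add, Real.exp_add]
    _ ≤ 1 := by
        rw [Real.exp_le_one_iff]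
        have e1 : 2 * σ * wx n h σ ≤ 28 * (h * Real.sqrt n) := by linarith
        norm_num at h1 h2 h4
        linarith

/-- the constant -/
noncomputable def c3 : ℝ := Real.exp (-54) / 444048

theorem c3_pos : 0 < c3 := by unfold c3; positivity

theorem c3_le : c3 ≤ 1 := by
  unfold c3
  have h1 : Real.exp (-54) ≤ 1 := Real.exp_le_one_iff.2 (by norm_num)
  rw [div_le_one (by norm_num)]
  linarith

/-- the decay of one window -/
theorem base_bound {σ : ℝ} (hσ : 0 < σ) (h27 : σ ≤ 27) :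
    11 * (c3 * σ ^ 2) ≤
      (1 - 2 * Real.sqrt (Real.exp (-σ)) / (1 + Real.exp (-σ))) * Real.exp (-σ) ^ 2 / 24 ∧
    (1 - 2 * Real.sqrt (Real.exp (-σ)) / (1 + Real.exp (-σ))) * Real.exp (-σ) ^ 2 / 24 ≤ 1 := by
  obtain ⟨s, hs⟩ : ∃ s, s = Real.exp (-(σ / 2)) := ⟨_, rfl⟩
  have hs0 : 0 < s := by rw [hs]; exact Real.exp_pos _
  have hr : Real.exp (-σ) = s ^ 2 := by
    rw [hs, ← Real.exp_nat_mul]; congr 1; push_cast; ring
  have hsq : Real.sqrt (Real.exp (-σ)) = s := by rw [hr, Real.sqrt_sq hs0.le]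
  have hs1 : s ≤ 1 / (1 + σ / 2) := by
    rw [hs, Real.exp_neg, inv_eq_one_div]
    refine one_div_le_one_div_of_le (by positivity) ?_
    have := Real.add_one_le_exp (σ / 2)
    linarith
  have hs2 : σ / 29 ≤ 1 - s := by
    have h1 : 1 - 1 / (1 + σ / 2) = (σ / 2) / (1 + σ / 2) := by field_simp; ring
    have h2 : σ / 29 ≤ (σ / 2) / (1 + σ / 2) := by
      rw [div_le_div_iff₀ (by norm_num) (by positivity)]
      nlinarith
    linarith
  have hs3 : s ≤ 1 := by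
    have : 0 < σ / 29 := by positivity
    linarith
  have hr2 : Real.exp (-54) ≤ Real.exp (-σ) ^ 2 := by
    rw [← Real.exp_nat_mul]
    apply Real.exp_le_exp.2
    push_cast
    linarith
  have hr3 : Real.exp (-σ) ^ 2 ≤ 1 := by
    have : Real.exp (-σ) ≤ 1 := Real.exp_le_one_iff.2 (by linarith)
    exact pow_le_one₀ (Real.exp_pos _).le this
  have key : 1 - 2 * Real.sqrt (Real.exp (-σ)) / (1 + Real.exp (-σ)) = (1 - s) ^ 2 / (1 + s ^ 2) := by
    rw [hsq, hr]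
    field_simp
    ring
  have h1 : σ ^ 2 / 1682 ≤ (1 - s) ^ 2 / (1 + s ^ 2) := by
    have e1 : (σ / 29) ^ 2 ≤ (1 - s) ^ 2 := pow_le_pow_left₀ (by positivity) hs2 2
    have e2 : 1 + s ^ 2 ≤ 2 := by nlinarith
    rw [div_le_div_iff₀ (by norm_num) (by positivity)]
    nlinarith [sq_nonneg σ, sq_nonneg (1 - s)]
  have h2 : (1 - s) ^ 2 / (1 + s ^ 2) ≤ 1 := by
    rw [div_le_one (by positivity)]
    nlinarith
  rw [key]
  constructor
  · have e1 : σ ^ 2 / 1682 * Real.exp (-54) ≤ (1 - s) ^ 2 / (1 + s ^ 2) * Real.exp (-σ) ^ 2 :=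
      mul_le_mul h1 hr2 (Real.exp_pos _).le (by positivity)
    have e2 : 11 * (c3 * σ ^ 2) = σ ^ 2 / 1682 * Real.exp (-54) / 24 := by
      unfold c3; ring
    rw [e2]
    exact div_le_div_of_nonneg_right e1 (by norm_num)
  · have e1 : (1 - s) ^ 2 / (1 + s ^ 2) * Real.exp (-σ) ^ 2 ≤ 1 * 1 :=
      mul_le_mul h2 hr3 (by positivity) zero_le_one
    linarith

/-- PROOF. `j > n/21` and `wx ≤ 2 √(5 n h) ≤ 5 n/K²` for `σ ≥ 1` give `σ ≤ 27` (`mn ≤ 1/σ`). `r = e^(-σ) ≥ e^(-27)`,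
`1 - 2√r/(1+r) = (1-√r)²/(1+r) ≥ (1-r)²/8`, `(1-r)² ≥ (σ/(1+σ))² ≥ σ²/784`, so the last factor is
`≤ exp (-c3 n σ²)`, `c3 = e^(-54)/(192 * 11 * 784)`; `2 σ x ≤ 4 σ √(n (3 σ h + 2)) ≤ c3 n σ²/4`,
`σ/2 ≤ c3 n σ²/4`, `log (12 n (n + 1)) ≤ c3 K² log n/4 ≤ c3 n σ²/4` for `K` large (`n σ ≥ K³ h`, `n σ² ≥ K² log n`). -/
theorem num2 : ∃ K0 : ℝ, ∀ K ≥ K0, ∀ n h j σ : ℝ, 3 ≤ n → 1 ≤ h →
    K ^ 4 * h ^ 2 * Real.log n ≤ n → Tilt n h j K σ → n / 21 ≤ j →
    12 * n * (n + 1) * Real.exp (2 * σ * wx n h σ) * Real.exp (σ / 2) *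
      (1 - (1 - 2 * Real.sqrt (Real.exp (-σ)) / (1 + Real.exp (-σ))) * Real.exp (-σ) ^ 2 / 24) ^
        (n / 10 - 2) ≤ 1 := by
  have hc0 := c3_pos
  have hc1 := c3_le
  refine ⟨1000 / c3 ^ 2, fun K hK n h j σ hn hh hKn hT hj => ?_⟩
  have hL := one_le_log hn
  have hn0 : 0 < n := by linarith
  have hc2 : 0 < c3 ^ 2 := by positivity
  have hcK : 1000 ≤ c3 ^ 2 * K := by
    have h1 : 1000 / c3 ^ 2 ≤ K := hK
    rw [div_le_iff₀ hc2] at h1
    linarith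
  have hK1000 : 1000 ≤ K := by
    have e1 : c3 ^ 2 ≤ 1 := pow_le_one₀ hc0.le hc1
    have e2 : (1000 : ℝ) ≤ 1000 / c3 ^ 2 := by
      rw [le_div_iff₀ hc2]; linarith
    exact e2.trans hK
  have hK0 : 0 < K := by linarith
  have hKK : K ≤ K ^ 2 := by nlinarith
  have hKKK : K ≤ K ^ 3 := by nlinarith [sq_nonneg K]
  have hLn : 0 < Real.log n / n := by positivity
  have hσ : 0 < σ := by
    refine lt_of_lt_of_le ?_ hT.lo
    have := Real.sqrt_pos.2 hLn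
    positivity
  -- `n σ² ≥ K² log n`
  have hA : K ^ 2 * Real.log n ≤ n * σ ^ 2 := by
    have e1 : (K * Real.sqrt (Real.log n / n)) ^ 2 ≤ σ ^ 2 :=
      pow_le_pow_left₀ (by positivity) hT.lo 2
    rw [mul_pow, Real.sq_sqrt hLn.le] at e1
    calc K ^ 2 * Real.log n = n * (K ^ 2 * (Real.log n / n)) := by field_simp
      _ ≤ n * σ ^ 2 := mul_le_mul_of_nonneg_left e1 hn0.le
  -- `n σ ≥ K³ h`
  have hB : K ^ 3 * h ≤ n * σ := by
    have e1 : (K ^ 3 * h) ^ 2 ≤ (n * σ) ^ 2 := by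
      have e2 : K ^ 4 * h ^ 2 * 1 ≤ K ^ 4 * h ^ 2 * Real.log n :=
        mul_le_mul_of_nonneg_left hL (by positivity)
      have e3 : K ^ 4 * h ^ 2 ≤ n := by linarith
      have e4 : K ^ 2 * 1 ≤ K ^ 2 * Real.log n := mul_le_mul_of_nonneg_left hL (by positivity)
      have e5 : K ^ 2 ≤ n * σ ^ 2 := by linarith
      calc (K ^ 3 * h) ^ 2 = (K ^ 4 * h ^ 2) * K ^ 2 := by ring
        _ ≤ n * (n * σ ^ 2) := mul_le_mul e3 e5 (by positivity) hn0.le
        _ = (n * σ) ^ 2 := by ring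
    exact (pow_le_pow_iff_left₀ (by positivity) (by positivity) two_ne_zero).1 e1
  have hh2 : K ^ 4 * h ^ 2 ≤ n := by
    have e2 : K ^ 4 * h ^ 2 * 1 ≤ K ^ 4 * h ^ 2 * Real.log n :=
      mul_le_mul_of_nonneg_left hL (by positivity)
    linarith
  have hsc0 : 0 < sc σ := lt_of_lt_of_le one_pos (one_le_sc σ)
  -- `σ ≤ 27`
  have h27 : σ ≤ 27 := by
    by_contra hcon
    push Not at hcon
    have hw : wx n h σ ≤ 5 * n / K ^ 2 := by
      have e0 : sc σ = σ := by unfold sc; exact max_eq_right (by linarith)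
      have e1 : Real.sqrt (n * (3 / 2 * σ * (h + 1) + 2)) ≤ 5 / 2 * n / K ^ 2 * σ := by
        refine Real.sqrt_le_iff.2 ⟨by positivity, ?_⟩
        have e2 : 3 / 2 * σ * (h + 1) + 2 ≤ 5 * σ ^ 2 * h ^ 2 := by
          have : h ≤ h ^ 2 := by nlinarith
          have : 1 ≤ h ^ 2 := one_le_pow₀ hh
          have e3 : σ ≤ σ ^ 2 := by nlinarith
          have e4 : σ ^ 2 * 1 ≤ σ ^ 2 * h ^ 2 := mul_le_mul_of_nonneg_left this (by positivity)
          have e5 : σ * (h + 1) ≤ σ ^ 2 * (2 * h ^ 2) :=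
            mul_le_mul e3 (by linarith) (by linarith) (by positivity)
          nlinarith
        have e3 : K ^ 4 * (5 * σ ^ 2 * h ^ 2) ≤ 5 * σ ^ 2 * n := by
          calc K ^ 4 * (5 * σ ^ 2 * h ^ 2) = 5 * σ ^ 2 * (K ^ 4 * h ^ 2) := by ring
            _ ≤ 5 * σ ^ 2 * n := mul_le_mul_of_nonneg_left hh2 (by positivity)
        have e4 : (5 / 2 * n / K ^ 2 * σ) ^ 2 = 25 / 4 * n ^ 2 * σ ^ 2 / K ^ 4 := by
          field_simp
          norm_num
        rw [e4, le_div_iff₀ (by positivity)]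
        calc n * (3 / 2 * σ * (h + 1) + 2) * K ^ 4 ≤ n * (5 * σ ^ 2 * h ^ 2) * K ^ 4 :=
              mul_le_mul_of_nonneg_right (mul_le_mul_of_nonneg_left e2 hn0.le) (by positivity)
          _ = n * (K ^ 4 * (5 * σ ^ 2 * h ^ 2)) := by ring
          _ ≤ n * (5 * σ ^ 2 * n) := mul_le_mul_of_nonneg_left e3 hn0.le
          _ ≤ 25 / 4 * n ^ 2 * σ ^ 2 := by nlinarith [mul_pos (mul_pos hn0 hn0) (mul_pos hσ hσ)]
      unfold wx
      rw [e0, div_le_iff₀ hσ]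
      calc 2 * Real.sqrt (n * (3 / 2 * σ * (h + 1) + 2)) ≤ 2 * (5 / 2 * n / K ^ 2 * σ) := by linarith
        _ = 5 * n / K ^ 2 * σ := by ring
    have h1 := mn_le hσ
    have h2 : n * mn σ ≤ n / 27 := by
      calc n * mn σ ≤ n * (1 / σ) := mul_le_mul_of_nonneg_left h1 hn0.le
        _ ≤ n * (1 / 27) := mul_le_mul_of_nonneg_left
            (one_div_le_one_div_of_le (by norm_num) hcon.le) hn0.le
        _ = n / 27 := by ring
    have h3 : 5 * n / K ^ 2 ≤ n / 200000 := by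
      rw [div_le_div_iff₀ (by positivity) (by norm_num)]
      have : (1000 : ℝ) ^ 2 ≤ K ^ 2 := pow_le_pow_left₀ (by norm_num) hK1000 2
      nlinarith
    have h4 := hT.eq
    linarith
  obtain ⟨hq1, hq2⟩ := base_bound hσ h27
  obtain ⟨q, hq⟩ : ∃ q, q = (1 - 2 * Real.sqrt (Real.exp (-σ)) / (1 + Real.exp (-σ))) *
    Real.exp (-σ) ^ 2 / 24 := ⟨_, rfl⟩
  rw [← hq] at hq1 hq2 ⊢
  have hq0 : 0 ≤ q := le_trans (by positivity) hq1
  have hn220 : 220 ≤ n := by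
    have e0 : (1000 : ℝ) ^ 4 ≤ K ^ 4 := pow_le_pow_left₀ (by norm_num) hK1000 4
    have e1 : 1 ≤ h ^ 2 := one_le_pow₀ hh
    have e2 : (1000 : ℝ) ^ 4 * 1 ≤ K ^ 4 * h ^ 2 := mul_le_mul e0 e1 (by norm_num) (by positivity)
    linarith
  -- the power
  have hpow : (1 - q) ^ (n / 10 - 2) ≤ Real.exp (-(c3 * n * σ ^ 2)) := by
    have e1 : 1 - q ≤ Real.exp (-q) := by
      have := Real.add_one_le_exp (-q)
      linarith
    have e2 : 0 ≤ n / 10 - 2 := by linarith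
    calc (1 - q) ^ (n / 10 - 2) ≤ Real.exp (-q) ^ (n / 10 - 2) :=
          Real.rpow_le_rpow (by linarith) e1 e2
      _ = Real.exp (-q * (n / 10 - 2)) := by rw [Real.exp_mul]
      _ ≤ Real.exp (-(c3 * n * σ ^ 2)) := by
          apply Real.exp_le_exp.2
          have e3 : n / 11 ≤ n / 10 - 2 := by linarith
          have e4 : 11 * (c3 * σ ^ 2) * (n / 11) ≤ q * (n / 10 - 2) :=
            mul_le_mul hq1 e3 (by positivity) hq0
          linarith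
  -- the other factors
  have hX : n * σ ^ 2 = n * σ ^ 2 := rfl
  have hx0 : 0 < n * σ ^ 2 := by positivity
  have h1 : 5 * Real.log n ≤ c3 / 4 * (n * σ ^ 2) := by
    have e1 : 20 ≤ c3 * K ^ 2 := by
      have : c3 ^ 2 * K ≤ c3 * K ^ 2 := by
        have : c3 ^ 2 ≤ c3 := by nlinarith
        calc c3 ^ 2 * K ≤ c3 * K := mul_le_mul_of_nonneg_right this hK0.le
          _ ≤ c3 * K ^ 2 := mul_le_mul_of_nonneg_left hKK hc0.le
      linarith
    have e2 : 20 * Real.log n ≤ c3 * K ^ 2 * Real.log n := mul_le_mul_of_nonneg_right e1 (by linarith)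
    have e3 : c3 * (K ^ 2 * Real.log n) ≤ c3 * (n * σ ^ 2) := mul_le_mul_of_nonneg_left hA hc0.le
    linarith
  have h2 : σ / 2 ≤ c3 / 4 * (n * σ ^ 2) := by
    have e1 : 2 ≤ c3 * (n * σ) := by
      have e2 : c3 ^ 2 * K ≤ c3 * (K ^ 3 * h) := by
        have e3 : c3 ^ 2 ≤ c3 := by nlinarith
        have e4 : K * 1 ≤ K ^ 3 * h := mul_le_mul hKKK hh (by norm_num) (by positivity)
        calc c3 ^ 2 * K ≤ c3 * K := mul_le_mul_of_nonneg_right e3 hK0.le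
          _ ≤ c3 * (K ^ 3 * h) := mul_le_mul_of_nonneg_left (by linarith) hc0.le
      have e5 : c3 * (K ^ 3 * h) ≤ c3 * (n * σ) := mul_le_mul_of_nonneg_left hB hc0.le
      linarith
    nlinarith
  have h3 : 2 * σ * wx n h σ ≤ c3 / 4 * (n * σ ^ 2) := by
    have e1 : wx n h σ ≤ 2 * Real.sqrt (n * (3 / 2 * σ * (h + 1) + 2)) := by
      unfold wx
      exact div_le_self (by positivity) (one_le_sc σ)
    have e2 : Real.sqrt (n * (3 / 2 * σ * (h + 1) + 2)) ≤ c3 / 16 * (n * σ) := by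
      refine Real.sqrt_le_iff.2 ⟨by positivity, ?_⟩
      have e3 : 3 / 2 * σ * (h + 1) ≤ 3 * σ * h := by nlinarith
      -- `3 n σ h ≤ (c3/16)² (nσ)² / 2`
      have e4 : 768 * 2 * h ≤ c3 ^ 2 * (n * σ) := by
        have e5 : c3 ^ 2 * (K ^ 3 * h) ≤ c3 ^ 2 * (n * σ) := mul_le_mul_of_nonneg_left hB hc2.le
        have e6 : 1000 * K ^ 2 ≤ c3 ^ 2 * K ^ 3 := by
          calc 1000 * K ^ 2 ≤ c3 ^ 2 * K * K ^ 2 := mul_le_mul_of_nonneg_right hcK (by positivity)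
            _ = c3 ^ 2 * K ^ 3 := by ring
        have e7 : 768 * 2 ≤ c3 ^ 2 * K ^ 3 := by nlinarith
        have e8 : 768 * 2 * h ≤ c3 ^ 2 * K ^ 3 * h := mul_le_mul_of_nonneg_right e7 (by linarith)
        linarith
      have e5 : 2048 ≤ c3 ^ 2 * (n * σ ^ 2) := by
        have e6 : c3 ^ 2 * (K ^ 2 * Real.log n) ≤ c3 ^ 2 * (n * σ ^ 2) :=
          mul_le_mul_of_nonneg_left hA hc2.le
        have e7 : 1000 * K ≤ c3 ^ 2 * K ^ 2 := by
          calc 1000 * K ≤ c3 ^ 2 * K * K := mul_le_mul_of_nonneg_right hcK (by positivity)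
            _ = c3 ^ 2 * K ^ 2 := by ring
        have e8 : c3 ^ 2 * K ^ 2 * 1 ≤ c3 ^ 2 * K ^ 2 * Real.log n :=
          mul_le_mul_of_nonneg_left hL (by positivity)
        nlinarith
      have e6 : n * (3 * σ * h) ≤ (c3 / 16) ^ 2 * (n * σ) ^ 2 / 2 := by
        have : n * σ * (768 * 2 * h) ≤ n * σ * (c3 ^ 2 * (n * σ)) :=
          mul_le_mul_of_nonneg_left e4 (by positivity)
        nlinarith
      have e7 : n * 2 ≤ (c3 / 16) ^ 2 * (n * σ) ^ 2 / 2 := by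
        have : n * 2048 ≤ n * (c3 ^ 2 * (n * σ ^ 2)) := mul_le_mul_of_nonneg_left e5 hn0.le
        nlinarith
      calc n * (3 / 2 * σ * (h + 1) + 2) ≤ n * (3 * σ * h + 2) :=
            mul_le_mul_of_nonneg_left (by linarith) hn0.le
        _ = n * (3 * σ * h) + n * 2 := by ring
        _ ≤ (c3 / 16) ^ 2 * (n * σ) ^ 2 / 2 + (c3 / 16) ^ 2 * (n * σ) ^ 2 / 2 := add_le_add e6 e7
        _ = (c3 / 16 * (n * σ)) ^ 2 := by ring
    calc 2 * σ * wx n h σ ≤ 2 * σ * (2 * Real.sqrt (n * (3 / 2 * σ * (h + 1) + 2))) :=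
          mul_le_mul_of_nonneg_left e1 (by positivity)
      _ ≤ 2 * σ * (2 * (c3 / 16 * (n * σ))) :=
          mul_le_mul_of_nonneg_left (by linarith) (by positivity)
      _ = c3 / 4 * (n * σ ^ 2) := by ring
  have h6 : 12 * n * (n + 1) ≤ Real.exp (5 * Real.log n) := by
    have e1 : Real.exp (5 * Real.log n) = n ^ 5 := by
      rw [show (5 : ℝ) * Real.log n = ((5 : ℕ) : ℝ) * Real.log n by norm_num, Real.exp_nat_mul,
        Real.exp_log hn0]
    rw [e1]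
    have e2 : 27 ≤ n ^ 3 := by
      calc (27 : ℝ) = 3 ^ 3 := by norm_num
        _ ≤ n ^ 3 := pow_le_pow_left₀ (by norm_num) hn 3
    calc 12 * n * (n + 1) ≤ 27 * n ^ 2 := by nlinarith
      _ ≤ n ^ 3 * n ^ 2 := mul_le_mul_of_nonneg_right e2 (by positivity)
      _ = n ^ 5 := by ring
  have hp0 : 0 ≤ (1 - q) ^ (n / 10 - 2) := Real.rpow_nonneg (by linarith) _
  calc 12 * n * (n + 1) * Real.exp (2 * σ * wx n h σ) * Real.exp (σ / 2) * (1 - q) ^ (n / 10 - 2)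
      ≤ Real.exp (5 * Real.log n) * Real.exp (2 * σ * wx n h σ) * Real.exp (σ / 2) *
        Real.exp (-(c3 * n * σ ^ 2)) := by
        refine mul_le_mul (mul_le_mul_of_nonneg_right (mul_le_mul_of_nonneg_right
          h6 (Real.exp_pos _).le) (Real.exp_pos _).le) hpow hp0 (by positivity)
    _ = Real.exp (5 * Real.log n + 2 * σ * wx n h σ + σ / 2 + -(c3 * n * σ ^ 2)) := by
        rw [Real.exp_add, Real.exp_add, Real.exp_add]
    _ ≤ 1 := by
        rw [Real.exp_le_one_iff]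
        have : 0 < c3 * (n * σ ^ 2) := by positivity
        nlinarith

end Pool.SC25
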