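import Pool.Agent.SC25.OneWin43
import Pool.Agent.PH43.Flip

set_option autoImplicit false

/-!
# SC25/AllWin43: all windows (helper43)
-/

namespace Pool.SC25

open Pool.HB45 Pool.HM63 Pool.PH43

theorem DS_local {N : ℕ} (lab : Fin (N + 1) → ℕ) {g g' : Equiv.Perm (Fin (N + 1))} {p : Fin N}
    (h : ∀ i : Fin (N + 1), p.val ≤ i.val + 1 → i.val ≤ p.val + 2 → g' i = g i) :
    (DS lab g').filter (fun q => q ∈ nb3 p) = (DS lab g).filter fun q => q ∈ nb3 p := by
  ext q
  rw [Finset.mem_filter, Finset.mem_filter, mem_DS, mem_DS]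
  by_cases hq : q ∈ nb3 p
  · have h0 := hq
    rw [mem_nb3] at h0
    have hc : q.castSucc.val = q.val := rfl
    have hs : q.succ.val = q.val + 1 := rfl
    rw [h q.castSucc (by rw [hc]; omega) (by rw [hc]; omega),
      h q.succ (by rw [hs]; omega) (by rw [hs]; omega)]
  · simp [hq]

theorem sw_local {N : ℕ} {g g' : Equiv.Perm (Fin (N + 1))} {p : Fin N}
    (h : ∀ i : Fin (N + 1), p.val ≤ i.val + 1 → i.val ≤ p.val + 2 → g' i = g i) :
    ∀ i : Fin (N + 1), p.val ≤ i.val + 1 → i.val ≤ p.val + 2 → sw g' p i = sw g p i := by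
  intro i h1 h2
  have hc : p.castSucc.val = p.val := rfl
  have hs : p.succ.val = p.val + 1 := rfl
  by_cases hi : i = p.castSucc
  · rw [hi, sw_left, sw_left, h p.succ (by rw [hs]; omega) (by rw [hs]; omega)]
  · by_cases hi' : i = p.succ
    · rw [hi', sw_right, sw_right, h p.castSucc (by rw [hc]; omega) (by rw [hc]; omega)]
    · rw [sw_other g' (fun h' => hi (Fin.ext h')) (fun h' => hi' (Fin.ext h')),
        sw_other g (fun h' => hi (Fin.ext h')) (fun h' => hi' (Fin.ext h'))]
      exact h i h1 h2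

/-- `tw` depends on the letters at `p - 1, …, p + 2` only -/
theorem tw_local {N : ℕ} (Q : Rel (N + 1)) (lab : Fin (N + 1) → ℕ) (x y : ℝ)
    {g g' : Equiv.Perm (Fin (N + 1))} {p : Fin N}
    (h : ∀ i : Fin (N + 1), p.val ≤ i.val + 1 → i.val ≤ p.val + 2 → g' i = g i) :
    tw Q lab x y p g' = tw Q lab x y p g := by
  classical
  have hc : p.castSucc.val = p.val := rfl
  have hs : p.succ.val = p.val + 1 := rfl
  have e1 := PH43.des_sw lab g p
  have e2 := PH43.des_sw lab g' p
  rw [DS_local lab h, DS_local lab (sw_local h)] at e2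
  have hl1 := h p.castSucc (by rw [hc]; omega) (by rw [hc]; omega)
  have hl2 := h p.succ (by rw [hs]; omega) (by rw [hs]; omega)
  have hu : p ∈ upT Q lab {p} g' ↔ p ∈ upT Q lab {p} g := by
    rw [mem_upT, mem_upT, hl1, hl2]
    constructor
    · rintro ⟨h1, h2, h3⟩
      exact ⟨h1, h2, by omega⟩
    · rintro ⟨h1, h2, h3⟩
      exact ⟨h1, h2, by omega⟩
  have hd : p ∈ dnT Q lab {p} g' ↔ p ∈ dnT Q lab {p} g := by
    rw [mem_dnT, mem_dnT, hl1, hl2]
    constructor
    · rintro ⟨h1, h2, h3⟩
      exact ⟨h1, h2, by omega⟩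
    · rintro ⟨h1, h2, h3⟩
      exact ⟨h1, h2, by omega⟩
  unfold tw
  simp only [hu, hd]

theorem tw_other {N m : ℕ} (hm : m * (3 + 2) ≤ N + 1) (Q : Rel (N + 1)) (lab : Fin (N + 1) → ℕ)
    (x y : ℝ) {k l : Fin m} (hkl : l ≠ k) (π : Equiv.Perm (Fin (N + 1)))
    (g : Equiv.Perm (Fin (3 + 1))) :
    tw Q lab x y (mid hm l) (π * emb (win_le hm k) g) = tw Q lab x y (mid hm l) π := by
  refine tw_local Q lab x y fun i h1 h2 => ?_
  have hv : (mid hm l).val = l.val * (3 + 2) + 1 := rfl
  rw [hv] at h1 h2
  have hkl' : l.val ≠ k.val := fun h => hkl (Fin.ext h)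
  have hd := win_disj 3 hkl'
  rw [Equiv.Perm.mul_apply, emb_of_not (win_le hm k) g i (by omega)]

theorem Bad_mul_emb {n o f : ℕ} {Q : Rel n} (hof : o + f ≤ n) (π : Equiv.Perm (Fin n))
    (g : Equiv.Perm (Fin f)) : Bad (winRel hof Q (π * emb hof g)) ↔ Bad (winRel hof Q π) := by
  constructor
  · rintro ⟨i, j, h⟩
    rw [winRel_mul_emb] at h
    exact ⟨_, _, h⟩
  · rintro ⟨i, j, h⟩
    refine ⟨g.symm i, g.symm j, ?_⟩
    rw [winRel_mul_emb]
    simpa using h

/-- the powers as products over the windows -/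
theorem prod_tw {N m : ℕ} (hm : m * (3 + 2) ≤ N + 1) (Q : Rel (N + 1)) (lab : Fin (N + 1) → ℕ)
    (c : ℝ) (g : Equiv.Perm (Fin (N + 1))) :
    c ^ ((upT Q lab (Tw hm) g).card + (dnT Q lab (Tw hm) g).card) =
      ∏ k : Fin m, tw Q lab c c (mid hm k) g := by
  classical
  have h1 : ∏ k : Fin m, tw Q lab c c (mid hm k) g =
      ∏ p ∈ Tw hm, if p ∈ upT Q lab (Tw hm) g ∪ dnT Q lab (Tw hm) g then c else 1 := by
    unfold Tw
    rw [Finset.prod_image fun k _ l _ h => mid_inj hm h]
    refine Finset.prod_congr rfl fun k _ => ?_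
    have hk : mid hm k ∈ Finset.univ.image (mid hm) := Finset.mem_image_of_mem _ (Finset.mem_univ _)
    have hu : mid hm k ∈ upT Q lab {mid hm k} g ↔ mid hm k ∈ upT Q lab (Finset.univ.image (mid hm)) g := by
      rw [mem_upT, mem_upT]
      simp only [Finset.mem_singleton_self, true_and, hk]
    have hd : mid hm k ∈ dnT Q lab {mid hm k} g ↔ mid hm k ∈ dnT Q lab (Finset.univ.image (mid hm)) g := by
      rw [mem_dnT, mem_dnT]
      simp only [Finset.mem_singleton_self, true_and, hk]
    unfold tw
    simp only [hu, hd, Finset.mem_union]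
    split_ifs <;> simp_all
  have h2 : (Tw hm).filter (fun p => p ∈ upT Q lab (Tw hm) g ∪ dnT Q lab (Tw hm) g) =
      upT Q lab (Tw hm) g ∪ dnT Q lab (Tw hm) g := by
    ext p
    rw [Finset.mem_filter, Finset.mem_union, mem_upT, mem_dnT]
    tauto
  have h3 : Disjoint (upT Q lab (Tw hm) g) (dnT Q lab (Tw hm) g) := by
    rw [Finset.disjoint_left]
    intro p hp hp'
    rw [mem_upT] at hp
    rw [mem_dnT] at hp'
    omega
  rw [h1, Finset.prod_ite, Finset.prod_const_one, mul_one, Finset.prod_const, h2,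
    Finset.card_union_of_disjoint h3]

theorem all_win' {N m : ℕ} (hm : m * (3 + 2) ≤ N + 1) {Q : Rel (N + 1)} {lab : Fin (N + 1) → ℕ}
    (hn : Nat' Q lab) (r c : ℝ) (hr : 0 < r) (hr1 : r ≤ 1) (hc : 0 ≤ c) (hc1 : c ≤ 1) :
    ∑ g ∈ LE Q, r ^ des lab g *
        c ^ ((upT Q lab (Tw hm) g).card + (dnT Q lab (Tw hm) g).card) ≤
      ∑ g ∈ LE Q, r ^ des lab g * (1 - (1 - c) * r ^ 2 / 24) ^ (m - nbad hm Q g) := by
  classical
  obtain ⟨η, hη⟩ : ∃ η : ℝ, η = 1 - (1 - c) * r ^ 2 / 24 := ⟨_, rfl⟩
  have hη0 : 0 ≤ η := by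
    rw [hη]
    have h1 : r ^ 2 ≤ 1 := pow_le_one₀ hr.le hr1
    nlinarith [mul_le_mul (by linarith : 1 - c ≤ 1) h1 (sq_nonneg r) zero_le_one]
  set ek : Fin m → Equiv.Perm (Fin (N + 1)) → ℝ := fun k g =>
    if Bad (winRel (win_le hm k) Q g) then 1 else η with hek
  have hek0 : ∀ k g, 0 ≤ ek k g := by
    intro k g
    simp only [hek]
    split_ifs
    · exact zero_le_one
    · exact hη0
  have key : ∀ K : Finset (Fin m),
      ∑ g ∈ LE Q, r ^ des lab g * ∏ k : Fin m, tw Q lab c c (mid hm k) g ≤
      ∑ g ∈ LE Q, r ^ des lab g * ((∏ k ∈ K, ek k g) * ∏ k ∈ Kᶜ, tw Q lab c c (mid hm k) g) := by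
    intro K
    induction K using Finset.induction_on with
    | empty => simp
    | insert k K hk ih =>
      refine ih.trans ?_
      have hKc : Kᶜ = insert k (insert k K)ᶜ := by
        ext l
        simp only [Finset.mem_compl, Finset.mem_insert]
        constructor
        · intro hl
          by_cases h : l = k
          · exact Or.inl h
          · exact Or.inr fun h' => h'.elim h hl
        · rintro (rfl | h)
          · exact hk
          · exact fun h' => h (Or.inr h')
      have hkc : k ∉ (insert k K)ᶜ := by simp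
      set G : Equiv.Perm (Fin (N + 1)) → ℝ := fun g =>
        (∏ l ∈ K, ek l g) * ∏ l ∈ (insert k K)ᶜ, tw Q lab c c (mid hm l) g with hG
      have hG0 : ∀ g, 0 ≤ G g := fun g => mul_nonneg (Finset.prod_nonneg fun l _ => hek0 l g)
        (Finset.prod_nonneg fun l _ => tw_nonneg Q lab hc _ _)
      have hGi : ∀ π g, G (π * emb (win_le hm k) g) = G π := by
        intro π g
        simp only [hG]
        congr 1
        · refine Finset.prod_congr rfl fun l hl => ?_
          have hlk : l ≠ k := by
            rintro rfl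
            exact hk hl
          simp only [hek]
          rw [winRel_other hm Q π hlk g]
        · refine Finset.prod_congr rfl fun l hl => ?_
          have hlk : l ≠ k := by
            rintro rfl
            exact hkc hl
          exact tw_other hm Q lab c c hlk π g
      set F : Equiv.Perm (Fin (N + 1)) → ℝ := fun g =>
        if Bad (winRel (win_le hm k) Q g) then 0 else G g with hF
      have h1 := one_win' hm hn k r c hr hr1 hc hc1 F
        (fun g => by
          simp only [hF]
          split_ifs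
          · exact le_rfl
          · exact hG0 g)
        (fun π _ g _ => by
          simp only [hF, Bad_mul_emb, hGi])
        (fun π _ hb => by
          simp only [hF, if_pos hb])
      rw [← hη, Finset.mul_sum] at h1
      calc ∑ g ∈ LE Q, r ^ des lab g * ((∏ k ∈ K, ek k g) *
            ∏ k ∈ Kᶜ, tw Q lab c c (mid hm k) g)
          = ∑ g ∈ LE Q, (r ^ des lab g * (tw Q lab c c (mid hm k) g * F g) +
              r ^ des lab g * (tw Q lab c c (mid hm k) g *
                (if Bad (winRel (win_le hm k) Q g) then G g else 0))) := by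
            refine Finset.sum_congr rfl fun g _ => ?_
            rw [hKc, Finset.prod_insert hkc]
            simp only [hF, hG]
            split_ifs <;> ring
        _ ≤ ∑ g ∈ LE Q, (η * (r ^ des lab g * F g) +
              r ^ des lab g * (if Bad (winRel (win_le hm k) Q g) then G g else 0)) := by
            rw [Finset.sum_add_distrib, Finset.sum_add_distrib]
            refine add_le_add h1 (Finset.sum_le_sum fun g _ => ?_)
            refine mul_le_mul_of_nonneg_left ?_ (pow_nonneg hr.le _)
            split_ifs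
            · exact mul_le_of_le_one_left (hG0 g) (tw_le_one Q lab hc1 _ _)
            · simp
        _ = ∑ g ∈ LE Q, r ^ des lab g * ((∏ k ∈ insert k K, ek k g) *
              ∏ k ∈ (insert k K)ᶜ, tw Q lab c c (mid hm k) g) := by
            refine Finset.sum_congr rfl fun g _ => ?_
            rw [Finset.prod_insert hk]
            simp only [hF, hG]
            have : ek k g = if Bad (winRel (win_le hm k) Q g) then 1 else η := rfl
            rw [this]
            split_ifs <;> ring
  have h := key Finset.univ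
  rw [Finset.compl_univ] at h
  rw [← hη]
  have h1 : ∀ g, ∏ k : Fin m, ek k g = η ^ (m - nbad hm Q g) := by
    intro g
    simp only [hek]
    rw [Finset.prod_ite, Finset.prod_const_one, one_mul, Finset.prod_const]
    congr 1
    have h2 := Finset.card_filter_add_card_filter_not (s := (Finset.univ : Finset (Fin m)))
      (fun k => Bad (winRel (win_le hm k) Q g))
    rw [Finset.card_univ, Fintype.card_fin] at h2
    have h3 : (Finset.univ.filter fun k : Fin m => Bad (winRel (win_le hm k) Q g)).card =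
        nbad hm Q g := by
      unfold nbad
      congr
    omega
  calc _ = ∑ g ∈ LE Q, r ^ des lab g * ∏ k : Fin m, tw Q lab c c (mid hm k) g :=
        Finset.sum_congr rfl fun g _ => by rw [prod_tw]
    _ ≤ _ := h
    _ = _ := Finset.sum_congr rfl fun g _ => by rw [h1, Finset.prod_empty, mul_one]

end Pool.SC25
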