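import Pool.Agent.SC25.Num
import Pool.Agent.SC25.Conc
import Pool.Agent.SC25.Star
import Pool.Agent.SC25.FlipE2
import Pool.Agent.SC25.Det

set_option autoImplicit false

namespace Pool.SC25

open Pool.HB45 Pool.HM63 Pool.PH43

open Classical in
theorem bad_small {N h m b j : ℕ} (hh : 1 ≤ h) (hm : m * (3 + 2) ≤ N + 1) {Q : Rel (N + 1)}
    {κ lab : Fin (N + 1) → ℕ} (hκ : Lev h Q κ) (hn : Nat' Q lab) (σ : ℝ) (hσ : 0 < σ)
    (hb : b + 2 * j + 1 ≤ m) :
    (((LE Q).filter fun g => des lab g = j ∧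
        (upT Q lab (Tw hm) g).card ≤ (dnT Q lab (Tw hm) g).card + 1).card : ℝ) *
        Real.exp (-σ) ^ j ≤
      (LE Q).card * ps σ ^ (N + 1) *
        Real.exp ((150 + 3 * σ) * (h + 1) + 1 + (N + 1) / 900 - 7 / 50 * b) := by
  refine le_trans ?_ (star hh hκ hn hm b σ hσ)
  rw [← nsmul_eq_mul, ← Finset.sum_const]
  have h2 : ∑ g ∈ (LE Q).filter (fun g => des lab g = j ∧
      (upT Q lab (Tw hm) g).card ≤ (dnT Q lab (Tw hm) g).card + 1), Real.exp (-σ) ^ j =
      ∑ g ∈ (LE Q).filter (fun g => des lab g = j ∧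
      (upT Q lab (Tw hm) g).card ≤ (dnT Q lab (Tw hm) g).card + 1), Real.exp (-σ) ^ des lab g := by
    refine Finset.sum_congr rfl fun g hg => ?_
    rw [(Finset.mem_filter.mp hg).2.1]
  rw [h2]
  refine Finset.sum_le_sum_of_subset_of_nonneg ?_ fun g _ _ => (pow_pos (Real.exp_pos _) _).le
  intro g hg
  rw [Finset.mem_filter] at hg ⊢
  have h3 := det_up hm hn hg.1
  have h4 := det_down hm hn hg.1
  exact ⟨hg.1, by omega⟩

end Pool.SC25
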