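import Pool.Agent.SC25.Defs

set_option autoImplicit false

/-!
# SC25/PsiR: the functions `ps` and `mn`
-/

namespace Pool.SC25

theorem ps_pos {s : ℝ} (hs : 0 < s) : 0 < ps s := by
  have h1 : Real.exp (-s) < 1 := by rw [Real.exp_lt_one_iff]; linarith
  exact div_pos (by linarith) hs

theorem exp_sub_one_pos {s : ℝ} (hs : 0 < s) : 0 < Real.exp s - 1 := by
  have := Real.add_one_lt_exp hs.ne'
  linarith

theorem mn_pos {s : ℝ} (hs : 0 < s) : 0 < mn s := by
  have h1 := Real.add_one_lt_exp hs.ne'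
  have h2 : 1 / (Real.exp s - 1) < 1 / s := one_div_lt_one_div_of_lt hs (by linarith)
  unfold mn
  linarith

theorem mn_le {s : ℝ} (hs : 0 < s) : mn s ≤ 1 / s := by
  have h1 : 0 < 1 / (Real.exp s - 1) := one_div_pos.2 (exp_sub_one_pos hs)
  unfold mn
  linarith

theorem mn_ge {s : ℝ} (hs : 0 < s) : 1 / 2 - s / 4 ≤ mn s := by
  unfold mn
  have h1 := Real.quadratic_le_exp_of_nonneg hs.le
  have h2 := exp_sub_one_pos hs
  have h3 : 1 / (Real.exp s - 1) ≤ 1 / s - 1 / 2 + s / 4 := by
    rw [div_le_iff₀ h2]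
    have h4 : 0 < 1 / s - 1 / 2 + s / 4 := by
      have : 1 / s - 1 / 2 + s / 4 = ((s - 1) ^ 2 + 3) / (4 * s) := by
        field_simp
        ring
      rw [this]
      positivity
    calc (1 : ℝ) ≤ 1 + s ^ 3 / 8 := by have := pow_pos hs 3; linarith
      _ = (1 / s - 1 / 2 + s / 4) * (s + s ^ 2 / 2) := by field_simp; ring
      _ ≤ (1 / s - 1 / 2 + s / 4) * (Real.exp s - 1) :=
          mul_le_mul_of_nonneg_left (by linarith) h4.le
  linarith

theorem mn_lt_half {s : ℝ} (hs : 0 < s) : mn s < 1 / 2 := by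
  unfold mn
  have h2 := exp_sub_one_pos hs
  have key : (2 - s) * Real.exp s < 2 + s := by
    have hmono : StrictMonoOn (fun x : ℝ => 2 + x - (2 - x) * Real.exp x) (Set.Ici 0) := by
      refine strictMonoOn_of_deriv_pos (convex_Ici 0) (by fun_prop) fun x hx => ?_
      rw [interior_Ici] at hx
      have hd : HasDerivAt (fun x : ℝ => 2 + x - (2 - x) * Real.exp x)
          (1 - (-1 * Real.exp x + (2 - x) * Real.exp x)) x := by
        have h5 := (hasDerivAt_id x).const_add 2
        have h6 := ((hasDerivAt_id x).const_sub 2).mul (Real.hasDerivAt_exp x)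
        exact h5.sub h6
      rw [hd.deriv]
      have hx0 : (0 : ℝ) < x := hx
      have h7 : 1 - x < Real.exp (-x) := by
        have := Real.add_one_lt_exp (x := -x) (by linarith [hx0] : -x ≠ 0)
        linarith
      have h8 : Real.exp (-x) * Real.exp x = 1 := by rw [← Real.exp_add]; simp
      nlinarith [mul_lt_mul_of_pos_right h7 (Real.exp_pos x)]
    have := hmono (Set.mem_Ici.2 le_rfl) (Set.mem_Ici.2 hs.le) hs
    simp at this
    linarith
  have h3 : 1 / s - 1 / 2 < 1 / (Real.exp s - 1) := by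
    rw [lt_div_iff₀ h2]
    have h4 : (1 / s - 1 / 2) * (Real.exp s - 1) = ((2 - s) * Real.exp s - (2 - s)) / (2 * s) := by
      field_simp
    rw [h4, div_lt_one (by positivity)]
    linarith
  linarith

theorem mn_continuousOn : ContinuousOn mn (Set.Ioi 0) := by
  unfold mn
  refine ContinuousOn.sub ?_ ?_
  · exact continuousOn_const.div continuousOn_id fun x hx => (ne_of_gt hx)
  · refine continuousOn_const.div (by fun_prop) fun x hx => (exp_sub_one_pos hx).ne'

theorem one_div_le_exp {x : ℝ} (h1 : -(1 / 2) ≤ x) (h2 : x ≤ 1 / 2) :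
    1 / (1 + x) ≤ Real.exp (-x + x ^ 2) := by
  rw [div_le_iff₀ (by linarith)]
  rcases le_total 0 x with hx | hx
  · have h3 : |x - x ^ 2| ≤ 1 := by rw [abs_le]; constructor <;> nlinarith
    have h4 := (abs_le.1 (Real.abs_exp_sub_one_sub_id_le h3)).2
    have h5 : Real.exp (x - x ^ 2) ≤ 1 + x := by
      have : 1 + (x - x ^ 2) + (x - x ^ 2) ^ 2 ≤ 1 + x := by nlinarith [pow_nonneg hx 3, pow_nonneg hx 4]
      linarith
    have h6 : Real.exp (-x + x ^ 2) * Real.exp (x - x ^ 2) = 1 := by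
      rw [← Real.exp_add]; ring_nf; exact Real.exp_zero
    calc (1 : ℝ) = Real.exp (-x + x ^ 2) * Real.exp (x - x ^ 2) := h6.symm
      _ ≤ Real.exp (-x + x ^ 2) * (1 + x) := mul_le_mul_of_nonneg_left h5 (Real.exp_pos _).le
  · obtain ⟨u, rfl⟩ : ∃ u, x = -u := ⟨-x, by ring⟩
    have hu : 0 ≤ u := by linarith
    have hu1 : u ≤ 1 / 2 := by linarith
    have h3 : 0 ≤ u + u ^ 2 := by positivity
    have h4 := Real.quadratic_le_exp_of_nonneg h3
    have h5 : (- -u + (-u) ^ 2) = u + u ^ 2 := by ring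
    rw [h5]
    have h6 : 1 ≤ (1 + (u + u ^ 2) + (u + u ^ 2) ^ 2 / 2) * (1 + -u) := by
      have h7 : (1 + (u + u ^ 2) + (u + u ^ 2) ^ 2 / 2) * (1 + -u) =
          1 + u ^ 2 / 2 * (1 - u - u ^ 2 - u ^ 3) := by ring
      rw [h7]
      have h8 : 0 ≤ 1 - u - u ^ 2 - u ^ 3 := by
        have e1 : u ^ 2 ≤ 1 / 4 := by nlinarith
        have e2 : u ^ 3 ≤ 1 / 8 := by nlinarith
        linarith
      have := mul_nonneg (by positivity : (0 : ℝ) ≤ u ^ 2 / 2) h8
      linarith
    exact h6.trans (mul_le_mul_of_nonneg_right h4 (by linarith))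

/-- tilting, large `s` -/
theorem psi_add_le {s l : ℝ} (hs : 0 < s) (hl : |l| ≤ s / 2) :
    ps (s + l) ≤ ps s * Real.exp (-(l * mn s) + l ^ 2 / s ^ 2) := by
  obtain ⟨hl1, hl2⟩ := abs_le.1 hl
  have h0 : 0 < s + l := by linarith
  have h1 : 1 / (s + l) ≤ 1 / s * Real.exp (-(l / s) + (l / s) ^ 2) := by
    have h2 := one_div_le_exp (x := l / s) (by rw [le_div_iff₀ hs]; linarith)
      (by rw [div_le_iff₀ hs]; linarith)
    have h3 : 1 / (s + l) = 1 / s * (1 / (1 + l / s)) := by
      have : (1 : ℝ) + l / s ≠ 0 := by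
        have : 0 < 1 + l / s := by
          have : 1 + l / s = (s + l) / s := by field_simp
          rw [this]; positivity
        exact this.ne'
      field_simp
    rw [h3]
    exact mul_le_mul_of_nonneg_left h2 (by positivity)
  have hE := exp_sub_one_pos hs
  have h4 : 1 - Real.exp (-(s + l)) ≤ (1 - Real.exp (-s)) * Real.exp (l / (Real.exp s - 1)) := by
    have h5 : Real.exp (-s) * Real.exp s = 1 := by rw [← Real.exp_add]; simp
    have h6 : Real.exp (-(s + l)) = Real.exp (-s) * Real.exp (-l) := by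
      rw [← Real.exp_add]; congr 1; ring
    have h7 : 1 - Real.exp (-s) = Real.exp (-s) * (Real.exp s - 1) := by rw [mul_sub, h5]; ring
    have h8 : 1 - Real.exp (-(s + l)) = (1 - Real.exp (-s)) *
        (1 + (1 - Real.exp (-l)) / (Real.exp s - 1)) := by
      rw [h7, h6, mul_add, mul_one, mul_assoc, mul_div_cancel₀ _ hE.ne']
      rw [mul_sub, h5]
      ring
    rw [h8]
    refine mul_le_mul_of_nonneg_left ?_ (by rw [h7]; positivity)
    have h9 : (1 - Real.exp (-l)) / (Real.exp s - 1) ≤ l / (Real.exp s - 1) := by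
      refine div_le_div_of_nonneg_right ?_ hE.le
      have := Real.add_one_le_exp (-l)
      linarith
    have h10 := Real.add_one_le_exp (l / (Real.exp s - 1))
    linarith
  have h11 : 0 ≤ 1 - Real.exp (-s) := by
    have : Real.exp (-s) < 1 := by rw [Real.exp_lt_one_iff]; linarith
    linarith
  calc ps (s + l) = (1 - Real.exp (-(s + l))) * (1 / (s + l)) := by unfold ps; ring
    _ ≤ ((1 - Real.exp (-s)) * Real.exp (l / (Real.exp s - 1))) *
        (1 / s * Real.exp (-(l / s) + (l / s) ^ 2)) :=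
        mul_le_mul h4 h1 (by positivity) (by positivity)
    _ = ps s * (Real.exp (l / (Real.exp s - 1)) * Real.exp (-(l / s) + (l / s) ^ 2)) := by
        unfold ps; ring
    _ = ps s * Real.exp (-(l * mn s) + l ^ 2 / s ^ 2) := by
        rw [← Real.exp_add]
        congr 2
        unfold mn
        rw [div_pow]
        ring

theorem psi_eq_integral {s : ℝ} (hs : s ≠ 0) : ∫ u in (0 : ℝ)..1, Real.exp (-(s * u)) = ps s := by
  have h1 : ∀ u ∈ Set.uIcc (0 : ℝ) 1, HasDerivAt (fun u : ℝ => -(Real.exp (-(s * u)) / s))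
      (Real.exp (-(s * u))) u := by
    intro u _
    have h2 : HasDerivAt (fun u : ℝ => -(s * u)) (-(s * 1)) u := ((hasDerivAt_id u).const_mul s).neg
    have h3 := (h2.exp.div_const s).neg
    have h4 : -(Real.exp (-(s * u)) * -(s * 1) / s) = Real.exp (-(s * u)) := by field_simp
    rw [h4] at h3
    exact h3
  rw [intervalIntegral.integral_eq_sub_of_hasDerivAt h1
    ((by fun_prop : Continuous fun u : ℝ => Real.exp (-(s * u))).intervalIntegrable _ _)]
  unfold ps
  simp
  ring

theorem mean_integral {s : ℝ} (hs : 0 < s) :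
    ∫ u in (0 : ℝ)..1, u * Real.exp (-(s * u)) = mn s * ps s := by
  have h1 : ∀ u ∈ Set.uIcc (0 : ℝ) 1, HasDerivAt
      (fun u : ℝ => -((u / s + 1 / s ^ 2) * Real.exp (-(s * u)))) (u * Real.exp (-(s * u))) u := by
    intro u _
    have h2 : HasDerivAt (fun u : ℝ => -(s * u)) (-(s * 1)) u := ((hasDerivAt_id u).const_mul s).neg
    have h5 : HasDerivAt (fun u : ℝ => u / s + 1 / s ^ 2) (1 / s) u :=
      ((hasDerivAt_id u).div_const s).add_const _
    have h3 := (h5.mul h2.exp).neg
    have h4 : -(1 / s * Real.exp (-(s * u)) + (u / s + 1 / s ^ 2) * (Real.exp (-(s * u)) * -(s * 1))) =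
        u * Real.exp (-(s * u)) := by field_simp; ring
    rw [h4] at h3
    exact h3
  rw [intervalIntegral.integral_eq_sub_of_hasDerivAt h1
    ((by fun_prop : Continuous fun u : ℝ => u * Real.exp (-(s * u))).intervalIntegrable _ _)]
  unfold ps mn
  have hE := exp_sub_one_pos hs
  have h5 : Real.exp (-s) * Real.exp s = 1 := by rw [← Real.exp_add]; simp
  have h7 : 1 - Real.exp (-s) = Real.exp (-s) * (Real.exp s - 1) := by rw [mul_sub, h5]; ring
  have h8 : 1 / (Real.exp s - 1) * ((1 - Real.exp (-s)) / s) = Real.exp (-s) / s := by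
    rw [h7]; field_simp
  rw [sub_mul, h8]
  simp
  field_simp
  ring

/-- tilting, all `s`, `|l| ≤ 1` -/
theorem psi_add_le' {s l : ℝ} (hs : 0 < s) (hl : |l| ≤ 1) (h0 : 0 < s + l) :
    ps (s + l) ≤ ps s * Real.exp (-(l * mn s) + l ^ 2) := by
  have h1 : ∫ u in (0 : ℝ)..1, Real.exp (-((s + l) * u)) ≤
      ∫ u in (0 : ℝ)..1, ((1 + l ^ 2) * Real.exp (-(s * u)) - l * (u * Real.exp (-(s * u)))) := by
    refine intervalIntegral.integral_mono_on zero_le_one
      ((by fun_prop : Continuous fun u : ℝ => Real.exp (-((s + l) * u))).intervalIntegrable _ _)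
      ((by fun_prop : Continuous fun u : ℝ => (1 + l ^ 2) * Real.exp (-(s * u)) -
        l * (u * Real.exp (-(s * u)))).intervalIntegrable _ _) fun u hu => ?_
    have h2 : Real.exp (-((s + l) * u)) = Real.exp (-(s * u)) * Real.exp (-(l * u)) := by
      rw [← Real.exp_add]; congr 1; ring
    have h3 : |-(l * u)| ≤ 1 := by
      rw [abs_neg, abs_mul, abs_of_nonneg hu.1]
      exact mul_le_one₀ hl hu.1 hu.2
    have h4 := (abs_le.1 (Real.abs_exp_sub_one_sub_id_le h3)).2
    have h5 : (-(l * u)) ^ 2 ≤ l ^ 2 := by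
      have : u ^ 2 ≤ 1 := pow_le_one₀ hu.1 hu.2
      nlinarith [sq_nonneg l]
    have h6 : Real.exp (-(l * u)) ≤ 1 - l * u + l ^ 2 := by linarith
    rw [h2]
    calc Real.exp (-(s * u)) * Real.exp (-(l * u))
        ≤ Real.exp (-(s * u)) * (1 - l * u + l ^ 2) :=
          mul_le_mul_of_nonneg_left h6 (Real.exp_pos _).le
      _ = (1 + l ^ 2) * Real.exp (-(s * u)) - l * (u * Real.exp (-(s * u))) := by ring
  rw [psi_eq_integral h0.ne', intervalIntegral.integral_sub
    ((by fun_prop : Continuous fun u : ℝ => (1 + l ^ 2) * Real.exp (-(s * u))).intervalIntegrable _ _)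
    ((by fun_prop : Continuous fun u : ℝ => l * (u * Real.exp (-(s * u)))).intervalIntegrable _ _),
    intervalIntegral.integral_const_mul, intervalIntegral.integral_const_mul, psi_eq_integral hs.ne',
    mean_integral hs] at h1
  have h2 := Real.add_one_le_exp (-(l * mn s) + l ^ 2)
  calc ps (s + l) ≤ (1 + l ^ 2) * ps s - l * (mn s * ps s) := h1
    _ = ps s * (-(l * mn s) + l ^ 2 + 1) := by ring
    _ ≤ ps s * Real.exp (-(l * mn s) + l ^ 2) := mul_le_mul_of_nonneg_left h2 (ps_pos hs).le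

/-- both cases in one -/
theorem ps_shift {σ l : ℝ} (hσ : 0 < σ) (hl : 0 < σ + l) (hl' : |l| ≤ sc σ / 2) :
    ps (σ + l) ≤ ps σ * Real.exp (-(l * mn σ) + l ^ 2 / sc σ ^ 2) := by
  unfold sc at hl' ⊢
  rcases le_total σ 1 with h1 | h1
  · rw [max_eq_left h1] at hl' ⊢
    have := psi_add_le' hσ (hl'.trans (by norm_num)) hl
    simpa using this
  · rw [max_eq_right h1] at hl' ⊢
    exact psi_add_le hσ hl'

theorem mn_nonneg {σ : ℝ} (hσ : 0 < σ) : 0 ≤ mn σ := (mn_pos hσ).le

end Pool.SC25
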