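import Pool.Agent.SC25.Sand
import Pool.Agent.SC25.PsiR

set_option autoImplicit false

/-!
# SC25/ConcU5: upper and lower tails of the number of descents (concentration)
-/

namespace Pool.SC25

open Pool.HB45 Pool.HM63 Pool.PH43

/-- both tails at once: `ε = -1` upper, `ε = 1` lower -/
theorem tail_gen {N h : ℕ} {Q : Rel (N + 1)} {κ lab : Fin (N + 1) → ℕ} (hκ : Lev h Q κ)
    (hn : Nat' Q lab) (σ x ε : ℝ) (hσ : 0 < σ) (hx0 : 0 ≤ x) (hε : |ε| ≤ 1)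
    (hx : x ^ 2 * sc σ ^ 2 = 4 * (N + 1) * (3 / 2 * σ * (h + 1) + 2))
    (hx' : x * sc σ ^ 2 ≤ (N + 1) * σ) (S : Finset (Equiv.Perm (Fin (N + 1)))) (hS : S ⊆ LE Q)
    (hd : ∀ g ∈ S, ε * (des lab g : ℝ) ≤ ε * ((N + 1) * mn σ) - x) :
    ∑ g ∈ S, Real.exp (-σ) ^ des lab g ≤ Real.exp (-2) * Wr Q lab (Real.exp (-σ)) := by
  have hN : (0 : ℝ) < (N : ℝ) + 1 := by positivity
  have hs1 : 1 ≤ sc σ := one_le_sc σ
  have hs0 : 0 < sc σ := by linarith
  set l : ℝ := x * sc σ ^ 2 / (2 * ((N : ℝ) + 1)) with hldef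
  have hl0 : 0 ≤ l := by positivity
  have hlσ : l ≤ σ / 2 := by
    rw [hldef, div_le_iff₀ (by positivity)]
    linarith
  have hεl : |ε * l| ≤ l := by
    rw [abs_mul, abs_of_nonneg hl0]
    nlinarith
  have hεl2 := abs_le.mp hεl
  have hpos : 0 < σ + ε * l := by linarith [hεl2.1]
  have hshift := ps_shift (σ := σ) (l := ε * l) hσ hpos
    (le_trans hεl (le_trans hlσ (by linarith [le_sc σ])))
  have hp0 : 0 ≤ ps (σ + ε * l) := (ps_pos hpos).le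
  have hpσ : 0 < ps σ := ps_pos hσ
  -- the sum
  have h1 : ∀ g ∈ S, Real.exp (-σ) ^ des lab g ≤
      Real.exp (-(σ + ε * l)) ^ des lab g * Real.exp (ε * l * ((N + 1) * mn σ) - l * x) := by
    intro g hg
    rw [← Real.exp_nat_mul, ← Real.exp_nat_mul, ← Real.exp_add]
    apply Real.exp_le_exp.mpr
    have h2 := mul_le_mul_of_nonneg_left (hd g hg) hl0
    nlinarith
  have h2 : ∑ g ∈ S, Real.exp (-σ) ^ des lab g ≤
      Wr Q lab (Real.exp (-(σ + ε * l))) * Real.exp (ε * l * ((N + 1) * mn σ) - l * x) := by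
    refine le_trans (Finset.sum_le_sum h1) ?_
    rw [← Finset.sum_mul]
    refine mul_le_mul_of_nonneg_right ?_ (Real.exp_pos _).le
    unfold Wr
    exact Finset.sum_le_sum_of_subset_of_nonneg hS fun g _ _ => by positivity
  have h3 := sand_upper hκ hn (σ + ε * l) hpos
  have h4 := sand_lower hn σ hσ
  have h5 : ps (σ + ε * l) ^ (N + 1) ≤
      ps σ ^ (N + 1) * Real.exp ((N + 1 : ℝ) * (-(ε * l * mn σ) + (ε * l) ^ 2 / sc σ ^ 2)) := by
    have h6 := pow_le_pow_left₀ hp0 hshift (N + 1)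
    rw [mul_pow, ← Real.exp_nat_mul] at h6
    push_cast at h6
    exact h6
  have h7 : Wr Q lab (Real.exp (-(σ + ε * l))) ≤ (LE Q).card * (ps σ ^ (N + 1) *
      Real.exp ((N + 1 : ℝ) * (-(ε * l * mn σ) + (ε * l) ^ 2 / sc σ ^ 2))) *
        Real.exp ((σ + ε * l) * (h + 1)) := by
    refine le_trans h3 ?_
    refine mul_le_mul_of_nonneg_right ?_ (Real.exp_pos _).le
    exact mul_le_mul_of_nonneg_left h5 (Nat.cast_nonneg _)
  have hexp : (N + 1 : ℝ) * (-(ε * l * mn σ) + (ε * l) ^ 2 / sc σ ^ 2) +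
      (σ + ε * l) * (h + 1) + (ε * l * ((N + 1) * mn σ) - l * x) ≤ -2 := by
    have h8 : l * x = x ^ 2 * sc σ ^ 2 / (2 * ((N : ℝ) + 1)) := by
      rw [hldef]; ring
    have h9 : ((N : ℝ) + 1) * (l ^ 2 / sc σ ^ 2) = x ^ 2 * sc σ ^ 2 / (4 * ((N : ℝ) + 1)) := by
      rw [hldef]
      field_simp
      ring
    have h10 : l * x = 2 * (3 / 2 * σ * (h + 1) + 2) := by
      rw [h8, hx]
      field_simp
      ring
    have h11 : ((N : ℝ) + 1) * (l ^ 2 / sc σ ^ 2) = 3 / 2 * σ * (h + 1) + 2 := by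
      rw [h9, hx]
      field_simp
    have h12 : (ε * l) ^ 2 ≤ l ^ 2 := by
      rw [← sq_abs (ε * l)]
      exact pow_le_pow_left₀ (abs_nonneg _) hεl 2
    have h13 : ((N : ℝ) + 1) * ((ε * l) ^ 2 / sc σ ^ 2) ≤ 3 / 2 * σ * (h + 1) + 2 := by
      rw [← h11]
      refine mul_le_mul_of_nonneg_left ?_ hN.le
      exact div_le_div_of_nonneg_right h12 (by positivity)
    have h14 : (σ + ε * l) * (h + 1 : ℝ) ≤ 3 / 2 * σ * (h + 1) := by
      refine mul_le_mul_of_nonneg_right ?_ (by positivity)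
      linarith [hεl2.2]
    have h15 : (N + 1 : ℝ) * (-(ε * l * mn σ) + (ε * l) ^ 2 / sc σ ^ 2) +
      (σ + ε * l) * (h + 1) + (ε * l * ((N + 1) * mn σ) - l * x) =
        (N + 1 : ℝ) * ((ε * l) ^ 2 / sc σ ^ 2) + (σ + ε * l) * (h + 1) - l * x := by ring
    rw [h15, h10]
    linarith
  calc ∑ g ∈ S, Real.exp (-σ) ^ des lab g
      ≤ Wr Q lab (Real.exp (-(σ + ε * l))) * Real.exp (ε * l * ((N + 1) * mn σ) - l * x) := h2
    _ ≤ ((LE Q).card * (ps σ ^ (N + 1) *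
      Real.exp ((N + 1 : ℝ) * (-(ε * l * mn σ) + (ε * l) ^ 2 / sc σ ^ 2))) *
        Real.exp ((σ + ε * l) * (h + 1))) * Real.exp (ε * l * ((N + 1) * mn σ) - l * x) :=
        mul_le_mul_of_nonneg_right h7 (Real.exp_pos _).le
    _ = (LE Q).card * ps σ ^ (N + 1) * Real.exp ((N + 1 : ℝ) * (-(ε * l * mn σ) +
          (ε * l) ^ 2 / sc σ ^ 2) + (σ + ε * l) * (h + 1) +
          (ε * l * ((N + 1) * mn σ) - l * x)) := by
        rw [Real.exp_add, Real.exp_add]; ring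
    _ ≤ (LE Q).card * ps σ ^ (N + 1) * Real.exp (-2) :=
        mul_le_mul_of_nonneg_left (Real.exp_le_exp.mpr hexp) (by positivity)
    _ ≤ Wr Q lab (Real.exp (-σ)) * Real.exp (-2) :=
        mul_le_mul_of_nonneg_right h4 (Real.exp_pos _).le
    _ = Real.exp (-2) * Wr Q lab (Real.exp (-σ)) := mul_comm _ _

open Classical in
theorem tail_upS {N h : ℕ} {Q : Rel (N + 1)} {κ lab : Fin (N + 1) → ℕ} (hκ : Lev h Q κ)
    (hn : Nat' Q lab) (σ x : ℝ) (hσ : 0 < σ) (hx0 : 0 ≤ x)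
    (hx : x ^ 2 * sc σ ^ 2 = 4 * (N + 1) * (3 / 2 * σ * (h + 1) + 2))
    (hx' : x * sc σ ^ 2 ≤ (N + 1) * σ) :
    ∑ g ∈ (LE Q).filter (fun g => (N + 1) * mn σ + x ≤ (des lab g : ℝ)), Real.exp (-σ) ^ des lab g ≤
      Real.exp (-2) * Wr Q lab (Real.exp (-σ)) := by
  refine tail_gen hκ hn σ x (-1) hσ hx0 (by simp) hx hx' _ (Finset.filter_subset _ _) fun g hg => ?_
  have h1 := (Finset.mem_filter.mp hg).2
  linarith

open Classical in
theorem tail_downS {N h : ℕ} {Q : Rel (N + 1)} {κ lab : Fin (N + 1) → ℕ} (hκ : Lev h Q κ)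
    (hn : Nat' Q lab) (σ x : ℝ) (hσ : 0 < σ) (hx0 : 0 ≤ x)
    (hx : x ^ 2 * sc σ ^ 2 = 4 * (N + 1) * (3 / 2 * σ * (h + 1) + 2))
    (hx' : x * sc σ ^ 2 ≤ (N + 1) * σ) :
    ∑ g ∈ (LE Q).filter (fun g => (des lab g : ℝ) ≤ (N + 1) * mn σ - x), Real.exp (-σ) ^ des lab g ≤
      Real.exp (-2) * Wr Q lab (Real.exp (-σ)) := by
  refine tail_gen hκ hn σ x 1 hσ hx0 (by simp) hx hx' _ (Finset.filter_subset _ _) fun g hg => ?_
  have h1 := (Finset.mem_filter.mp hg).2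
  linarith

end Pool.SC25
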