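import Pool.Agent.SC25.Reg
import Pool.Agent.PH48.Rare0
import Pool.Agent.HB45.Uni

set_option autoImplicit false

/-!
# SC25/Final: posets with short chains are unimodal
-/

open Polynomial

namespace Pool.SC25

open Pool.HB45 Pool.HM63 Pool.PH43

/-- induction on `j` -/
theorem lower_range {K0 : ℝ} (hK0 : ∀ K ≥ K0, ∀ (N h j : ℕ) (Q : Rel (N + 1))
      (κ lab : Fin (N + 1) → ℕ), 1 ≤ h → 3 ≤ N + 1 → Lev h Q κ → Nat' Q lab →
      K ^ 4 * (h : ℝ) ^ 2 * Real.log (N + 1) ≤ N + 1 → N + 1 ≤ 7 * h * j →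
      (j : ℝ) ≤ ((N : ℝ) + 1) / 2 - K / 4 * Real.sqrt ((N + 1) * Real.log (N + 1)) →
      (∀ i ≤ j, w Q lab i ≤ w Q lab j) → w Q lab j ≤ w Q lab (j + 1))
    (K : ℝ) (hK : K0 ≤ K) (hK1 : 1 ≤ K) (N h : ℕ) (Q : Rel (N + 1)) (κ lab : Fin (N + 1) → ℕ)
    (hh : 1 ≤ h) (hN : 3 ≤ N + 1) (hκ : Lev h Q κ) (hn : Nat' Q lab)
    (hc : K ^ 4 * (h : ℝ) ^ 2 * Real.log (N + 1) ≤ N + 1) (j : ℕ)
    (hj : (j : ℝ) ≤ ((N : ℝ) + 1) / 2 - K / 4 * Real.sqrt ((N + 1) * Real.log (N + 1))) :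
    w Q lab j ≤ w Q lab (j + 1) := by
  induction j using Nat.strong_induction_on with
  | _ j ih =>
    by_cases hs : h * (4 * j + 1) ≤ N
    · exact small hh hκ hn hs
    · push Not at hs
      have hj1 : 1 ≤ j := by
        by_contra h0
        have h1 : j = 0 := by omega
        subst h1
        have h2 : N + 1 ≤ h := by omega
        have h3 : ((N : ℝ) + 1) ≤ h := by exact_mod_cast h2
        have h4 : (3 : ℝ) ≤ (N : ℝ) + 1 := by exact_mod_cast hN
        have h5 : 1 ≤ Real.log ((N : ℝ) + 1) := by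
          rw [Real.le_log_iff_exp_le (by linarith)]
          have := Real.exp_one_lt_d9
          linarith
        have h6 : (1 : ℝ) ≤ K ^ 4 := one_le_pow₀ hK1
        have h7 : (N : ℝ) + 1 < (h : ℝ) ^ 2 := by nlinarith
        have h8 : (h : ℝ) ^ 2 ≤ K ^ 4 * (h : ℝ) ^ 2 * Real.log (N + 1) := by
          have h9 : (0 : ℝ) ≤ (h : ℝ) ^ 2 := sq_nonneg _
          calc (h : ℝ) ^ 2 = 1 * (h : ℝ) ^ 2 * 1 := by ring
            _ ≤ K ^ 4 * (h : ℝ) ^ 2 * Real.log (N + 1) :=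
              mul_le_mul (mul_le_mul_of_nonneg_right h6 h9) h5 (by norm_num) (by positivity)
        linarith
      refine hK0 K hK N h j Q κ lab hh hN hκ hn hc ?_ hj ?_
      · have h1 : h * (4 * j + 1) ≤ 7 * h * j := by nlinarith
        omega
      · intro i hi
        have hmono : ∀ d, i + d ≤ j → w Q lab i ≤ w Q lab (i + d) := by
          intro d
          induction d with
          | zero => intro _; exact le_rfl
          | succ d ihd =>
            intro hd
            refine (ihd (by omega)).trans ?_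
            refine ih (i + d) (by omega) ?_
            have h1 : ((i + d : ℕ) : ℝ) ≤ (j : ℝ) := by
              exact_mod_cast (by omega : i + d ≤ j)
            exact h1.trans hj
        have := hmono (j - i) (by omega)
        rwa [Nat.add_sub_cancel' hi] at this

/-- SHORT CHAINS. -/
theorem short_chains : ∃ c : ℝ, 0 < c ∧ ∀ n h : ℕ, 2 ≤ n → (h : ℝ) ^ 2 * Real.log n ≤ c * n →
    ∀ (α : Type) [Fintype α] [PartialOrder α] (f : α ≃ Fin n), (∀ x y : α, x < y → f x < f y) →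
      (∀ s : Finset α, IsChain (· ≤ ·) (s : Set α) → s.card ≤ h) →
      ∃ m : ℕ, ∀ k : ℕ, (k < m → dn f k ≤ dn f (k + 1)) ∧ (m ≤ k → dn f (k + 1) ≤ dn f k) := by
  obtain ⟨K0, hK0⟩ := main_regime
  obtain ⟨N0, hN0⟩ := Pool.SC45.center_final
  set K : ℝ := max (max K0 4000) (max (2 * 1433600000) ((N0 : ℝ) + 1)) with hKdef
  have k1 : K0 ≤ K := (le_max_left _ _).trans (le_max_left _ _)
  have k2 : 4000 ≤ K := (le_max_right _ _).trans (le_max_left _ _)
  have k3 : 2 * 1433600000 ≤ K := (le_max_left _ _).trans (le_max_right _ _)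
  have k4 : (N0 : ℝ) + 1 ≤ K := (le_max_right _ _).trans (le_max_right _ _)
  have hKpos : 0 < K := by linarith
  have hK4 : K ≤ K ^ 4 := by
    calc K = K ^ 1 := (pow_one K).symm
      _ ≤ K ^ 4 := pow_le_pow_right₀ (by linarith) (by norm_num)
  refine ⟨1 / K ^ 4, by positivity, fun n h hn2 hc α _ _ f hf hs => ?_⟩
  have hn2' : (2 : ℝ) ≤ n := by exact_mod_cast hn2
  -- chains have at least one element
  have hne : Nonempty α := ⟨f.symm ⟨0, by omega⟩⟩
  have hh : 1 ≤ h := by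
    obtain ⟨a⟩ := hne
    have := hs {a} (by simp)
    rwa [Finset.card_singleton] at this
  have hhr : (1 : ℝ) ≤ h := by exact_mod_cast hh
  have hc' : K ^ 4 * (h : ℝ) ^ 2 * Real.log n ≤ n := by
    have h1 : (h : ℝ) ^ 2 * Real.log n ≤ n / K ^ 4 := by
      rw [div_eq_mul_one_div, mul_comm]
      rw [mul_comm (1 / K ^ 4)] at hc
      linarith
    rw [le_div_iff₀ (by positivity)] at h1
    linarith
  have hlog2 : (1 / 2 : ℝ) ≤ Real.log n := by
    have h1 := Real.log_two_gt_d9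
    have h2 := Real.log_le_log (by norm_num) hn2'
    linarith
  have hKn : K ^ 4 / 2 ≤ n := by
    have h1 : (1 : ℝ) ≤ (h : ℝ) ^ 2 := one_le_pow₀ hhr
    have h2 : K ^ 4 * 1 * (1 / 2) ≤ K ^ 4 * (h : ℝ) ^ 2 * Real.log n :=
      mul_le_mul (mul_le_mul_of_nonneg_left h1 (by positivity)) hlog2 (by norm_num) (by positivity)
    linarith
  have hnbig : (10 : ℝ) ≤ n := by
    have : (20 : ℝ) ≤ K ^ 4 := by linarith
    linarith
  obtain ⟨N, rfl⟩ : ∃ N, n = N + 1 := ⟨n - 1, by omega⟩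
  push_cast at hc' hlog2 hKn hnbig
  obtain ⟨κ, hκ⟩ := exists_lev (h := h) f hs
  have hN0N : N0 ≤ N := by
    have h1 : (N0 : ℝ) ≤ N := by
      have : K ^ 4 / 2 ≥ K := by
        have h2 : (2 : ℝ) ≤ K ^ 3 := by
          calc (2 : ℝ) ≤ K := by linarith
            _ = K ^ 1 := (pow_one K).symm
            _ ≤ K ^ 3 := pow_le_pow_right₀ (by linarith) (by norm_num)
        have h3 : K ^ 4 = K ^ 3 * K := by ring
        nlinarith
      linarith
    exact_mod_cast h1
  have hQtr : Pool.SC45.Tr (rel f) := fun a b c hab hbc => lt_trans hab hbc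
  have hcN : (h : ℝ) ^ 2 * Real.log N ≤ 1 / 1433600000 * N := by
    have hNpos : (0 : ℝ) < N := by linarith
    have h1 : Real.log N ≤ Real.log ((N : ℝ) + 1) := Real.log_le_log hNpos (by linarith)
    have h2 : K ^ 4 * ((h : ℝ) ^ 2 * Real.log N) ≤ (N : ℝ) + 1 := by
      have : K ^ 4 * ((h : ℝ) ^ 2 * Real.log N) ≤ K ^ 4 * ((h : ℝ) ^ 2 * Real.log ((N : ℝ) + 1)) := by
        gcongr
      linarith
    have h3 : (2 * 1433600000 : ℝ) * ((h : ℝ) ^ 2 * Real.log N) ≤ (N : ℝ) + 1 := by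
      have h4 : 0 ≤ (h : ℝ) ^ 2 * Real.log N :=
        mul_nonneg (sq_nonneg _) (Real.log_nonneg (by linarith))
      have h5 : (2 * 1433600000 : ℝ) ≤ K ^ 4 := k3.trans hK4
      nlinarith
    linarith
  have hmid := hN0 N hN0N h hh hcN (rel f) κ (fun a => a.val) hκ (nat_rel f hf) hQtr
  have hlow := lower_range hK0 K k1 (by linarith) N h (rel f) κ (fun a => a.val) hh (by
    have : (3 : ℝ) ≤ ((N + 1 : ℕ) : ℝ) := by push_cast; linarith
    exact_mod_cast this) hκ (nat_rel f hf) hc'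
  have hcard : Fintype.card α = N + 1 := by rw [Fintype.card_congr f, Fintype.card_fin]
  have hsq : Real.sqrt (((N : ℝ) + 1) * Real.log (N + 1)) * (K ^ 2 * h) ≤ (N : ℝ) + 1 := by
    have h1 : (K ^ 2 * h) ^ 2 * Real.log ((N : ℝ) + 1) ≤ (N : ℝ) + 1 := by
      have : (K ^ 2 * h) ^ 2 * Real.log ((N : ℝ) + 1) =
        K ^ 4 * (h : ℝ) ^ 2 * Real.log ((N : ℝ) + 1) := by ring
      linarith
    have h2 : (0 : ℝ) ≤ (N : ℝ) + 1 := by positivity
    rw [← Real.sqrt_sq (show (0 : ℝ) ≤ K ^ 2 * h by positivity), ← Real.sqrt_mul (by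
      exact mul_nonneg h2 (by linarith)), ← Real.sqrt_sq h2]
    refine Real.sqrt_le_sqrt ?_
    rw [Real.sqrt_sq h2]
    nlinarith
  have hsq' : K / 4 * Real.sqrt (((N : ℝ) + 1) * Real.log (N + 1)) ≤
      ((N : ℝ) + 1) / (16000 * h) := by
    rw [le_div_iff₀ (by positivity)]
    have h1 : 0 ≤ Real.sqrt (((N : ℝ) + 1) * Real.log (N + 1)) := Real.sqrt_nonneg _
    have h2 : K * 4000 ≤ K ^ 2 := by nlinarith
    have h3 : 0 ≤ Real.sqrt (((N : ℝ) + 1) * Real.log (N + 1)) * h := by positivity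
    nlinarith
  refine combine (dn f) (fun j => (j : ℝ) ≤ ((N : ℝ) + 1) / 2 -
      K / 4 * Real.sqrt ((N + 1) * Real.log (N + 1))) (fun j => N ≤ 2 * j) ?_ ?_ ?_ ?_ ?_ ?_
  · intro j hj
    rw [dn_eq, dn_eq]
    exact hlow j hj
  · intro j hj hj'
    rw [dn_eq, dn_eq, dn_eq]
    have h3 : (2 * j : ℕ) < N := not_le.1 hj'
    have h4 : (2 * (j : ℝ)) < N := by exact_mod_cast h3
    have h5 := not_le.1 hj
    have h6 : ((N : ℝ) + 1) / (16000 * h) ≤ ((N : ℝ) + 1) / 16000 := by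
      refine div_le_div_of_nonneg_left (by positivity) (by norm_num) ?_
      linarith
    refine hmid j ?_ ?_
    · by_contra h0
      have h1 : j = 0 := by omega
      rw [h1] at h5
      push_cast at h5
      linarith
    · rw [abs_of_pos (by linarith)]
      have h7 : ((N : ℝ) + 2) / (16000 * h) = ((N : ℝ) + 1) / (16000 * h) + 1 / (16000 * h) := by
        rw [← add_div]
        ring_nf
      have h8 : (0 : ℝ) ≤ 1 / (16000 * h) := by positivity
      linarith
  · intro j hj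
    push_cast at hj
    linarith
  · intro j hj
    omega
  · intro j hj
    exact upper (N + 1) hcard f hf j (by omega)
  · exact ⟨N, by omega⟩

end Pool.SC25
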