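import Pool.Agent.SC25.Defs
import Pool.Agent.PH43.Flip
import Pool.Agent.HB45.Val

set_option autoImplicit false

/-!
# SC25/FlipA: single flips
-/

namespace Pool.SC25

open Pool.HB45 Pool.HM63

open Pool.PH43 (sw sw_sw sw_left sw_right)

/-- A swap at `p` changes descents at `p - 1`, `p`, `p + 1` only, so for another swap position `p'`
(`|p - p'| ≥ 3`) the change of `des` by the swap at `p'` is the same before and after the swap at `p`. -/
theorem des_sw_sw {N : ℕ} (lab : Fin (N + 1) → ℕ) (g : Equiv.Perm (Fin (N + 1))) (p p' : Fin N)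
    (hp : p.val + 3 ≤ p'.val ∨ p'.val + 3 ≤ p.val) :
    des lab (sw (sw g p) p') + des lab g = des lab (sw g p) + des lab (sw g p') := by
  rw [Pool.PH43.des_sw_sw lab g hp, add_comm]

/-- a swap of neighbours changes `des` by at most one (labels injective) -/
theorem des_sw {N : ℕ} {lab : Fin (N + 1) → ℕ} (hinj : Function.Injective lab)
    (g : Equiv.Perm (Fin (N + 1))) (p : Fin N) :
    des lab (sw g p) = des lab g ∨ des lab (sw g p) = des lab g + 1 ∨
      des lab (sw g p) + 1 = des lab g := by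
  have hd : ∀ h : Equiv.Perm (Fin (N + 1)), desB lab 0 (∑ i, lab i) h = des lab h := by
    intro h
    unfold desB
    rw [if_neg (by omega), if_neg, add_zero, add_zero]
    have := Finset.single_le_sum (f := lab) (fun i _ => Nat.zero_le _)
      (Finset.mem_univ (h (Fin.last N)))
    omega
  have h1 := desB_swap hinj 0 (∑ i, lab i) g p
  rw [hd, hd] at h1
  unfold sw
  omega

/-- the other swap positions keep their type -/
theorem upT_sw {N : ℕ} {Q : Rel (N + 1)} {lab : Fin (N + 1) → ℕ} {T : Finset (Fin N)} (hT : Sep T)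
    (g : Equiv.Perm (Fin (N + 1))) (p : Fin N) (hp : p ∈ T) (p' : Fin N) (hp' : p' ∈ T)
    (hne : p' ≠ p) :
    (p' ∈ upT Q lab T (sw g p) ↔ p' ∈ upT Q lab T g) ∧
      (p' ∈ dnT Q lab T (sw g p) ↔ p' ∈ dnT Q lab T g) := by
  have hf : p.val + 3 ≤ p'.val ∨ p'.val + 3 ≤ p.val := Pool.PH43.Sparse.far hT hp hp' hne
  have h1 := des_sw_sw lab g p p' hf
  constructor
  · rw [mem_upT, mem_upT, Pool.PH43.Q_far Q g hf]
    constructor
    · rintro ⟨-, h2, h3⟩
      exact ⟨hp', h2, by omega⟩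
    · rintro ⟨-, h2, h3⟩
      exact ⟨hp', h2, by omega⟩
  · rw [mem_dnT, mem_dnT, Pool.PH43.Q_far Q g hf]
    constructor
    · rintro ⟨-, h2, h3⟩
      exact ⟨hp', h2, by omega⟩
    · rintro ⟨-, h2, h3⟩
      exact ⟨hp', h2, by omega⟩

/-- after the swap of two neighbours of a linear extension the left letter is not below the right
one -/
theorem not_Q_sw {N : ℕ} {Q : Rel (N + 1)} {g : Equiv.Perm (Fin (N + 1))} (hg : g ∈ LE Q)
    (p : Fin N) : ¬ Q (sw g p p.castSucc) (sw g p p.succ) := by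
  rw [sw_left, sw_right]
  intro h
  have h5 := mem_LE.1 hg _ _ h
  have h6 : p.succ.val < p.castSucc.val := h5
  have hc : p.castSucc.val = p.val := rfl
  have hs : p.succ.val = p.val + 1 := rfl
  omega

/-- the swap at `p` exchanges 'up' and 'down' at `p` (for linear extensions `g`) -/
theorem upT_sw_self {N : ℕ} {Q : Rel (N + 1)} {lab : Fin (N + 1) → ℕ} {T : Finset (Fin N)}
    {g : Equiv.Perm (Fin (N + 1))} (hg : g ∈ LE Q) (p : Fin N)
    (hq : ¬ Q (g p.castSucc) (g p.succ)) :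
    p ∈ dnT Q lab T (sw g p) ↔ p ∈ upT Q lab T g := by
  rw [mem_dnT, mem_upT, sw_sw]
  constructor
  · rintro ⟨h1, -, h3⟩
    exact ⟨h1, hq, h3.symm⟩
  · rintro ⟨h1, -, h3⟩
    exact ⟨h1, not_Q_sw hg p, h3.symm⟩

/-- the swap at `p` exchanges 'down' and 'up' at `p` (for linear extensions `g`) -/
theorem dnT_sw_self {N : ℕ} {Q : Rel (N + 1)} {lab : Fin (N + 1) → ℕ} {T : Finset (Fin N)}
    {g : Equiv.Perm (Fin (N + 1))} (hg : g ∈ LE Q) (p : Fin N)
    (hq : ¬ Q (g p.castSucc) (g p.succ)) :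
    p ∈ upT Q lab T (sw g p) ↔ p ∈ dnT Q lab T g := by
  rw [mem_dnT, mem_upT, sw_sw]
  constructor
  · rintro ⟨h1, -, h3⟩
    exact ⟨h1, hq, h3.symm⟩
  · rintro ⟨h1, -, h3⟩
    exact ⟨h1, not_Q_sw hg p, h3.symm⟩

end Pool.SC25
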