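import Pool.Agent.SC25.Defs

set_option autoImplicit false

/-!
# SC25/FundC: number of maps with a given word
-/

namespace Pool.SC25

open Pool.HB45 Pool.HM63 Pool.PH43

private theorem FundC_iff {n : ℕ} {lab : Fin n → ℕ} (hinj : Function.Injective lab)
    (f : Fin n → ℕ) (g : Equiv.Perm (Fin n)) :
    wd lab f = g ↔ StrictMono fun i => toLex (f (g i), lab (g i)) := by
  have hk : Function.Injective fun i : Fin n => toLex (f i, lab i) := by
    intro i j hij
    have h1 : (f i, lab i) = (f j, lab j) := toLex.injective hij
    exact hinj (Prod.ext_iff.1 h1).2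
  unfold wd
  rw [eq_comm, Tuple.eq_sort_iff]
  constructor
  · rintro ⟨h1, -⟩
    exact h1.strictMono_of_injective (hk.comp g.injective)
  · intro h
    refine ⟨h.monotone, fun i j hij heq => ?_⟩
    exact absurd heq (h hij).ne

private theorem FundC_step {N : ℕ} {lab : Fin (N + 1) → ℕ} (hinj : Function.Injective lab)
    (f : Fin (N + 1) → ℕ) (g : Equiv.Perm (Fin (N + 1))) :
    wd lab f = g ↔ ∀ p : Fin N, f (g p.castSucc) ≤ f (g p.succ) ∧
      (lab (g p.succ) < lab (g p.castSucc) → f (g p.castSucc) < f (g p.succ)) := by
  rw [FundC_iff hinj, Fin.strictMono_iff_lt_succ]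
  refine forall_congr' fun p => ?_
  rw [Prod.Lex.toLex_lt_toLex]
  have hne : lab (g p.castSucc) ≠ lab (g p.succ) := by
    intro h
    have h1 := g.injective (hinj h)
    have h2 := congrArg Fin.val h1
    simp at h2
  dsimp only
  constructor
  · rintro (h | ⟨h1, h2⟩)
    · exact ⟨h.le, fun _ => h⟩
    · exact ⟨h1.le, fun h3 => absurd h2 (by omega)⟩
  · rintro ⟨h1, h2⟩
    rcases lt_or_gt_of_ne hne with h3 | h3
    · rcases h1.lt_or_eq with h4 | h4
      · exact Or.inl h4
      · exact Or.inr ⟨h4, h3⟩
    · exact Or.inl (h2 h3)

/-- number of ascents before `i` -/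
private def asc {N : ℕ} (lab : Fin (N + 1) → ℕ) (g : Equiv.Perm (Fin (N + 1)))
    (i : Fin (N + 1)) : ℕ :=
  (Finset.univ.filter fun p : Fin N =>
    p.val < i.val ∧ ¬ lab (g p.succ) < lab (g p.castSucc)).card

private theorem asc_le {N : ℕ} (lab : Fin (N + 1) → ℕ) (g : Equiv.Perm (Fin (N + 1)))
    (i : Fin (N + 1)) : asc lab g i ≤ i.val := by
  unfold asc
  calc _ ≤ (Finset.univ.filter fun p : Fin N => p.val < i.val).card := by
        apply Finset.card_le_card
        intro p hp
        rw [Finset.mem_filter] at hp ⊢
        exact ⟨hp.1, hp.2.1⟩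
    _ ≤ (Finset.range i.val).card := by
        apply Finset.card_le_card_of_injOn (fun p : Fin N => p.val)
        · intro p hp
          rw [Finset.mem_coe, Finset.mem_filter] at hp
          rw [Finset.mem_coe, Finset.mem_range]
          exact hp.2
        · intro p _ p' _ h
          exact Fin.ext h
    _ = i.val := Finset.card_range _

private theorem asc_des {N : ℕ} (lab : Fin (N + 1) → ℕ) (g : Equiv.Perm (Fin (N + 1))) :
    (Finset.univ.filter fun p : Fin N => ¬ lab (g p.succ) < lab (g p.castSucc)).card + des lab g
      = N := by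
  unfold des
  rw [add_comm, Finset.card_filter_add_card_filter_not, Finset.card_univ, Fintype.card_fin]

private theorem asc_le' {N : ℕ} (lab : Fin (N + 1) → ℕ) (g : Equiv.Perm (Fin (N + 1)))
    (i : Fin (N + 1)) : asc lab g i + des lab g ≤ N := by
  have h1 := asc_des lab g
  have h2 : asc lab g i ≤
      (Finset.univ.filter fun p : Fin N => ¬ lab (g p.succ) < lab (g p.castSucc)).card := by
    unfold asc
    apply Finset.card_le_card
    intro p hp
    rw [Finset.mem_filter] at hp ⊢
    exact ⟨hp.1, hp.2.2⟩
  omega

private theorem asc_ge {N : ℕ} (lab : Fin (N + 1) → ℕ) (g : Equiv.Perm (Fin (N + 1)))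
    (i : Fin (N + 1)) : i.val ≤ asc lab g i + des lab g := by
  have h1 := asc_des lab g
  have h2 : (Finset.univ.filter fun p : Fin N => ¬ lab (g p.succ) < lab (g p.castSucc)).card ≤
      asc lab g i + (Finset.univ.filter fun p : Fin N => ¬ p.val < i.val).card := by
    unfold asc
    refine le_trans (Finset.card_le_card ?_) (Finset.card_union_le _ _)
    intro p hp
    rw [Finset.mem_filter] at hp
    rw [Finset.mem_union, Finset.mem_filter, Finset.mem_filter]
    by_cases h : p.val < i.val
    · exact Or.inl ⟨hp.1, h, hp.2⟩
    · exact Or.inr ⟨hp.1, h⟩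
  have h3 : (Finset.univ.filter fun p : Fin N => ¬ p.val < i.val).card ≤ N - i.val := by
    calc _ ≤ (Finset.Ico i.val N).card := by
          apply Finset.card_le_card_of_injOn (fun p : Fin N => p.val)
          · intro p hp
            rw [Finset.mem_coe, Finset.mem_filter] at hp
            rw [Finset.mem_coe, Finset.mem_Ico]
            exact ⟨Nat.le_of_not_lt hp.2, p.isLt⟩
          · intro p _ p' _ h
            exact Fin.ext h
      _ = N - i.val := Nat.card_Ico _ _
  have h4 : i.val ≤ N := by have := i.isLt; omega
  omega

private theorem asc_succ {N : ℕ} (lab : Fin (N + 1) → ℕ) (g : Equiv.Perm (Fin (N + 1)))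
    (p : Fin N) : asc lab g p.succ = asc lab g p.castSucc +
      if lab (g p.succ) < lab (g p.castSucc) then 0 else 1 := by
  unfold asc
  by_cases h : lab (g p.succ) < lab (g p.castSucc)
  · rw [if_pos h, add_zero]
    congr 1
    ext q
    simp only [Finset.mem_filter, Finset.mem_univ, true_and, Fin.val_succ, Fin.val_castSucc]
    constructor
    · rintro ⟨h1, h2⟩
      refine ⟨?_, h2⟩
      rcases Nat.lt_succ_iff_lt_or_eq.1 h1 with h3 | h3
      · exact h3
      · have h4 : q = p := Fin.ext h3
        rw [h4] at h2
        exact absurd h h2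
    · rintro ⟨h1, h2⟩
      exact ⟨by omega, h2⟩
  · rw [if_neg h]
    have h1 : (Finset.univ.filter fun q : Fin N => q.val < p.succ.val ∧
        ¬ lab (g q.succ) < lab (g q.castSucc)) =
        insert p (Finset.univ.filter fun q : Fin N => q.val < p.castSucc.val ∧
          ¬ lab (g q.succ) < lab (g q.castSucc)) := by
      ext q
      simp only [Finset.mem_filter, Finset.mem_univ, true_and, Fin.val_succ, Fin.val_castSucc,
        Finset.mem_insert]
      constructor
      · rintro ⟨h1, h2⟩
        rcases Nat.lt_succ_iff_lt_or_eq.1 h1 with h3 | h3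
        · exact Or.inr ⟨h3, h2⟩
        · exact Or.inl (Fin.ext h3)
      · rintro (rfl | ⟨h1, h2⟩)
        · exact ⟨by omega, h⟩
        · exact ⟨by omega, h2⟩
    rw [h1, Finset.card_insert_of_notMem]
    simp

/-- the maps with a given word. PROOF. `f = v ∘ g⁻¹`, `v` increases weakly, strictly at the descents of `g`:
`u i = v i + #(ascents before i)` is any strictly increasing sequence with values in
`{0, …, M - 1 + N - des g}`; there are `choose (M + N - des g) (N + 1)` of them. (Or induction on `N`, or count
the strictly increasing sequences as `Finset.powersetCard` / `Fin (N+1) ↪o Fin K`.) -/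
theorem card_word {N : ℕ} {lab : Fin (N + 1) → ℕ} (hinj : Function.Injective lab)
    (g : Equiv.Perm (Fin (N + 1))) (M : ℕ) :
    (Finset.univ.filter fun f : Fin (N + 1) → Fin M => wd lab (fun i => (f i).val) = g).card =
      Nat.choose (M + N - des lab g) (N + 1) := by
  classical
  have hR : Nat.choose (M + N - des lab g) (N + 1) =
      (Finset.powersetCard (N + 1) (Finset.range (M + N - des lab g))).card := by
    rw [Finset.card_powersetCard, Finset.card_range]
  rw [hR]
  have hmono : ∀ f : Fin (N + 1) → Fin M, wd lab (fun i => (f i).val) = g →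
      StrictMono fun i => (f (g i)).val + asc lab g i := by
    intro f hf
    rw [FundC_step hinj] at hf
    rw [Fin.strictMono_iff_lt_succ]
    intro p
    have h1 : (f (g p.castSucc)).val ≤ (f (g p.succ)).val := (hf p).1
    have h2 : lab (g p.succ) < lab (g p.castSucc) →
      (f (g p.castSucc)).val < (f (g p.succ)).val := (hf p).2
    have h3 := asc_succ lab g p
    show (f (g p.castSucc)).val + asc lab g p.castSucc < (f (g p.succ)).val + asc lab g p.succ
    split_ifs at h3 with h4
    · have := h2 h4
      omega
    · omega
  apply Finset.card_bij (fun f _ => Finset.univ.image fun i => (f (g i)).val + asc lab g i)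
  · intro f hf
    rw [Finset.mem_filter] at hf
    rw [Finset.mem_powersetCard]
    constructor
    · intro x hx
      rw [Finset.mem_image] at hx
      obtain ⟨i, -, rfl⟩ := hx
      rw [Finset.mem_range]
      have h1 := (f (g i)).isLt
      have h2 := asc_le' lab g i
      omega
    · rw [Finset.card_image_of_injective _ (hmono f hf.2).injective, Finset.card_univ,
        Fintype.card_fin]
  · intro f hf f' hf' h
    rw [Finset.mem_filter] at hf hf'
    have h1 : (fun i => (f (g i)).val + asc lab g i) = fun i => (f' (g i)).val + asc lab g i := by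
      apply (StrictMono.range_inj (hmono f hf.2) (hmono f' hf'.2)).1
      have h2 := congrArg (fun s : Finset ℕ => (s : Set ℕ)) h
      simpa [Finset.coe_image] using h2
    funext a
    have h2 := congrFun h1 (g.symm a)
    simp only [Equiv.apply_symm_apply] at h2
    apply Fin.ext
    omega
  · intro s hs
    rw [Finset.mem_powersetCard] at hs
    obtain ⟨hsub, hcard⟩ := hs
    set w := s.orderEmbOfFin hcard with hw
    have hwm : StrictMono w := w.strictMono
    have hlt : ∀ i, w i < M + N - des lab g := fun i =>
      Finset.mem_range.1 (hsub (Finset.orderEmbOfFin_mem s hcard i))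
    -- lower and upper bounds for the values
    have hlow : ∀ k : ℕ, ∀ hk : k < N + 1, k ≤ w ⟨k, hk⟩ := by
      intro k
      induction k with
      | zero => intro _; exact Nat.zero_le _
      | succ k ih =>
        intro hk
        have h1 := ih (by omega)
        have h2 : w ⟨k, by omega⟩ < w ⟨k + 1, hk⟩ := hwm (by rw [Fin.mk_lt_mk]; omega)
        omega
    have hup : ∀ k : ℕ, ∀ hk : k ≤ N, w ⟨N - k, by omega⟩ + k < M + N - des lab g := by
      intro k
      induction k with
      | zero => intro _; exact hlt _
      | succ k ih =>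
        intro hk
        have h1 := ih (by omega)
        have h2 : w ⟨N - (k + 1), by omega⟩ < w ⟨N - k, by omega⟩ :=
          hwm (by rw [Fin.mk_lt_mk]; omega)
        omega
    have hasc : ∀ i : Fin (N + 1), asc lab g i ≤ w i := fun i =>
      (asc_le lab g i).trans (hlow i.val i.isLt)
    have hval : ∀ i : Fin (N + 1), w i - asc lab g i < M := by
      intro i
      have h5 := hasc i
      have hi := i.isLt
      have h1 := hup (N - i.val) (by omega)
      have h2 : (⟨N - (N - i.val), by omega⟩ : Fin (N + 1)) = i := Fin.ext (by
        show N - (N - i.val) = i.val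
        omega)
      rw [h2] at h1
      have h3 := asc_ge lab g i
      have h4 := asc_le' lab g i
      omega
    refine ⟨fun a => ⟨w (g.symm a) - asc lab g (g.symm a), hval _⟩, ?_, ?_⟩
    · rw [Finset.mem_filter]
      refine ⟨Finset.mem_univ _, ?_⟩
      rw [FundC_step hinj]
      intro p
      simp only [Equiv.symm_apply_apply]
      have h1 : w p.castSucc < w p.succ := hwm Fin.castSucc_lt_succ
      have h2 := asc_succ lab g p
      have h3 := hasc p.castSucc
      have h4 := hasc p.succ
      split_ifs at h2 with h5
      · exact ⟨by omega, fun _ => by omega⟩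
      · exact ⟨by omega, fun h6 => absurd h6 h5⟩
    · have h1 : (fun i => ((⟨w (g.symm (g i)) - asc lab g (g.symm (g i)), hval _⟩ : Fin M)).val +
          asc lab g i) = w := by
        funext i
        simp only [Equiv.symm_apply_apply]
        have := hasc i
        omega
      rw [h1]
      exact Finset.image_orderEmbOfFin_univ s hcard

end Pool.SC25
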