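import Pool.Agent.SC25.FundW
import Pool.Agent.SC25.FundC

set_option autoImplicit false

/-!
# SC25/Fund: order-preserving maps and words
-/

namespace Pool.SC25

open Pool.HB45 Pool.HM63 Pool.PH43

open Classical in
/-- FUNDAMENTAL LEMMA. PROOF. Sum `card_word` over the words: a map with word `g ∈ LE Q` is order-preserving
(`a = g i`, `b = g j`, `Q a b` gives `i < j`), and conversely `wd_mem`. -/
theorem fund {N : ℕ} {Q : Rel (N + 1)} {lab : Fin (N + 1) → ℕ} (hn : Nat' Q lab)
    (G : Equiv.Perm (Fin (N + 1)) → Prop) (M : ℕ) :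
    ((Mp Q M).filter fun f => G (wd lab fun i => (f i).val)).card =
      ∑ g ∈ (LE Q).filter G, Nat.choose (M + N - des lab g) (N + 1) := by
  have hmap : ∀ f ∈ (Mp Q M).filter fun f => G (wd lab fun i => (f i).val),
      (wd lab fun i => (f i).val) ∈ (LE Q).filter G := by
    intro f hf
    rw [Finset.mem_filter] at hf ⊢
    exact ⟨wd_mem hn _ fun a b hab => mem_Mp.1 hf.1 a b hab, hf.2⟩
  rw [Finset.card_eq_sum_card_fiberwise hmap]
  refine Finset.sum_congr rfl fun g hg => ?_
  rw [← card_word hn.inj g M]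
  congr 1
  ext f
  rw [Finset.mem_filter] at hg
  simp only [Finset.mem_filter, Finset.mem_univ, true_and]
  constructor
  · exact fun h => h.2
  · intro h
    refine ⟨⟨mem_Mp.2 fun a b hab => ?_, by rw [h]; exact hg.2⟩, h⟩
    obtain ⟨i, rfl⟩ := g.surjective a
    obtain ⟨j, rfl⟩ := g.surjective b
    have hij : i < j := mem_LE.1 hg.1 i j hab
    have h1 := wd_mono (lab := lab) (fun i => (f i).val) hij.le
    rw [h] at h1
    exact h1

end Pool.SC25
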