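import Pool.Agent.SC25.Defs

set_option autoImplicit false

/-!
# SC25/FundW: words of maps
-/

namespace Pool.SC25

open Pool.HB45 Pool.HM63 Pool.PH43

/-- the keys are injective. -/
theorem wd_strictMono {n : ℕ} {lab : Fin n → ℕ} (hinj : Function.Injective lab) (f : Fin n → ℕ) :
    StrictMono fun i => toLex (f (wd lab f i), lab (wd lab f i)) := by
  have h1 : Monotone fun i => toLex (f (wd lab f i), lab (wd lab f i)) :=
    Tuple.monotone_sort fun i => toLex (f i, lab i)
  refine h1.strictMono_of_injective ?_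
  intro i j hij
  have h2 : (f (wd lab f i), lab (wd lab f i)) = (f (wd lab f j), lab (wd lab f j)) :=
    toLex.injective hij
  exact (wd lab f).injective (hinj (Prod.mk.inj h2).2)

theorem wd_unique {n : ℕ} {lab : Fin n → ℕ} (f : Fin n → ℕ)
    (g : Equiv.Perm (Fin n)) (hg : StrictMono fun i => toLex (f (g i), lab (g i))) :
    wd lab f = g := by
  have h1 : g = Tuple.sort fun i => toLex (f i, lab i) :=
    Tuple.eq_sort_iff.2 ⟨hg.monotone, fun i j hij h => absurd h (hg hij).ne⟩
  exact h1.symm

/-- the values increase weakly along the word -/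
theorem wd_mono {n : ℕ} {lab : Fin n → ℕ} (f : Fin n → ℕ) : Monotone fun i => f (wd lab f i) := by
  have h1 : Monotone fun i => toLex (f (wd lab f i), lab (wd lab f i)) :=
    Tuple.monotone_sort fun i => toLex (f i, lab i)
  intro i j hij
  have h2 := h1 hij
  simp only [Prod.Lex.toLex_le_toLex] at h2
  rcases h2 with h2 | h2
  · exact h2.le
  · exact h2.1.le

/-- the word of an order-preserving map is a linear extension -/
theorem wd_mem {n : ℕ} {Q : Rel n} {lab : Fin n → ℕ} (hn : Nat' Q lab) (f : Fin n → ℕ)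
    (hf : ∀ a b, Q a b → f a ≤ f b) : wd lab f ∈ LE Q := by
  rw [mem_LE]
  intro i j hij
  have h1 := hf _ _ hij
  have h2 := hn.mono _ _ hij
  have h3 : toLex (f (wd lab f i), lab (wd lab f i)) < toLex (f (wd lab f j), lab (wd lab f j)) := by
    rw [Prod.Lex.toLex_lt_toLex]
    rcases lt_or_eq_of_le h1 with h | h
    · exact Or.inl h
    · exact Or.inr ⟨h, h2⟩
  exact (wd_strictMono hn.inj f).lt_iff_lt.1 h3

end Pool.SC25
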