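import Pool.Agent.SC25.Fund

set_option autoImplicit false

/-!
# SC25/Gen: generating functions
-/

namespace Pool.SC25

open Pool.HB45 Pool.HM63 Pool.PH43

/-- `∑_M r^M choose (M + 1 + N - d) (N + 1) = r^d / (1 - r)^(N + 2)` for `d ≤ N` (put `M = d + k`; the terms
with `M < d` vanish; `hasSum_choose_mul_geometric_of_norm_lt_one`). -/
theorem hasSum_choose (N d : ℕ) (hd : d ≤ N) (r : ℝ) (h0 : 0 ≤ r) (h1 : r < 1) :
    HasSum (fun M : ℕ => r ^ M * (Nat.choose (M + 1 + N - d) (N + 1) : ℝ)) (r ^ d / (1 - r) ^ (N + 2)) := by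
  have hr : ‖r‖ < 1 := by rw [Real.norm_eq_abs, abs_of_nonneg h0]; exact h1
  have h2 := (hasSum_choose_mul_geometric_of_norm_lt_one (𝕜 := ℝ) (N + 1) hr).mul_left (r ^ d)
  have h3 : HasSum (fun k : ℕ => r ^ (k + d) * (Nat.choose (k + d + 1 + N - d) (N + 1) : ℝ))
      (r ^ d / (1 - r) ^ (N + 2)) := by
    have e1 : r ^ d / (1 - r) ^ (N + 2) = r ^ d * (1 / (1 - r) ^ (N + 1 + 1)) := by
      rw [mul_one_div]
    rw [e1]
    refine h2.congr_fun ?_
    intro k
    have e2 : k + d + 1 + N - d = k + (N + 1) := by omega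
    rw [e2, pow_add]
    ring
  have h4 := (hasSum_nat_add_iff (f := fun M : ℕ =>
    r ^ M * (Nat.choose (M + 1 + N - d) (N + 1) : ℝ)) d).1 h3
  have h5 : ∑ i ∈ Finset.range d, r ^ i * (Nat.choose (i + 1 + N - d) (N + 1) : ℝ) = 0 := by
    refine Finset.sum_eq_zero fun i hi => ?_
    have h6 := Finset.mem_range.1 hi
    rw [Nat.choose_eq_zero_of_lt (by omega), Nat.cast_zero, mul_zero]
  rw [h5, add_zero] at h4
  exact h4

open Classical in
/-- GENERATING FUNCTION -/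
theorem gen {N : ℕ} {Q : Rel (N + 1)} {lab : Fin (N + 1) → ℕ} (hn : Nat' Q lab)
    (G : Equiv.Perm (Fin (N + 1)) → Prop) (r : ℝ) (h0 : 0 ≤ r) (h1 : r < 1) :
    HasSum (fun M : ℕ => r ^ M *
        (((Mp Q (M + 1)).filter fun f => G (wd lab fun i => (f i).val)).card : ℝ))
      ((∑ g ∈ (LE Q).filter G, r ^ des lab g) / (1 - r) ^ (N + 2)) := by
  have hdes : ∀ g : Equiv.Perm (Fin (N + 1)), des lab g ≤ N := by
    intro g
    unfold des
    refine (Finset.card_filter_le _ _).trans ?_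
    rw [Finset.card_univ, Fintype.card_fin]
  rw [Finset.sum_div]
  have h2 : HasSum (fun M : ℕ => ∑ g ∈ (LE Q).filter G,
      r ^ M * (Nat.choose (M + 1 + N - des lab g) (N + 1) : ℝ))
      (∑ g ∈ (LE Q).filter G, r ^ des lab g / (1 - r) ^ (N + 2)) :=
    hasSum_sum fun g _ => hasSum_choose N (des lab g) (hdes g) r h0 h1
  convert! h2 using 2 with M
  rw [fund hn G (M + 1), Nat.cast_sum, Finset.mul_sum]

end Pool.SC25
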