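import Pool.Agent.SC25.PsiR
import Pool.Agent.SC25.TiltA

set_option autoImplicit false

/-!
# SC25/Num2: the second numerical inequality
-/

namespace Pool.SC25

theorem num_log {n : ℝ} (hn : 3 ≤ n) : 1 ≤ Real.log n := by
  rw [Real.le_log_iff_exp_le (by linarith)]
  have := Real.exp_one_lt_d9
  linarith

/-- consequences of the lower bound for the tilt -/
theorem num_sigma {n h K σ : ℝ} (hK : 1 ≤ K) (hn : 3 ≤ n) (hh : 1 ≤ h)
    (hb : K ^ 4 * h ^ 2 * Real.log n ≤ n) (hlo : K * Real.sqrt (Real.log n / n) ≤ σ) :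
    0 < σ ∧ K ^ 2 * Real.log n ≤ n * σ ^ 2 ∧ K ^ 3 * h ≤ n * σ := by
  have hL := num_log hn
  have hn0 : 0 < n := by linarith
  have hL0 : 0 < Real.log n := by linarith
  have hq : 0 < Real.log n / n := by positivity
  have hs0 : 0 < Real.sqrt (Real.log n / n) := Real.sqrt_pos.2 hq
  have hσ : 0 < σ := lt_of_lt_of_le (by positivity) hlo
  have h1 : (K * Real.sqrt (Real.log n / n)) ^ 2 ≤ σ ^ 2 :=
    pow_le_pow_left₀ (by positivity) hlo 2
  rw [mul_pow, Real.sq_sqrt hq.le] at h1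
  have h2 : K ^ 2 * Real.log n ≤ n * σ ^ 2 := by
    calc K ^ 2 * Real.log n = n * (K ^ 2 * (Real.log n / n)) := by field_simp
      _ ≤ n * σ ^ 2 := mul_le_mul_of_nonneg_left h1 hn0.le
  refine ⟨hσ, h2, ?_⟩
  have h3 : (K ^ 3 * h) ^ 2 ≤ (n * σ) ^ 2 := by
    calc (K ^ 3 * h) ^ 2 = K ^ 4 * h ^ 2 * 1 * (K ^ 2 * 1) := by ring
      _ ≤ K ^ 4 * h ^ 2 * Real.log n * (K ^ 2 * Real.log n) := by
          apply mul_le_mul _ _ (by positivity) (by positivity)
          · exact mul_le_mul_of_nonneg_left hL (by positivity)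
          · exact mul_le_mul_of_nonneg_left hL (by positivity)
      _ ≤ n * (n * σ ^ 2) := mul_le_mul hb h2 (by positivity) hn0.le
      _ = (n * σ) ^ 2 := by ring
  exact le_of_sq_le_sq h3 (by positivity)
where
  le_of_sq_le_sq {a b : ℝ} (h : a ^ 2 ≤ b ^ 2) (hb : 0 ≤ b) : a ≤ b :=
    le_of_abs_le (by rw [← Real.sqrt_sq_eq_abs]; calc Real.sqrt (a ^ 2) ≤ Real.sqrt (b ^ 2) := Real.sqrt_le_sqrt h
      _ = b := Real.sqrt_sq hb)

theorem wx_le {n h σ : ℝ} (hn : 0 < n) (hh : 1 ≤ h) (hσ : 0 < σ) :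
    wx n h σ ≤ 2 * Real.sqrt (n * (3 * σ * h + 2)) := by
  unfold wx
  have h1 : Real.sqrt (n * (3 / 2 * σ * (h + 1) + 2)) ≤ Real.sqrt (n * (3 * σ * h + 2)) := by
    apply Real.sqrt_le_sqrt
    apply mul_le_mul_of_nonneg_left _ hn.le
    nlinarith
  have h2 := one_le_sc σ
  calc 2 * Real.sqrt (n * (3 / 2 * σ * (h + 1) + 2)) / sc σ ≤
        2 * Real.sqrt (n * (3 / 2 * σ * (h + 1) + 2)) := div_le_self (by positivity) h2
    _ ≤ _ := by linarith

/-- `σ ≤ 27` -/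
theorem num_sigma_le {n h j K σ : ℝ} (hK : 100 ≤ K) (hn : 3 ≤ n) (hh : 1 ≤ h)
    (hb : K ^ 4 * h ^ 2 * Real.log n ≤ n) (hσ : 0 < σ) (heq : j = n * mn σ + wx n h σ)
    (hj : n / 21 ≤ j) : σ ≤ 27 := by
  rcases le_or_gt σ 1 with h1 | h1
  · linarith
  have hL := num_log hn
  have hn0 : 0 < n := by linarith
  have hK0 : 0 < K := by linarith
  -- `K^4 h ≤ n`
  have hKh : K ^ 4 * h ≤ n := by
    refine le_trans ?_ hb
    have : K ^ 4 * h = K ^ 4 * h * 1 * 1 := by ring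
    calc K ^ 4 * h = K ^ 4 * h * 1 * 1 := by ring
      _ ≤ K ^ 4 * h * h * Real.log n := by
          apply mul_le_mul _ hL (by norm_num) (by positivity)
          apply mul_le_mul_of_nonneg_left hh (by positivity)
      _ = K ^ 4 * h ^ 2 * Real.log n := by ring
  have hsc : sc σ = σ := max_eq_right h1.le
  have hw : wx n h σ ≤ 5 * n / K ^ 2 := by
    unfold wx
    rw [hsc, div_le_iff₀ hσ]
    have e1 : Real.sqrt (n * (3 / 2 * σ * (h + 1) + 2)) ≤ 5 / 2 * (n / K ^ 2) * σ := by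
      rw [Real.sqrt_le_left (by positivity)]
      have e2 : 3 / 2 * σ * (h + 1) + 2 ≤ 5 * (σ * h) := by nlinarith
      have e3 : σ * h ≤ σ ^ 2 * h := by nlinarith
      have e4 : h ≤ n / K ^ 4 := by
        rw [le_div_iff₀ (by positivity)]
        linarith
      calc n * (3 / 2 * σ * (h + 1) + 2) ≤ n * (5 * (σ ^ 2 * (n / K ^ 4))) := by
            apply mul_le_mul_of_nonneg_left _ hn0.le
            have : σ ^ 2 * h ≤ σ ^ 2 * (n / K ^ 4) := mul_le_mul_of_nonneg_left e4 (by positivity)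
            linarith
        _ ≤ (5 / 2 * (n / K ^ 2) * σ) ^ 2 := by
            have : (5 / 2 * (n / K ^ 2) * σ) ^ 2 = n * (25 / 4 * (σ ^ 2 * (n / K ^ 4))) := by
              field_simp
              norm_num
            rw [this]
            apply mul_le_mul_of_nonneg_left _ hn0.le
            have : 0 ≤ σ ^ 2 * (n / K ^ 4) := by positivity
            linarith
    have e5 : 5 * n / K ^ 2 * σ = 2 * (5 / 2 * (n / K ^ 2) * σ) := by ring
    rw [e5]
    linarith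
  have hm := mn_le hσ
  have h2 : n / 21 ≤ n * (1 / σ) + 5 * n / K ^ 2 := by
    have := mul_le_mul_of_nonneg_left hm hn0.le
    linarith
  have h3 : 5 * n / K ^ 2 ≤ n * (1 / 2000) := by
    rw [div_le_iff₀ (by positivity)]
    have : (10000 : ℝ) ≤ K ^ 2 := by nlinarith
    nlinarith
  have h4 : n * (1 / 21 - 1 / 2000) ≤ n * (1 / σ) := by linarith
  have h5 : (1 / 21 - 1 / 2000 : ℝ) ≤ 1 / σ := le_of_mul_le_mul_left h4 hn0
  rw [le_div_iff₀ hσ] at h5
  linarith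

/-- `e^(-54) / (24 * 1682 * 11)` -/
noncomputable def c3 : ℝ := Real.exp (-54) / (24 * 1682 * 11)

theorem c3_pos : 0 < c3 := by
  unfold c3
  positivity

theorem c3_le : c3 ≤ 1 := by
  unfold c3
  rw [div_le_one (by norm_num)]
  have : Real.exp (-54) ≤ 1 := Real.exp_le_one_iff.2 (by norm_num)
  linarith

/-- the last factor -/
theorem num_pow {n σ : ℝ} (hn : 220 ≤ n) (hσ : 0 < σ) (hσ1 : σ ≤ 27) :
    (1 - (1 - 2 * Real.sqrt (Real.exp (-σ)) / (1 + Real.exp (-σ))) * Real.exp (-σ) ^ 2 / 24) ^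
        (n / 10 - 2) ≤ Real.exp (-(c3 * (n * σ ^ 2))) := by
  set y : ℝ := Real.exp (-(σ / 2)) with hy
  have hy0 : 0 < y := Real.exp_pos _
  have hy2 : Real.exp (-σ) = y ^ 2 := by
    rw [hy, ← Real.exp_nat_mul]
    congr 1
    push_cast
    ring
  have hsq : Real.sqrt (Real.exp (-σ)) = y := by rw [hy2, Real.sqrt_sq hy0.le]
  have hy1 : y ≤ 1 := Real.exp_le_one_iff.2 (by linarith)
  -- `1 - y ≥ σ / 29`
  have h1 : σ / 29 ≤ 1 - y := by
    have h2 : 1 + σ / 2 ≤ Real.exp (σ / 2) := by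
      have := Real.add_one_le_exp (σ / 2)
      linarith
    have h3 : y * Real.exp (σ / 2) = 1 := by
      rw [hy, ← Real.exp_add]
      simp
    have h4 : y * (1 + σ / 2) ≤ 1 := (mul_le_mul_of_nonneg_left h2 hy0.le).trans h3.le
    nlinarith
  have hr2 : Real.exp (-54) ≤ Real.exp (-σ) ^ 2 := by
    rw [← Real.exp_nat_mul]
    apply Real.exp_le_exp.2
    push_cast
    linarith
  have hq : σ ^ 2 / 1682 ≤ 1 - 2 * Real.sqrt (Real.exp (-σ)) / (1 + Real.exp (-σ)) := by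
    rw [hsq, hy2]
    have e1 : 1 - 2 * y / (1 + y ^ 2) = (1 - y) ^ 2 / (1 + y ^ 2) := by
      field_simp
      ring
    rw [e1, div_le_div_iff₀ (by norm_num) (by positivity)]
    have e2 : (σ / 29) ^ 2 ≤ (1 - y) ^ 2 := pow_le_pow_left₀ (by positivity) h1 2
    have e3 : 1 + y ^ 2 ≤ 2 := by nlinarith
    have e4 : 0 ≤ σ ^ 2 := sq_nonneg σ
    nlinarith
  set z : ℝ := (1 - 2 * Real.sqrt (Real.exp (-σ)) / (1 + Real.exp (-σ))) * Real.exp (-σ) ^ 2 / 24
    with hz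
  have hz1 : 11 * c3 * σ ^ 2 ≤ z := by
    have e1 : σ ^ 2 / 1682 * Real.exp (-54) ≤
        (1 - 2 * Real.sqrt (Real.exp (-σ)) / (1 + Real.exp (-σ))) * Real.exp (-σ) ^ 2 :=
      mul_le_mul hq hr2 (Real.exp_pos _).le (le_trans (by positivity) hq)
    have e2 : 11 * c3 * σ ^ 2 = σ ^ 2 / 1682 * Real.exp (-54) / 24 := by
      unfold c3
      ring
    rw [e2, hz]
    linarith
  have hz2 : z ≤ 1 := by
    have e1 : 1 - 2 * Real.sqrt (Real.exp (-σ)) / (1 + Real.exp (-σ)) ≤ 1 := by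
      have : 0 ≤ 2 * Real.sqrt (Real.exp (-σ)) / (1 + Real.exp (-σ)) := by positivity
      linarith
    have e2 : Real.exp (-σ) ^ 2 ≤ 1 :=
      pow_le_one₀ (Real.exp_pos _).le (Real.exp_le_one_iff.2 (by linarith))
    have e3 : 0 ≤ Real.exp (-σ) ^ 2 := by positivity
    have e4 : (1 - 2 * Real.sqrt (Real.exp (-σ)) / (1 + Real.exp (-σ))) * Real.exp (-σ) ^ 2 ≤
        1 * Real.exp (-σ) ^ 2 := mul_le_mul_of_nonneg_right e1 e3
    rw [hz]
    linarith
  have hc := c3_pos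
  have hexp0 : 0 ≤ n / 10 - 2 := by linarith
  have hstep : (1 - z) ^ (n / 10 - 2) ≤ Real.exp (-z) ^ (n / 10 - 2) := by
    apply Real.rpow_le_rpow (by linarith) _ hexp0
    have := Real.add_one_le_exp (-z)
    linarith
  refine hstep.trans ?_
  rw [← Real.exp_mul]
  apply Real.exp_le_exp.2
  have h5 : n / 11 ≤ n / 10 - 2 := by linarith
  have hz0 : 0 ≤ 11 * c3 * σ ^ 2 := by positivity
  have h6 : 11 * c3 * σ ^ 2 * (n / 11) ≤ z * (n / 10 - 2) :=
    mul_le_mul hz1 h5 (by positivity) (le_trans hz0 hz1)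
  have h7 : 11 * c3 * σ ^ 2 * (n / 11) = c3 * (n * σ ^ 2) := by ring
  rw [h7] at h6
  linarith

theorem num_pref {n : ℝ} (hn : 3 ≤ n) : 12 * n * (n + 1) ≤ Real.exp (5 * Real.log n) := by
  have hn0 : 0 < n := by linarith
  have h1 : Real.exp (5 * Real.log n) = n ^ 5 := by
    rw [mul_comm, Real.exp_mul, Real.exp_log hn0]
    norm_cast
  rw [h1]
  have h2 : (9 : ℝ) ≤ n ^ 2 := by nlinarith
  have h3 : 12 * (n + 1) ≤ n ^ 4 := by
    have : n ^ 4 = n ^ 2 * n ^ 2 := by ring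
    rw [this]
    nlinarith
  calc 12 * n * (n + 1) = n * (12 * (n + 1)) := by ring
    _ ≤ n * n ^ 4 := mul_le_mul_of_nonneg_left h3 hn0.le
    _ = n ^ 5 := by ring

/-- PROOF. `j > n/21` and `wx ≤ 2 √(5 n h) ≤ 5 n/K²` for `σ ≥ 1` give `σ ≤ 27` (`mn ≤ 1/σ`). `r = e^(-σ) ≥ e^(-27)`,
`1 - 2√r/(1+r) = (1-√r)²/(1+r) ≥ σ²/1682`, so the last factor is
`≤ exp (-c3 n σ²)`; `2 σ x ≤ 4 σ √(n (3 σ h + 2)) ≤ c3 n σ²/4`,
`σ/2 ≤ c3 n σ²/4`, `log (12 n (n + 1)) ≤ c3 K² log n/4 ≤ c3 n σ²/4` for `K` large (`n σ ≥ K³ h`, `n σ² ≥ K² log n`). -/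
theorem num2' : ∃ K0 : ℝ, ∀ K ≥ K0, ∀ n h j σ : ℝ, 3 ≤ n → 1 ≤ h →
    K ^ 4 * h ^ 2 * Real.log n ≤ n → Tilt n h j K σ → n / 21 ≤ j →
    12 * n * (n + 1) * Real.exp (2 * σ * wx n h σ) * Real.exp (σ / 2) *
      (1 - (1 - 2 * Real.sqrt (Real.exp (-σ)) / (1 + Real.exp (-σ))) * Real.exp (-σ) ^ 2 / 24) ^
        (n / 10 - 2) ≤ 1 := by
  have hc := c3_pos
  have hc1 := c3_le
  refine ⟨2000 / c3 ^ 2 + 100, fun K hK n h j σ hn hh hb hT hj => ?_⟩
  have hcc : 0 < 2000 / c3 ^ 2 := by positivity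
  have hK100 : 100 ≤ K := by linarith
  have hK1 : 1 ≤ K := by linarith
  have hKc : 2000 / c3 ^ 2 ≤ K := by linarith
  have hKc' : 2000 ≤ K * c3 ^ 2 := by
    rwa [div_le_iff₀ (by positivity)] at hKc
  have hKc1 : 2000 ≤ K * c3 := by
    have : c3 ^ 2 ≤ c3 := by nlinarith
    have := mul_le_mul_of_nonneg_left this (by linarith : (0 : ℝ) ≤ K)
    linarith
  have hn0 : 0 < n := by linarith
  obtain ⟨hσ, hnσ2, hnσ⟩ := num_sigma hK1 hn hh hb hT.lo
  have hσ27 := num_sigma_le hK100 hn hh hb hσ hT.eq hj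
  have hL := num_log hn
  have hK2 : K ≤ K ^ 2 := by nlinarith
  have hK3 : K ≤ K ^ 3 := by nlinarith
  have hn220 : 220 ≤ n := by
    have h1 : (1 : ℝ) ≤ h ^ 2 := by nlinarith
    have h2 : K ^ 4 * 1 * 1 ≤ K ^ 4 * h ^ 2 * Real.log n :=
      mul_le_mul (mul_le_mul_of_nonneg_left h1 (by positivity)) hL (by norm_num) (by positivity)
    have h3 : (10000 : ℝ) ≤ K ^ 2 := by nlinarith
    have h4 : K ^ 4 = K ^ 2 * K ^ 2 := by ring
    nlinarith
  have hpow := num_pow hn220 hσ hσ27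
  have hpref := num_pref hn
  have hD : 0 ≤ n * σ ^ 2 := by positivity
  -- the three estimates
  have e1 : 5 * Real.log n ≤ c3 * (n * σ ^ 2) / 4 := by
    have h1 : 20 * Real.log n ≤ c3 * (K ^ 2 * Real.log n) := by
      have : (20 : ℝ) ≤ c3 * K ^ 2 := by
        have := mul_le_mul_of_nonneg_left hK2 hc.le
        linarith
      calc 20 * Real.log n ≤ c3 * K ^ 2 * Real.log n := mul_le_mul_of_nonneg_right this (by linarith)
        _ = _ := by ring
    have h2 := mul_le_mul_of_nonneg_left hnσ2 hc.le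
    linarith
  have e2 : σ / 2 ≤ c3 * (n * σ ^ 2) / 4 := by
    have h1 : 2 ≤ c3 * (n * σ) := by
      have h2 : K ^ 3 * 1 ≤ K ^ 3 * h := mul_le_mul_of_nonneg_left hh (by positivity)
      have h3 : K ≤ n * σ := by linarith
      have h4 := mul_le_mul_of_nonneg_left h3 hc.le
      linarith
    have h5 := mul_le_mul_of_nonneg_right h1 hσ.le
    nlinarith
  have e3 : 2 * σ * wx n h σ ≤ c3 * (n * σ ^ 2) / 4 := by
    have h1 := wx_le (σ := σ) hn0 hh hσ
    have h2 : Real.sqrt (n * (3 * σ * h + 2)) ≤ c3 * (n * σ) / 16 := by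
      rw [Real.sqrt_le_left (by positivity)]
      -- `256 (3 σ h + 2) ≤ c3² n σ²`
      have h3 : 768 * (σ * h) ≤ c3 ^ 2 * (n * σ ^ 2) / 2 := by
        have h4 : K ^ 3 * h * σ ≤ n * σ * σ := mul_le_mul_of_nonneg_right hnσ hσ.le
        have h5 : K * (σ * h) ≤ n * σ ^ 2 := by
          have : K * (σ * h) ≤ K ^ 3 * (σ * h) := mul_le_mul_of_nonneg_right hK3 (by positivity)
          nlinarith
        have h6 := mul_le_mul_of_nonneg_left h5 (by positivity : (0 : ℝ) ≤ c3 ^ 2)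
        have h7 : 2000 * (σ * h) ≤ K * c3 ^ 2 * (σ * h) :=
          mul_le_mul_of_nonneg_right hKc' (by positivity)
        have h8 : 0 < σ * h := by positivity
        nlinarith
      have h3' : (512 : ℝ) ≤ c3 ^ 2 * (n * σ ^ 2) / 2 := by
        have h4 : K * 1 ≤ K ^ 2 * Real.log n := mul_le_mul hK2 hL (by norm_num) (by positivity)
        have h5 : K ≤ n * σ ^ 2 := by linarith
        have h6 := mul_le_mul_of_nonneg_left h5 (by positivity : (0 : ℝ) ≤ c3 ^ 2)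
        linarith
      have h9 : 256 * (3 * σ * h + 2) ≤ c3 ^ 2 * (n * σ ^ 2) := by linarith
      have h10 := mul_le_mul_of_nonneg_left h9 hn0.le
      have h11 : (c3 * (n * σ) / 16) ^ 2 = n * (c3 ^ 2 * (n * σ ^ 2)) / 256 := by ring
      rw [h11]
      linarith
    have h12 : 2 * σ * wx n h σ ≤ 2 * σ * (2 * (c3 * (n * σ) / 16)) :=
      mul_le_mul_of_nonneg_left (by linarith) (by positivity)
    have h13 : 2 * σ * (2 * (c3 * (n * σ) / 16)) = c3 * (n * σ ^ 2) / 4 := by ring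
    linarith
  have hbase0 : 0 ≤ (1 - (1 - 2 * Real.sqrt (Real.exp (-σ)) / (1 + Real.exp (-σ))) *
      Real.exp (-σ) ^ 2 / 24) ^ (n / 10 - 2) := by
    apply Real.rpow_nonneg
    have f1 : 1 - 2 * Real.sqrt (Real.exp (-σ)) / (1 + Real.exp (-σ)) ≤ 1 := by
      have : 0 ≤ 2 * Real.sqrt (Real.exp (-σ)) / (1 + Real.exp (-σ)) := by positivity
      linarith
    have f2 : Real.exp (-σ) ^ 2 ≤ 1 :=
      pow_le_one₀ (Real.exp_pos _).le (Real.exp_le_one_iff.2 (by linarith))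
    have f3 : 0 ≤ Real.exp (-σ) ^ 2 := by positivity
    have f4 : (1 - 2 * Real.sqrt (Real.exp (-σ)) / (1 + Real.exp (-σ))) * Real.exp (-σ) ^ 2 ≤
        1 * Real.exp (-σ) ^ 2 := mul_le_mul_of_nonneg_right f1 f3
    linarith
  calc 12 * n * (n + 1) * Real.exp (2 * σ * wx n h σ) * Real.exp (σ / 2) *
      (1 - (1 - 2 * Real.sqrt (Real.exp (-σ)) / (1 + Real.exp (-σ))) * Real.exp (-σ) ^ 2 / 24) ^
        (n / 10 - 2)
      ≤ Real.exp (5 * Real.log n) * Real.exp (2 * σ * wx n h σ) * Real.exp (σ / 2) *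
        Real.exp (-(c3 * (n * σ ^ 2))) := by
        apply mul_le_mul _ hpow hbase0 (by positivity)
        apply mul_le_mul_of_nonneg_right _ (Real.exp_pos _).le
        exact mul_le_mul_of_nonneg_right hpref (Real.exp_pos _).le
    _ = Real.exp (5 * Real.log n + 2 * σ * wx n h σ + σ / 2 + -(c3 * (n * σ ^ 2))) := by
        rw [Real.exp_add, Real.exp_add, Real.exp_add]
    _ ≤ 1 := by
        apply Real.exp_le_one_iff.2
        have : 0 ≤ c3 * (n * σ ^ 2) := by positivity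
        linarith

end Pool.SC25
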