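import Pool.Agent.SC25.Num

set_option autoImplicit false

/-!
# SC25/Num2S: proof of `num2`
-/

namespace Pool.SC25

/-- elementary consequences of the hypotheses -/
theorem base_facts {K n h : ℝ} (hK : 1 ≤ K) (hn : 3 ≤ n) (hh : 1 ≤ h)
    (hKn : K ^ 4 * h ^ 2 * Real.log n ≤ n) :
    1 ≤ Real.log n ∧ K ^ 4 * h ^ 2 ≤ n ∧ K ^ 4 ≤ n ∧ K ^ 2 * h ≤ Real.sqrt n ∧
      K ^ 2 * h * Real.sqrt (Real.log n) ≤ Real.sqrt n := by
  have h1 : 1 ≤ Real.log n := by
    rw [Real.le_log_iff_exp_le (by linarith)]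
    have := Real.exp_one_lt_d9
    linarith
  have hK4 : 1 ≤ K ^ 4 := one_le_pow₀ hK
  have hh2 : 1 ≤ h ^ 2 := one_le_pow₀ hh
  have h2 : K ^ 4 * h ^ 2 ≤ n := by
    have : K ^ 4 * h ^ 2 * 1 ≤ K ^ 4 * h ^ 2 * Real.log n :=
      mul_le_mul_of_nonneg_left h1 (by positivity)
    linarith
  have h3 : K ^ 4 ≤ n := by
    have : K ^ 4 * 1 ≤ K ^ 4 * h ^ 2 := mul_le_mul_of_nonneg_left hh2 (by positivity)
    linarith
  refine ⟨h1, h2, h3, ?_, ?_⟩
  · apply Real.le_sqrt_of_sq_le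
    calc (K ^ 2 * h) ^ 2 = K ^ 4 * h ^ 2 := by ring
      _ ≤ n := h2
  · apply Real.le_sqrt_of_sq_le
    calc (K ^ 2 * h * Real.sqrt (Real.log n)) ^ 2
        = K ^ 4 * h ^ 2 * (Real.sqrt (Real.log n)) ^ 2 := by ring
      _ = K ^ 4 * h ^ 2 * Real.log n := by rw [Real.sq_sqrt (by linarith)]
      _ ≤ n := hKn

/-- consequences of the lower bound of the tilt -/
theorem tilt_facts {K n h j σ : ℝ} (hK : 1 ≤ K) (hn : 3 ≤ n) (hh : 1 ≤ h)
    (hKn : K ^ 4 * h ^ 2 * Real.log n ≤ n) (ht : Tilt n h j K σ) :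
    0 < σ ∧ K ^ 2 * Real.log n ≤ n * σ ^ 2 ∧ K ^ 3 * h ≤ n * σ := by
  obtain ⟨h1, h2, h3, h4, h5⟩ := base_facts hK hn hh hKn
  have hn0 : 0 < n := by linarith
  have hL : 0 < Real.log n := by linarith
  have hσ : 0 < σ := by
    have : 0 < K * Real.sqrt (Real.log n / n) := by
      have : 0 < Real.log n / n := by positivity
      have := Real.sqrt_pos.2 this
      positivity
    exact this.trans_le ht.lo
  refine ⟨hσ, ?_, ?_⟩
  · have h6 : (K * Real.sqrt (Real.log n / n)) ^ 2 ≤ σ ^ 2 :=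
      pow_le_pow_left₀ (by positivity) ht.lo 2
    rw [mul_pow, Real.sq_sqrt (by positivity)] at h6
    have h7 : n * (K ^ 2 * (Real.log n / n)) ≤ n * σ ^ 2 := mul_le_mul_of_nonneg_left h6 hn0.le
    have h8 : n * (K ^ 2 * (Real.log n / n)) = K ^ 2 * Real.log n := by field_simp
    linarith
  · have h6 : n * (K * Real.sqrt (Real.log n / n)) ≤ n * σ := mul_le_mul_of_nonneg_left ht.lo hn0.le
    have h7 : n * (K * Real.sqrt (Real.log n / n)) = K * (Real.sqrt n * Real.sqrt (Real.log n)) := by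
      rw [Real.sqrt_div hL.le]
      have h8 : n = Real.sqrt n * Real.sqrt n := (Real.mul_self_sqrt hn0.le).symm
      have h9 : Real.sqrt n ≠ 0 := (Real.sqrt_pos.2 hn0).ne'
      calc n * (K * (Real.sqrt (Real.log n) / Real.sqrt n))
          = (Real.sqrt n * Real.sqrt n) * (K * (Real.sqrt (Real.log n) / Real.sqrt n)) := by
            rw [← h8]
        _ = K * (Real.sqrt n * Real.sqrt (Real.log n)) := by field_simp
    have h8 : 1 ≤ Real.sqrt (Real.log n) := by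
      rw [Real.one_le_sqrt]; exact h1
    have h9 : K ^ 2 * h * 1 ≤ Real.sqrt n * Real.sqrt (Real.log n) :=
      mul_le_mul h4 h8 (by norm_num) (Real.sqrt_nonneg _)
    have h10 : K * (K ^ 2 * h * 1) ≤ K * (Real.sqrt n * Real.sqrt (Real.log n)) :=
      mul_le_mul_of_nonneg_left h9 (by linarith)
    calc K ^ 3 * h = K * (K ^ 2 * h * 1) := by ring
      _ ≤ _ := h10
      _ = _ := h7.symm
      _ ≤ _ := h6

/-- `σ ≤ 42` if `n / 21 ≤ j`. -/
theorem tilt_le42 {K n h j σ : ℝ} (hn : 3 ≤ n) (hσ : 0 < σ) (ht : Tilt n h j K σ)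
    (hj : n / 21 ≤ j) : σ ≤ 42 := by
  by_contra hcon
  push Not at hcon
  have hsc : sc σ = σ := max_eq_right (by linarith)
  have h1 := ht.le
  rw [hsc] at h1
  have h2 := mn_le hσ
  have h3 := ht.eq
  have h4 : wx n h σ * σ ≤ n := by
    have : wx n h σ * σ * σ ≤ n * σ := by nlinarith
    exact le_of_mul_le_mul_right this hσ
  have h5 : j * σ ≤ 2 * n := by
    rw [h3]
    have h6 : mn σ * σ ≤ 1 := by
      have := mul_le_mul_of_nonneg_right h2 hσ.le
      rwa [one_div, inv_mul_cancel₀ hσ.ne'] at this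
    have h7 : n * (mn σ * σ) ≤ n * 1 := mul_le_mul_of_nonneg_left h6 (by linarith)
    nlinarith
  have h8 : n / 21 * σ ≤ j * σ := mul_le_mul_of_nonneg_right hj hσ.le
  have h9 : n / 21 * 42 < n / 21 * σ := mul_lt_mul_of_pos_left hcon (by positivity)
  linarith

/-- the loss per window -/
theorem base_le {σ : ℝ} (hσ : 0 < σ) (h42 : σ ≤ 42) :
    0 < 1 - (1 - 2 * Real.sqrt (Real.exp (-σ)) / (1 + Real.exp (-σ))) * Real.exp (-σ) ^ 2 / 24 ∧
    1 - (1 - 2 * Real.sqrt (Real.exp (-σ)) / (1 + Real.exp (-σ))) * Real.exp (-σ) ^ 2 / 24 ≤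
      Real.exp (-(Real.exp (-84) / 92928 * σ ^ 2)) := by
  set r := Real.exp (-σ) with hr
  set q := Real.exp (-(σ / 2)) with hq
  have hr0 : 0 < r := Real.exp_pos _
  have hq0 : 0 < q := Real.exp_pos _
  have hqr : r = q ^ 2 := by
    rw [hr, hq, ← Real.exp_nat_mul]
    congr 1
    push_cast
    ring
  have hsq : Real.sqrt r = q := by rw [hqr]; exact Real.sqrt_sq hq0.le
  have hq1 : q < 1 := by
    rw [hq, Real.exp_lt_one_iff]; linarith
  have hr1 : r < 1 := by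
    rw [hr, Real.exp_lt_one_iff]; linarith
  rw [hsq]
  have h1 : 1 - 2 * q / (1 + r) = (1 - q) ^ 2 / (1 + r) := by
    rw [hqr]
    field_simp
    ring
  rw [h1]
  -- `1 - q ≥ σ / 44`
  have h2 : σ / 44 ≤ 1 - q := by
    have h3 : (1 + σ / 2) * q ≤ 1 := by
      have h4 := Real.add_one_le_exp (σ / 2)
      have h5 : Real.exp (σ / 2) * q = 1 := by
        rw [hq, ← Real.exp_add]; simp
      nlinarith
    have h5 : σ / 44 * (1 + σ / 2) ≤ σ / 2 := by nlinarith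
    have h6 : σ / 2 ≤ (1 - q) * (1 + σ / 2) := by nlinarith
    have h7 : σ / 44 * (1 + σ / 2) ≤ (1 - q) * (1 + σ / 2) := h5.trans h6
    exact le_of_mul_le_mul_right h7 (by linarith)
  have h3 : σ ^ 2 / 1936 ≤ (1 - q) ^ 2 := by
    have := pow_le_pow_left₀ (by positivity) h2 2
    calc σ ^ 2 / 1936 = (σ / 44) ^ 2 := by ring
      _ ≤ _ := this
  have h4 : σ ^ 2 / 3872 ≤ (1 - q) ^ 2 / (1 + r) := by
    rw [div_le_div_iff₀ (by norm_num) (by linarith)]
    nlinarith [sq_nonneg σ, sq_nonneg (1 - q)]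
  have h5 : Real.exp (-84) ≤ r ^ 2 := by
    rw [hr, ← Real.exp_nat_mul]
    apply Real.exp_le_exp.2
    push_cast
    linarith
  have h6 : Real.exp (-84) / 92928 * σ ^ 2 ≤ (1 - q) ^ 2 / (1 + r) * r ^ 2 / 24 := by
    have h7 : σ ^ 2 / 3872 * Real.exp (-84) ≤ (1 - q) ^ 2 / (1 + r) * r ^ 2 :=
      mul_le_mul h4 h5 (Real.exp_pos _).le (by positivity)
    calc Real.exp (-84) / 92928 * σ ^ 2 = (σ ^ 2 / 3872 * Real.exp (-84)) / 24 := by ring
      _ ≤ _ := div_le_div_of_nonneg_right h7 (by norm_num)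
  constructor
  · have h7 : (1 - q) ^ 2 / (1 + r) ≤ 1 := by
      rw [div_le_one (by linarith)]
      nlinarith
    have h8 : r ^ 2 ≤ 1 := pow_le_one₀ hr0.le hr1.le
    have h9 : (1 - q) ^ 2 / (1 + r) * r ^ 2 ≤ 1 * 1 :=
      mul_le_mul h7 h8 (by positivity) (by norm_num)
    linarith
  · have h7 := Real.add_one_le_exp (-(Real.exp (-84) / 92928 * σ ^ 2))
    linarith

theorem num2_aux {c K n h j σ : ℝ} (hc : 0 < c) (hc1 : c ≤ 1) (hK : 2000 / c ^ 2 ≤ K) (hn : 3 ≤ n)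
    (hh : 1 ≤ h) (hKn : K ^ 4 * h ^ 2 * Real.log n ≤ n) (ht : Tilt n h j K σ) :
    12 * n * (n + 1) * Real.exp (2 * σ * wx n h σ) * Real.exp (σ / 2) *
      Real.exp (-(c * (n * σ ^ 2))) ≤ 1 := by
  have hc2 : c ^ 2 ≤ 1 := pow_le_one₀ hc.le hc1
  have hcc : c ^ 2 ≤ c := by nlinarith
  have hKc : 2000 ≤ K * c ^ 2 := by
    rwa [div_le_iff₀ (by positivity)] at hK
  have hK0 : 0 < K := by
    by_contra hcon
    push Not at hcon
    nlinarith [sq_nonneg c]
  have hK2000 : 2000 ≤ K := by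
    have : K * c ^ 2 ≤ K * 1 := mul_le_mul_of_nonneg_left hc2 hK0.le
    linarith
  have hK1 : 1 ≤ K := by linarith
  obtain ⟨hL, h2, h3, h4, h5⟩ := base_facts hK1 hn hh hKn
  obtain ⟨hσ, h6, h7⟩ := tilt_facts hK1 hn hh hKn ht
  have hn0 : 0 < n := by linarith
  have hKK2 : K ≤ K ^ 2 := by nlinarith
  have hKK3 : K ≤ K ^ 3 := by
    have : 1 ≤ K ^ 2 := one_le_pow₀ hK1
    nlinarith
  have hKcc : 2000 ≤ K * c := by
    have : K * c ^ 2 ≤ K * c := mul_le_mul_of_nonneg_left hcc hK0.le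
    linarith
  -- n σ² large
  have hA : K ≤ n * σ ^ 2 := by
    have : K ^ 2 * 1 ≤ K ^ 2 * Real.log n := mul_le_mul_of_nonneg_left hL (by positivity)
    linarith
  have hB : K * h ≤ n * σ := by
    have : K * h ≤ K ^ 3 * h := mul_le_mul_of_nonneg_right hKK3 (by linarith)
    linarith
  -- (a)
  have ha : 2 * σ * wx n h σ ≤ c / 4 * (n * σ ^ 2) := by
    have hw : wx n h σ ≤ 2 * Real.sqrt (n * (3 * σ * h + 2)) := by
      unfold wx
      have h8 : Real.sqrt (n * (3 / 2 * σ * (h + 1) + 2)) ≤ Real.sqrt (n * (3 * σ * h + 2)) := by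
        apply Real.sqrt_le_sqrt
        apply mul_le_mul_of_nonneg_left _ hn0.le
        nlinarith
      rw [div_le_iff₀ (lt_of_lt_of_le one_pos (one_le_sc σ))]
      have h9 := one_le_sc σ
      have h10 : 0 ≤ 2 * Real.sqrt (n * (3 * σ * h + 2)) := by positivity
      nlinarith
    have hs : 4 * σ * Real.sqrt (n * (3 * σ * h + 2)) ≤ c / 4 * (n * σ ^ 2) := by
      have h8 : Real.sqrt (n * (3 * σ * h + 2)) ≤ c / 16 * (n * σ) := by
        rw [Real.sqrt_le_left (by positivity)]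
        have h9 : 3 * σ * h + 2 ≤ c ^ 2 / 256 * (n * σ ^ 2) := by
          have h10 : 768 * h ≤ c ^ 2 / 2 * (n * σ) := by
            have : c ^ 2 / 2 * (K * h) ≤ c ^ 2 / 2 * (n * σ) :=
              mul_le_mul_of_nonneg_left hB (by positivity)
            nlinarith
          have h11 : 512 ≤ c ^ 2 / 2 * (n * σ ^ 2) := by
            have : c ^ 2 / 2 * K ≤ c ^ 2 / 2 * (n * σ ^ 2) :=
              mul_le_mul_of_nonneg_left hA (by positivity)
            nlinarith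
          have h12 : 768 * h * σ ≤ c ^ 2 / 2 * (n * σ) * σ := mul_le_mul_of_nonneg_right h10 hσ.le
          nlinarith
        calc n * (3 * σ * h + 2) ≤ n * (c ^ 2 / 256 * (n * σ ^ 2)) :=
              mul_le_mul_of_nonneg_left h9 hn0.le
          _ = (c / 16 * (n * σ)) ^ 2 := by ring
      have h9 : 4 * σ * Real.sqrt (n * (3 * σ * h + 2)) ≤ 4 * σ * (c / 16 * (n * σ)) :=
        mul_le_mul_of_nonneg_left h8 (by positivity)
      calc _ ≤ _ := h9
        _ = c / 4 * (n * σ ^ 2) := by ring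
    have h8 : 2 * σ * wx n h σ ≤ 2 * σ * (2 * Real.sqrt (n * (3 * σ * h + 2))) :=
      mul_le_mul_of_nonneg_left hw (by positivity)
    linarith
  -- (b)
  have hb : σ / 2 ≤ c / 4 * (n * σ ^ 2) := by
    have h8 : 2 ≤ c * (n * σ) := by
      have h9 : c * K ≤ c * (n * σ) := by
        apply mul_le_mul_of_nonneg_left _ hc.le
        nlinarith
      nlinarith
    nlinarith
  -- (c)
  have hd : 12 * n * (n + 1) ≤ Real.exp (c / 4 * (n * σ ^ 2)) := by
    have h8 : 12 * n * (n + 1) ≤ n ^ 5 := by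
      have h9 : 12 * n * (n + 1) ≤ 16 * n ^ 2 := by nlinarith
      have h10 : (27:ℝ) ≤ n ^ 3 := by
        have := pow_le_pow_left₀ (by norm_num : (0:ℝ) ≤ 3) hn 3
        norm_num at this
        exact this
      have h11 : n ^ 5 = n ^ 3 * n ^ 2 := by ring
      rw [h11]
      nlinarith [sq_nonneg n]
    have h9 : n ^ 5 = Real.exp (5 * Real.log n) := by
      rw [show (5:ℝ) * Real.log n = ((5:ℕ):ℝ) * Real.log n by norm_num, Real.exp_nat_mul,
        Real.exp_log hn0]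
    rw [h9] at h8
    refine h8.trans (Real.exp_le_exp.2 ?_)
    have h10 : c / 4 * (K ^ 2 * Real.log n) ≤ c / 4 * (n * σ ^ 2) :=
      mul_le_mul_of_nonneg_left h6 (by positivity)
    have h11 : 20 ≤ c * K ^ 2 := by nlinarith
    nlinarith
  have h8 : 12 * n * (n + 1) * Real.exp (2 * σ * wx n h σ) * Real.exp (σ / 2) *
      Real.exp (-(c * (n * σ ^ 2))) ≤
      Real.exp (c / 4 * (n * σ ^ 2)) * Real.exp (c / 4 * (n * σ ^ 2)) *
        Real.exp (c / 4 * (n * σ ^ 2)) * Real.exp (-(c * (n * σ ^ 2))) := by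
    apply mul_le_mul_of_nonneg_right _ (Real.exp_pos _).le
    apply mul_le_mul _ (Real.exp_le_exp.2 hb) (Real.exp_pos _).le (by positivity)
    apply mul_le_mul hd (Real.exp_le_exp.2 ha) (Real.exp_pos _).le (by positivity)
  refine h8.trans ?_
  rw [← Real.exp_add, ← Real.exp_add, ← Real.exp_add, ← Real.exp_zero]
  apply Real.exp_le_exp.2
  have h9 : 0 ≤ c * (n * σ ^ 2) := by positivity
  linarith

theorem num2S : ∃ K0 : ℝ, ∀ K ≥ K0, ∀ n h j σ : ℝ, 3 ≤ n → 1 ≤ h →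
    K ^ 4 * h ^ 2 * Real.log n ≤ n → Tilt n h j K σ → n / 21 ≤ j →
    12 * n * (n + 1) * Real.exp (2 * σ * wx n h σ) * Real.exp (σ / 2) *
      (1 - (1 - 2 * Real.sqrt (Real.exp (-σ)) / (1 + Real.exp (-σ))) * Real.exp (-σ) ^ 2 / 24) ^
        (n / 10 - 2) ≤ 1 := by
  set c : ℝ := Real.exp (-84) / 92928 / 11 with hc
  have hc0 : 0 < c := by positivity
  have hc1 : c ≤ 1 := by
    have : Real.exp (-84) ≤ 1 := by rw [Real.exp_le_one_iff]; norm_num
    rw [hc]
    linarith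
  refine ⟨2000 / c ^ 2, fun K hK n h j σ hn hh hKn ht hj => ?_⟩
  have hK2000 : 2000 ≤ K := by
    have : (2000:ℝ) ≤ 2000 / c ^ 2 := by
      rw [le_div_iff₀ (by positivity)]
      have : c ^ 2 ≤ 1 := pow_le_one₀ hc0.le hc1
      linarith
    exact this.trans hK
  have hK1 : 1 ≤ K := by linarith
  obtain ⟨hL, h2, h3, h4, h5⟩ := base_facts hK1 hn hh hKn
  obtain ⟨hσ, h6, h7⟩ := tilt_facts hK1 hn hh hKn ht
  have h42 := tilt_le42 hn hσ ht hj
  obtain ⟨hb0, hb1⟩ := base_le hσ h42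
  have hn220 : 220 ≤ n := by
    have : K ≤ K ^ 4 := by
      have : 1 ≤ K ^ 3 := one_le_pow₀ hK1
      nlinarith
    linarith
  have h8 : (1 - (1 - 2 * Real.sqrt (Real.exp (-σ)) / (1 + Real.exp (-σ))) *
      Real.exp (-σ) ^ 2 / 24) ^ (n / 10 - 2) ≤ Real.exp (-(c * (n * σ ^ 2))) := by
    have h9 : 0 ≤ n / 10 - 2 := by linarith
    refine (Real.rpow_le_rpow hb0.le hb1 h9).trans ?_
    rw [← Real.exp_mul]
    apply Real.exp_le_exp.2
    have h10 : n / 11 ≤ n / 10 - 2 := by linarith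
    have h11 : Real.exp (-84) / 92928 * σ ^ 2 * (n / 11) ≤
        Real.exp (-84) / 92928 * σ ^ 2 * (n / 10 - 2) :=
      mul_le_mul_of_nonneg_left h10 (by positivity)
    have h12 : c * (n * σ ^ 2) = Real.exp (-84) / 92928 * σ ^ 2 * (n / 11) := by
      rw [hc]; ring
    rw [h12]
    linarith
  have h9 := num2_aux hc0 hc1 hK hn hh hKn ht
  refine le_trans ?_ h9
  apply mul_le_mul_of_nonneg_left h8 (by positivity)

end Pool.SC25
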