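import Pool.Agent.SC25.FlipE1
import Pool.Agent.SC25.Det
import Pool.Agent.HB45.Val
import Pool.Agent.HB45.Win
import Pool.Agent.HB45.Avg

set_option autoImplicit false

/-!
# SC25/OneWin43: one window (helper43)
-/

namespace Pool.SC25

open Pool.HB45 Pool.HM63 Pool.PH43

theorem tw_nonneg {N : ℕ} (Q : Rel (N + 1)) (lab : Fin (N + 1) → ℕ) {c : ℝ} (hc : 0 ≤ c)
    (p : Fin N) (g : Equiv.Perm (Fin (N + 1))) : 0 ≤ tw Q lab c c p g := by
  unfold tw
  split_ifs <;> first | exact hc | exact zero_le_one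

theorem tw_le_one {N : ℕ} (Q : Rel (N + 1)) (lab : Fin (N + 1) → ℕ) {c : ℝ} (hc : c ≤ 1)
    (p : Fin N) (g : Equiv.Perm (Fin (N + 1))) : tw Q lab c c p g ≤ 1 := by
  unfold tw
  split_ifs <;> first | exact hc | exact le_rfl

/-- the two neighbour pairs at the border of the window -/
theorem card_border {N : ℕ} (o : ℕ) :
    ((Finset.univ : Finset (Fin N)).filter fun q => q.val + 1 = o ∨ q.val = o + 3).card ≤ 2 := by
  classical
  rw [Finset.filter_or]
  refine (Finset.card_union_le _ _).trans ?_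
  have h1 : ((Finset.univ : Finset (Fin N)).filter fun q => q.val + 1 = o).card ≤ 1 := by
    rw [Finset.card_le_one]
    intro a ha b hb
    have h2 := (Finset.mem_filter.1 ha).2
    have h3 := (Finset.mem_filter.1 hb).2
    exact Fin.ext (by omega)
  have h2 : ((Finset.univ : Finset (Fin N)).filter fun q => q.val = o + 3).card ≤ 1 := by
    rw [Finset.card_le_one]
    intro a ha b hb
    have h2 := (Finset.mem_filter.1 ha).2
    have h3 := (Finset.mem_filter.1 hb).2
    exact Fin.ext (by omega)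
  omega

/-- the sorted order of a good window -/
theorem sorted_win {N m : ℕ} (hm : m * (3 + 2) ≤ N + 1) {Q : Rel (N + 1)} {lab : Fin (N + 1) → ℕ}
    (hn : Nat' Q lab) (k : Fin m) {π : Equiv.Perm (Fin (N + 1))} (hπ : π ∈ LE Q)
    (hg : ¬ Bad (winRel (win_le hm k) Q π)) :
    ∃ x0 ∈ LE (winRel (win_le hm k) Q π),
      mid hm k ∈ upT Q lab {mid hm k} (π * emb (win_le hm k) x0) ∧
      ∀ x : Equiv.Perm (Fin (3 + 1)), des lab (π * emb (win_le hm k) x0) ≤
        des lab (π * emb (win_le hm k) x) + 2 := by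
  classical
  set hw := win_le hm k with hhw
  have hn' := nat_win hn hw π
  obtain ⟨x0, hx0, hmono⟩ := exists_sort (fun i => lab (π (wpos hw i))) hn'.inj hn'.mono
  have hval : ∀ i : Fin (3 + 1), (wpos hw i).val = k.val * (3 + 2) + i.val := fun i => rfl
  have hlet : ∀ (x : Equiv.Perm (Fin (3 + 1))) (i : Fin (3 + 1)),
      (π * emb hw x) (wpos hw i) = π (wpos hw (x i)) := by
    intro x i
    rw [Equiv.Perm.mul_apply, emb_wpos]
  have hout : ∀ (x : Equiv.Perm (Fin (3 + 1))) (p : Fin (N + 1)),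
      ¬ (k.val * (3 + 2) ≤ p.val ∧ p.val < k.val * (3 + 2) + (3 + 1)) →
      (π * emb hw x) p = π p := by
    intro x p hp
    rw [Equiv.Perm.mul_apply, emb_of_not hw x p hp]
  -- no descent inside the window in the sorted order
  have hin : ∀ q : Fin N, k.val * (3 + 2) ≤ q.val → q.val ≤ k.val * (3 + 2) + 2 →
      q ∉ DS lab (π * emb hw x0) := by
    intro q hq1 hq2 hq
    rw [mem_DS] at hq
    have h1 : q.castSucc = wpos hw ⟨q.val - k.val * (3 + 2), by omega⟩ :=
      Fin.ext (by rw [hval]; simp only [Fin.val_castSucc]; omega)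
    have h2 : q.succ = wpos hw ⟨q.val - k.val * (3 + 2) + 1, by omega⟩ :=
      Fin.ext (by rw [hval]; simp only [Fin.val_succ]; omega)
    rw [h1, h2, hlet, hlet] at hq
    have h3 := hmono (a := ⟨q.val - k.val * (3 + 2), by omega⟩)
      (b := ⟨q.val - k.val * (3 + 2) + 1, by omega⟩) (Fin.lt_def.2 (by simp))
    exact absurd hq (not_lt.2 h3.le)
  have hmid1 : (mid hm k).castSucc = wpos hw 1 := Fin.ext rfl
  have hmid2 : (mid hm k).succ = wpos hw 2 := Fin.ext rfl
  have hinc : ¬ Q ((π * emb hw x0) (mid hm k).castSucc) ((π * emb hw x0) (mid hm k).succ) := by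
    rw [hmid1, hmid2, hlet, hlet]
    exact fun h => hg ⟨x0 1, x0 2, h⟩
  have hup : mid hm k ∈ Up Q lab (π * emb hw x0) := by
    rw [mem_Up]
    refine ⟨hinc, fun q hq => ?_⟩
    have hmv : (mid hm k).val = k.val * (3 + 2) + 1 := rfl
    rw [hmv] at hq
    exact hin q (by omega) (by omega)
  refine ⟨x0, hx0, ?_, ?_⟩
  · rw [mem_upT]
    exact ⟨Finset.mem_singleton_self _, hinc, des_of_Up hn hup⟩
  · intro x
    rw [← card_DS, ← card_DS]
    have hsub : DS lab (π * emb hw x0) ⊆ DS lab (π * emb hw x) ∪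
        (Finset.univ : Finset (Fin N)).filter fun q =>
          q.val + 1 = k.val * (3 + 2) ∨ q.val = k.val * (3 + 2) + 3 := by
      intro q hq
      by_cases hb : q.val + 1 = k.val * (3 + 2) ∨ q.val = k.val * (3 + 2) + 3
      · exact Finset.mem_union_right _ (Finset.mem_filter.2 ⟨Finset.mem_univ _, hb⟩)
      · refine Finset.mem_union_left _ ?_
        have h1 : ¬ (k.val * (3 + 2) ≤ q.val ∧ q.val ≤ k.val * (3 + 2) + 2) := fun h =>
          hin q h.1 h.2 hq
        have hc : q.castSucc.val = q.val := rfl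
        have hs : q.succ.val = q.val + 1 := rfl
        rw [mem_DS] at hq ⊢
        rw [hout x0 q.castSucc (by rw [hc]; omega), hout x0 q.succ (by rw [hs]; omega)] at hq
        rw [hout x q.castSucc (by rw [hc]; omega), hout x q.succ (by rw [hs]; omega)]
        exact hq
    refine (Finset.card_le_card hsub).trans ((Finset.card_union_le _ _).trans ?_)
    exact Nat.add_le_add_left (card_border _) _

theorem one_win' {N m : ℕ} (hm : m * (3 + 2) ≤ N + 1) {Q : Rel (N + 1)} {lab : Fin (N + 1) → ℕ}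
    (hn : Nat' Q lab) (k : Fin m) (r c : ℝ) (hr : 0 < r) (hr1 : r ≤ 1) (hc : 0 ≤ c) (hc1 : c ≤ 1)
    (F : Equiv.Perm (Fin (N + 1)) → ℝ) (hF0 : ∀ g, 0 ≤ F g)
    (hF : ∀ π ∈ LE Q, ∀ g, π * emb (win_le hm k) g ∈ LE Q → F (π * emb (win_le hm k) g) = F π)
    (hb : ∀ π ∈ LE Q, Bad (winRel (win_le hm k) Q π) → F π = 0) :
    ∑ g ∈ LE Q, r ^ des lab g * (tw Q lab c c (mid hm k) g * F g) ≤
      (1 - (1 - c) * r ^ 2 / 24) * ∑ g ∈ LE Q, r ^ des lab g * F g := by
  classical
  rw [avg (win_le hm k) (fun g => r ^ des lab g * (tw Q lab c c (mid hm k) g * F g)),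
    avg (win_le hm k) (fun g => r ^ des lab g * F g), Finset.mul_sum]
  refine Finset.sum_le_sum fun π hπ => ?_
  simp only [smul_eq_mul]
  have hFe : ∀ x ∈ LE (winRel (win_le hm k) Q π), F (π * emb (win_le hm k) x) = F π := fun x hx =>
    hF π hπ x ((mul_emb_mem (win_le hm k) π hπ x).2 hx)
  rw [Finset.sum_congr rfl (fun x hx => by rw [hFe x hx, ← mul_assoc]),
    Finset.sum_congr rfl (fun x hx => by rw [hFe x hx] :
      ∀ x ∈ LE (winRel (win_le hm k) Q π), r ^ des lab (π * emb (win_le hm k) x) *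
        F (π * emb (win_le hm k) x) = r ^ des lab (π * emb (win_le hm k) x) * F π),
    ← Finset.sum_mul, ← Finset.sum_mul]
  by_cases hbad : Bad (winRel (win_le hm k) Q π)
  · rw [hb π hπ hbad]
    simp
  · obtain ⟨x0, hx0, hx0u, hx0d⟩ := sorted_win hm hn k hπ hbad
    set L := LE (winRel (win_le hm k) Q π) with hL
    set A : ℝ := ∑ x ∈ L, r ^ des lab (π * emb (win_le hm k) x) with hA
    have hcard : (L.card : ℝ) ≤ 24 := by
      have h1 : L.card ≤ 24 := by
        refine le_trans (Finset.card_le_univ _) ?_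
        rw [Fintype.card_perm, Fintype.card_fin]
        decide
      exact_mod_cast h1
    have hx0r : r ^ 2 * A ≤ 24 * r ^ des lab (π * emb (win_le hm k) x0) := by
      rw [hA, Finset.mul_sum]
      have h2 : ∑ x ∈ L, r ^ 2 * r ^ des lab (π * emb (win_le hm k) x) ≤
          ∑ _x ∈ L, r ^ des lab (π * emb (win_le hm k) x0) := by
        refine Finset.sum_le_sum fun x _ => ?_
        rw [← pow_add, add_comm]
        exact pow_le_pow_of_le_one hr.le hr1 (hx0d x)
      refine h2.trans ?_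
      rw [Finset.sum_const, nsmul_eq_mul]
      exact mul_le_mul_of_nonneg_right hcard (pow_nonneg hr.le _)
    have htw0 : tw Q lab c c (mid hm k) (π * emb (win_le hm k) x0) = c := by
      unfold tw
      rw [if_pos hx0u]
    have hsum : ∑ x ∈ L, r ^ des lab (π * emb (win_le hm k) x) *
        tw Q lab c c (mid hm k) (π * emb (win_le hm k) x) ≤
        A - (1 - c) * r ^ des lab (π * emb (win_le hm k) x0) := by
      rw [hA, ← Finset.add_sum_erase L _ hx0, ← Finset.add_sum_erase L (fun x =>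
        r ^ des lab (π * emb (win_le hm k) x)) hx0, htw0]
      have h3 : ∑ x ∈ L.erase x0, r ^ des lab (π * emb (win_le hm k) x) *
          tw Q lab c c (mid hm k) (π * emb (win_le hm k) x) ≤
          ∑ x ∈ L.erase x0, r ^ des lab (π * emb (win_le hm k) x) :=
        Finset.sum_le_sum fun x _ => mul_le_of_le_one_right (pow_nonneg hr.le _)
          (tw_le_one Q lab hc1 _ _)
      linarith
    have hmain : ∑ x ∈ L, r ^ des lab (π * emb (win_le hm k) x) *
        tw Q lab c c (mid hm k) (π * emb (win_le hm k) x) ≤ (1 - (1 - c) * r ^ 2 / 24) * A := by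
      refine hsum.trans ?_
      nlinarith [mul_le_mul_of_nonneg_left hx0r (sub_nonneg.2 hc1)]
    have he : (0 : ℝ) ≤ ((L.card : ℝ))⁻¹ := by positivity
    calc ((L.card : ℝ))⁻¹ * ((∑ x ∈ L, r ^ des lab (π * emb (win_le hm k) x) *
        tw Q lab c c (mid hm k) (π * emb (win_le hm k) x)) * F π)
        ≤ ((L.card : ℝ))⁻¹ * (((1 - (1 - c) * r ^ 2 / 24) * A) * F π) :=
          mul_le_mul_of_nonneg_left (mul_le_mul_of_nonneg_right hmain (hF0 π)) he
      _ = (1 - (1 - c) * r ^ 2 / 24) * (((L.card : ℝ))⁻¹ * (A * F π)) := by ring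

end Pool.SC25
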