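import Pool.Agent.SC25.Num
import Pool.Agent.SC25.Conc
import Pool.Agent.SC25.Star
import Pool.Agent.SC25.FlipE2
import Pool.Agent.SC25.Det

set_option autoImplicit false

/-!
# SC25/RegS: the bad words of one level
-/

namespace Pool.SC25

open Pool.HB45 Pool.HM63 Pool.PH43

theorem RegS_card {N j : ℕ} (X : Finset (Equiv.Perm (Fin (N + 1)))) (lab : Fin (N + 1) → ℕ)
    (P : Equiv.Perm (Fin (N + 1)) → Prop) [DecidablePred P] (r : ℝ) :
    ((X.filter fun g => des lab g = j ∧ P g).card : ℝ) * r ^ j =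
      ∑ g ∈ X.filter (fun g => des lab g = j ∧ P g), r ^ des lab g := by
  rw [Finset.sum_congr rfl (g := fun _ => r ^ j), Finset.sum_const, nsmul_eq_mul]
  intro g hg
  rw [(Finset.mem_filter.1 hg).2.1]

open Classical in
theorem RegS_small {N h m b j : ℕ} (hh : 1 ≤ h) (hm : m * (3 + 2) ≤ N + 1) {Q : Rel (N + 1)}
    {κ lab : Fin (N + 1) → ℕ} (hκ : Lev h Q κ) (hn : Nat' Q lab) (σ : ℝ) (hσ : 0 < σ)
    (hb : b + 2 * j + 1 ≤ m) :
    (((LE Q).filter fun g => des lab g = j ∧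
        (upT Q lab (Tw hm) g).card ≤ (dnT Q lab (Tw hm) g).card + 1).card : ℝ) *
        Real.exp (-σ) ^ j ≤
      (LE Q).card * ps σ ^ (N + 1) *
        Real.exp ((150 + 3 * σ) * (h + 1) + 1 + (N + 1) / 900 - 7 / 50 * b) := by
  refine le_trans ?_ (star hh hκ hn hm b σ hσ)
  rw [RegS_card]
  refine Finset.sum_le_sum_of_subset_of_nonneg ?_ (fun g _ _ => by positivity)
  intro g hg
  obtain ⟨hgL, hdes, hle⟩ := Finset.mem_filter.1 hg
  refine Finset.mem_filter.2 ⟨hgL, ?_⟩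
  have h1 := det_up hm hn hgL
  have h2 := det_down hm hn hgL
  omega

open Classical in
theorem RegS_all {N h m b j : ℕ} (hh : 1 ≤ h) (hm : m * (3 + 2) ≤ N + 1) {Q : Rel (N + 1)}
    {κ lab : Fin (N + 1) → ℕ} (hκ : Lev h Q κ) (hn : Nat' Q lab) (σ : ℝ) (hσ : 0 < σ)
    (hb : b ≤ m) :
    (((LE Q).filter fun g => des lab g = j ∧
        (upT Q lab (Tw hm) g).card ≤ (dnT Q lab (Tw hm) g).card + 1).card : ℝ) *
        Real.exp (-σ) ^ j ≤
      Real.exp (σ / 2) * (Wr Q lab (Real.exp (-σ)) *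
        (1 - (1 - 2 * Real.sqrt (Real.exp (-σ)) / (1 + Real.exp (-σ))) * Real.exp (-σ) ^ 2 / 24) ^
          (m - b) +
      (LE Q).card * ps σ ^ (N + 1) *
        Real.exp ((150 + 3 * σ) * (h + 1) + 1 + (N + 1) / 900 - 7 / 50 * b)) := by
  obtain ⟨r, hr⟩ : ∃ r, r = Real.exp (-σ) := ⟨_, rfl⟩
  have hr0 : 0 < r := by rw [hr]; exact Real.exp_pos _
  have hr1 : r ≤ 1 := by
    rw [hr, Real.exp_le_one_iff]
    linarith
  obtain ⟨c, hc⟩ : ∃ c, c = 2 * Real.sqrt r / (1 + r) := ⟨_, rfl⟩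
  have hs0 : 0 ≤ Real.sqrt r := Real.sqrt_nonneg r
  have hc0 : 0 ≤ c := by rw [hc]; positivity
  have hc1 : c ≤ 1 := by
    rw [hc, div_le_one (by linarith)]
    nlinarith [Real.sq_sqrt hr0.le, sq_nonneg (1 - Real.sqrt r)]
  obtain ⟨η, hη⟩ : ∃ η, η = 1 - (1 - c) * r ^ 2 / 24 := ⟨_, rfl⟩
  have hr2 : r ^ 2 ≤ 1 := pow_le_one₀ hr0.le hr1
  have hη0 : 0 ≤ η := by
    have h2 : (1 - c) * r ^ 2 ≤ 1 * 1 :=
      mul_le_mul (by linarith) hr2 (by positivity) zero_le_one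
    rw [hη]
    linarith
  have hη1 : η ≤ 1 := by
    have h2 : 0 ≤ (1 - c) * r ^ 2 := mul_nonneg (by linarith) (by positivity)
    rw [hη]
    linarith
  have h1 := star hh hκ hn hm b σ hσ
  rw [← hr] at h1 ⊢
  rw [← hc, ← hη]
  have h2 := flip_exp (Q := Q) (lab := lab) (sep_Tw hm) r hr0 hr1
  rw [← hc] at h2
  have h3 := all_win hm hn r c hr0 hr1 hc0 hc1
  rw [← hη] at h3
  have h4 : ∑ g ∈ LE Q, r ^ des lab g * η ^ (m - nbad hm Q g) ≤
      Wr Q lab r * η ^ (m - b) + ∑ g ∈ (LE Q).filter (fun g => b ≤ nbad hm Q g), r ^ des lab g := by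
    rw [← Finset.sum_filter_add_sum_filter_not (LE Q) (fun g => b ≤ nbad hm Q g), add_comm]
    refine add_le_add ?_ (Finset.sum_le_sum fun g _ => ?_)
    · unfold Wr
      rw [Finset.sum_mul]
      refine le_trans (Finset.sum_le_sum (g := fun g => r ^ des lab g * η ^ (m - b))
        fun g hg => ?_) (Finset.sum_le_sum_of_subset_of_nonneg (Finset.filter_subset _ _)
          fun g _ _ => by positivity)
      refine mul_le_mul_of_nonneg_left (pow_le_pow_of_le_one hη0 hη1 ?_) (by positivity)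
      have := (Finset.mem_filter.1 hg).2
      omega
    · have : η ^ (m - nbad hm Q g) ≤ 1 := pow_le_one₀ hη0 hη1
      have h5 : 0 < r ^ des lab g := by positivity
      nlinarith
  have h5 : (((LE Q).filter fun g => des lab g = j ∧
        (upT Q lab (Tw hm) g).card ≤ (dnT Q lab (Tw hm) g).card + 1).card : ℝ) * r ^ j ≤
      ∑ g ∈ (LE Q).filter (fun g => (upT Q lab (Tw hm) g).card ≤ (dnT Q lab (Tw hm) g).card + 1),
        r ^ des lab g := by
    rw [RegS_card]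
    refine Finset.sum_le_sum_of_subset_of_nonneg ?_ (fun g _ _ => by positivity)
    intro g hg
    obtain ⟨hgL, hdes, hle⟩ := Finset.mem_filter.1 hg
    exact Finset.mem_filter.2 ⟨hgL, hle⟩
  have h6 : Real.exp (σ / 2) * Real.sqrt r = 1 := by
    have : Real.sqrt r = Real.exp (-σ / 2) := by rw [hr, Real.exp_half]
    rw [this, ← Real.exp_add]
    simp [neg_div]
  have h7 := Real.exp_pos (σ / 2)
  refine h5.trans ?_
  have h8 : ∑ g ∈ (LE Q).filter (fun g => (upT Q lab (Tw hm) g).card ≤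
      (dnT Q lab (Tw hm) g).card + 1), r ^ des lab g =
      Real.exp (σ / 2) * (Real.sqrt r * ∑ g ∈ (LE Q).filter (fun g =>
        (upT Q lab (Tw hm) g).card ≤ (dnT Q lab (Tw hm) g).card + 1), r ^ des lab g) := by
    rw [← mul_assoc, h6, one_mul]
  rw [h8]
  refine mul_le_mul_of_nonneg_left ?_ h7.le
  linarith

end Pool.SC25
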