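import Pool.Agent.SC25.Gen
import Pool.Agent.SC25.Om
import Pool.Agent.SC25.SumInt

set_option autoImplicit false

/-!
# SC25/Sand: sandwich for `W(e^(-σ))`
-/

namespace Pool.SC25

open Pool.HB45 Pool.HM63 Pool.PH43

/-- the generating function of all order preserving maps -/
private theorem sand_gen {N : ℕ} {Q : Rel (N + 1)} {lab : Fin (N + 1) → ℕ} (hn : Nat' Q lab)
    (σ : ℝ) (hσ : 0 < σ) :
    HasSum (fun M : ℕ => Real.exp (-(σ * M)) * ((Mp Q (M + 1)).card : ℝ))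
      (Wr Q lab (Real.exp (-σ)) / (1 - Real.exp (-σ)) ^ (N + 2)) := by
  classical
  have h1 : Real.exp (-σ) < 1 := (by rw [Real.exp_lt_one_iff]; linarith)
  have h := gen hn (fun _ => True) (Real.exp (-σ)) (Real.exp_pos _).le h1
  have e1 : (fun M : ℕ => Real.exp (-(σ * M)) * ((Mp Q (M + 1)).card : ℝ)) =
      fun M : ℕ => Real.exp (-σ) ^ M *
        (((Mp Q (M + 1)).filter fun f => (fun _ => True) (wd lab fun i => (f i).val)).card : ℝ) := by
    funext M
    rw [Finset.filter_true_of_mem (fun _ _ => trivial), ← Real.exp_nat_mul]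
    congr 2
    ring
  have e2 : Wr Q lab (Real.exp (-σ)) = ∑ g ∈ (LE Q).filter (fun _ => True), Real.exp (-σ) ^ des lab g := by
    rw [Finset.filter_true_of_mem (fun _ _ => trivial)]
    rfl
  rw [e1, e2]
  convert h

/-- PROOF. `gen` with `G = True`, `om_lower` for `m = M + 1`, `sum_ge`:
`W / (1 - r)^(N+2) = ∑ r^M Om (M + 1) ≥ e/(N+1)! * ∑ (M+1)^(N+1) e^(-σ M) ≥ e / (σ^(N+1) (1 - r))`. -/
theorem sand_lower {N : ℕ} {Q : Rel (N + 1)} {lab : Fin (N + 1) → ℕ} (hn : Nat' Q lab)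
    (σ : ℝ) (hσ : 0 < σ) :
    (LE Q).card * ps σ ^ (N + 1) ≤ Wr Q lab (Real.exp (-σ)) := by
  have h1 : Real.exp (-σ) < 1 := (by rw [Real.exp_lt_one_iff]; linarith)
  have hD : 0 < 1 - Real.exp (-σ) := by linarith
  have hf : (0 : ℝ) < ((N + 1).factorial : ℝ) := by exact_mod_cast Nat.factorial_pos _
  have hs := sand_gen hn σ hσ
  have hb := (summable_pow_exp (N + 1) σ hσ).hasSum.mul_left (((LE Q).card : ℝ) / ((N + 1).factorial : ℝ))
  have hle := hasSum_le (fun M => by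
    have h2 : ((LE Q).card : ℝ) * ((M : ℝ) + 1) ^ (N + 1) ≤ ((N + 1).factorial : ℝ) * ((Mp Q (M + 1)).card : ℝ) := by
      exact_mod_cast om_lower hn (M + 1)
    have h3 : ((LE Q).card : ℝ) / ((N + 1).factorial : ℝ) * ((M : ℝ) + 1) ^ (N + 1) ≤ ((Mp Q (M + 1)).card : ℝ) := by
      rw [div_mul_eq_mul_div, div_le_iff₀ hf]
      linarith
    show ((LE Q).card : ℝ) / ((N + 1).factorial : ℝ) * (((M : ℝ) + 1) ^ (N + 1) * Real.exp (-(σ * M))) ≤
      Real.exp (-(σ * M)) * ((Mp Q (M + 1)).card : ℝ)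
    rw [← mul_assoc, mul_comm (Real.exp (-(σ * M)))]
    exact mul_le_mul_of_nonneg_right h3 (Real.exp_pos _).le) hb hs
  have hge := sum_ge (N + 1) σ hσ
  have h4 : ((LE Q).card : ℝ) / ((N + 1).factorial : ℝ) *
      (((N + 1).factorial : ℝ) / (σ ^ (N + 1) * (1 - Real.exp (-σ)))) ≤
      Wr Q lab (Real.exp (-σ)) / (1 - Real.exp (-σ)) ^ (N + 2) :=
    (mul_le_mul_of_nonneg_left hge (by positivity)).trans hle
  have h5 : ((LE Q).card : ℝ) / ((N + 1).factorial : ℝ) *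
      (((N + 1).factorial : ℝ) / (σ ^ (N + 1) * (1 - Real.exp (-σ)))) =
      ((LE Q).card : ℝ) * ps σ ^ (N + 1) / (1 - Real.exp (-σ)) ^ (N + 2) := by
    unfold ps
    rw [div_pow]
    field_simp
    ring
  rw [h5, div_le_div_iff_of_pos_right (by positivity)] at h4
  exact h4

/-- PROOF. The same with `om_upper` and `sum_shift_le` (`H = h`). -/
theorem sand_upper {N h : ℕ} {Q : Rel (N + 1)} {κ lab : Fin (N + 1) → ℕ} (hκ : Lev h Q κ)
    (hn : Nat' Q lab) (σ : ℝ) (hσ : 0 < σ) :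
    Wr Q lab (Real.exp (-σ)) ≤ (LE Q).card * ps σ ^ (N + 1) * Real.exp (σ * (h + 1)) := by
  have h1 : Real.exp (-σ) < 1 := (by rw [Real.exp_lt_one_iff]; linarith)
  have hD : 0 < 1 - Real.exp (-σ) := by linarith
  have hf : (0 : ℝ) < ((N + 1).factorial : ℝ) := by exact_mod_cast Nat.factorial_pos _
  have hs := sand_gen hn σ hσ
  have hb := (summable_shift (N + 1) h σ hσ).hasSum.mul_left (((LE Q).card : ℝ) / ((N + 1).factorial : ℝ))
  have hle := hasSum_le (fun M => by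
    have h2 : ((N + 1).factorial : ℝ) * ((Mp Q (M + 1)).card : ℝ) ≤
        ((LE Q).card : ℝ) * ((M : ℝ) + 1 + h) ^ (N + 1) := by
      exact_mod_cast om_upper hκ hn (M + 1)
    have h3 : ((Mp Q (M + 1)).card : ℝ) ≤
        ((LE Q).card : ℝ) / ((N + 1).factorial : ℝ) * ((M : ℝ) + 1 + h) ^ (N + 1) := by
      rw [div_mul_eq_mul_div, le_div_iff₀ hf]
      linarith
    show Real.exp (-(σ * M)) * ((Mp Q (M + 1)).card : ℝ) ≤
      ((LE Q).card : ℝ) / ((N + 1).factorial : ℝ) * (((M : ℝ) + 1 + h) ^ (N + 1) * Real.exp (-(σ * M)))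
    rw [← mul_assoc, mul_comm (Real.exp (-(σ * M)))]
    exact mul_le_mul_of_nonneg_right h3 (Real.exp_pos _).le) hs hb
  have hge := sum_shift_le (N + 1) h σ hσ
  have h4 : Wr Q lab (Real.exp (-σ)) / (1 - Real.exp (-σ)) ^ (N + 2) ≤
      ((LE Q).card : ℝ) / ((N + 1).factorial : ℝ) *
      (Real.exp (σ * (h + 1)) * (((N + 1).factorial : ℝ) / (σ ^ (N + 1) * (1 - Real.exp (-σ))))) :=
    hle.trans (mul_le_mul_of_nonneg_left hge (by positivity))
  have h5 : ((LE Q).card : ℝ) / ((N + 1).factorial : ℝ) *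
      (Real.exp (σ * (h + 1)) * (((N + 1).factorial : ℝ) / (σ ^ (N + 1) * (1 - Real.exp (-σ))))) =
      ((LE Q).card : ℝ) * ps σ ^ (N + 1) * Real.exp (σ * (h + 1)) / (1 - Real.exp (-σ)) ^ (N + 2) := by
    unfold ps
    rw [div_pow]
    field_simp
    ring
  rw [h5, div_le_div_iff_of_pos_right (by positivity)] at h4
  exact h4

end Pool.SC25
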