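import Pool.Agent.SC25.Defs

set_option autoImplicit false

/-!
# SC25/StarP: `(1 - e^(-x)) / x` decreases
-/

namespace Pool.SC25

/-- `(1 - e^(-x)) / x` decreases -/
theorem ps_anti' {σ' σ : ℝ} (h0 : 0 < σ') (h : σ' ≤ σ) : ps σ ≤ ps σ' := by
  have h1 : 0 < σ := lt_of_lt_of_le h0 h
  obtain ⟨l, hl⟩ : ∃ l : ℝ, l = σ' / σ := ⟨_, rfl⟩
  have hl0 : 0 ≤ l := by rw [hl]; positivity
  have hl1 : l ≤ 1 := by rw [hl, div_le_one h1]; exact h
  have hs : σ' = l * σ := by rw [hl]; field_simp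
  have hc := convexOn_exp.2 (Set.mem_univ (0 : ℝ)) (Set.mem_univ (-σ)) (sub_nonneg.2 hl1) hl0
    (by ring : (1 - l) + l = 1)
  simp only [smul_eq_mul, Real.exp_zero, mul_zero, zero_add, mul_one] at hc
  have h2 : Real.exp (-σ') ≤ (1 - l) + l * Real.exp (-σ) := by
    rw [hs, show -(l * σ) = l * -σ by ring]
    exact hc
  unfold ps
  rw [div_le_div_iff₀ h1 h0]
  have h3 : (1 - Real.exp (-σ)) * σ' = σ * (l * (1 - Real.exp (-σ))) := by
    rw [hs]; ring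
  rw [h3, mul_comm (1 - Real.exp (-σ')) σ]
  exact mul_le_mul_of_nonneg_left (by linarith) h1.le

end Pool.SC25
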